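import Mathlib
import Pool.Agent.Work.MP_610017_lc.PP.StmtsA

/-!
# Block GG: growth rates beyond the polynomial ones (MP_610017_lc). Definitions, finite part

Chains of terms, groups, modified worlds, codes.
-/

set_option autoImplicit false

namespace Pool.Agent.Work.MP_610017_lc.PP

/-! ## 1. Undecided parts, connected parts, groups -/

open Classical in
/-- the undecided part of a term -/
noncomputable def und {k n : ℕ} (ρ : Res k n) (π F : Finset (Fact k n)) : Finset (Fact k n) :=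
  F.filter (fun f => ¬ Dec ρ π f)

/-- `f` is a fact of `H` which is connected, in `H`, with the set `Y` of elements -/
inductive Conn {k n : ℕ} (H : Finset (Fact k n)) (Y : Finset (Vx k × Lb n)) : Fact k n → Prop
  | base (f : Fact k n) (hf : f ∈ H) (h : ¬ Disjoint (touch f) Y) : Conn H Y f
  | step (f g : Fact k n) (hf : f ∈ H) (hg : Conn H Y g) (h : ¬ Disjoint (touch f) (touch g)) :
      Conn H Y f

open Classical in
/-- the part of `H` which is connected with `Y` -/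
noncomputable def rt {k n : ℕ} (H : Finset (Fact k n)) (Y : Finset (Vx k × Lb n)) :
    Finset (Fact k n) :=
  H.filter (fun f => Conn H Y f)

/-- no element of a fact of `H` is on a known sheet -/
def Live {k n : ℕ} (ρ : Res k n) (H : Finset (Fact k n)) : Prop :=
  ∀ f ∈ H, ∀ p ∈ touch f, (ρ.β p.1).symm p.2 ∈ ρ.I

/-- the facts of `U` are carried by the `w` groups `G` (as in `S_Emb`) -/
structure IsGrp {k n : ℕ} (ρ : Res k n) (w : ℕ) (U : Finset (Fact k n)) (G : Fin w → Grp k n) :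
    Prop where
  card_le : ∀ g, (G g).supp.card ≤ 2 * w
  idx : ∀ g, ∀ v ∈ (G g).supp, (ρ.β v).symm ((G g).p v) ∈ ρ.I
  corner : ∀ g, crn k ∈ (G g).supp → (G g).p (crn k) ≠ 0 ∧ (G g).p (crn k) ≠ 1
  disj : ∀ g g', g ≠ g' → ∀ v, v ∈ (G g).supp → v ∈ (G g').supp → (G g).p v ≠ (G g').p v
  carries : ∀ f ∈ U, ∃ g, Carries (G g) f
  touched : ∀ g, ∀ v ∈ (G g).supp, ∃ f ∈ U, (v, (G g).p v) ∈ touch f

/-- the terms of `𝓣` whose undecided part is free for the restriction and whose part connected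
with `Y` is `α` -/
def Cls {k n : ℕ} (ρ : Res k n) (π : Finset (Fact k n)) (𝓣 : Set (Finset (Fact k n))) (w : ℕ)
    (Y : Finset (Vx k × Lb n)) (α : Finset (Fact k n)) : Set (Finset (Fact k n)) :=
  {F | F ∈ 𝓣 ∧ Live ρ (und ρ π F) ∧ (∃ G, IsGrp ρ w (und ρ π F \ rt (und ρ π F) Y) G) ∧
    rt (und ρ π F) Y = α}

/-- the elements of the undecided parts of the first `j` terms -/
noncomputable def YY {k n : ℕ} (ρ : Res k n) (π : Finset (Fact k n)) (Fs : ℕ → Finset (Fact k n))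
    (j : ℕ) : Finset (Vx k × Lb n) :=
  (Finset.range j).biUnion fun i => (und ρ π (Fs i)).biUnion touch

/-- the part of the `j`-th term connected with the earlier ones -/
noncomputable def al {k n : ℕ} (ρ : Res k n) (π : Finset (Fact k n)) (Fs : ℕ → Finset (Fact k n))
    (j : ℕ) : Finset (Fact k n) :=
  rt (und ρ π (Fs j)) (YY ρ π Fs j)

/-- the new part of the `j`-th term -/
noncomputable def uu {k n : ℕ} (ρ : Res k n) (π : Finset (Fact k n)) (Fs : ℕ → Finset (Fact k n))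
    (j : ℕ) : Finset (Fact k n) :=
  und ρ π (Fs j) \ al ρ π Fs j

/-- a chain of length `q`: the `j`-th term is the first term (for the order given by the numbering
`o`) of its class, and no term has the undecided part `al j` -/
structure Chain {k n : ℕ} (ρ : Res k n) (π : Finset (Fact k n)) (𝓣 : Set (Finset (Fact k n)))
    (w q : ℕ) (o : Finset (Fact k n) → ℕ) (Fs : ℕ → Finset (Fact k n)) : Prop where
  mem : ∀ j < q, Fs j ∈ Cls ρ π 𝓣 w (YY ρ π Fs j) (al ρ π Fs j)
  min : ∀ j < q, ∀ F ∈ Cls ρ π 𝓣 w (YY ρ π Fs j) (al ρ π Fs j), o (Fs j) ≤ o F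
  ne : ∀ j < q, ∀ F ∈ 𝓣, und ρ π F ≠ al ρ π Fs j

/-- the extension `ω` is bad if the restriction `(ω, I1)` has a chain of length `q` -/
def BadC {k n : ℕ} (I1 : Finset (Lb n)) (π : Finset (Fact k n)) (𝓣 : Set (Finset (Fact k n)))
    (w q : ℕ) (o : Finset (Fact k n) → ℕ)
    (ω : (Vx k → Equiv.Perm (Lb n)) × (Lb n → Bool)) : Prop :=
  ∃ ρ1 : Res k n, ρ1.β = ω.1 ∧ ρ1.ζ = ω.2 ∧ ρ1.I = I1 ∧ ∃ Fs, Chain ρ1 π 𝓣 w q o Fs

/-! ## 2. Exchange permutations -/

/-- `τ` exchanges `f a` and `g a` for `a ∈ A` and fixes everything else -/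
structure IsSwp {ι : Type} {n : ℕ} (A : Set ι) (f g : ι → Lb n) (τ : Equiv.Perm (Lb n)) :
    Prop where
  left : ∀ a ∈ A, τ (f a) = g a
  right : ∀ a ∈ A, τ (g a) = f a
  fix : ∀ x, (∀ a ∈ A, x ≠ f a ∧ x ≠ g a) → τ x = x

open Classical in
/-- the exchange permutation -/
noncomputable def swp {ι : Type} {n : ℕ} (A : Set ι) (f g : ι → Lb n) : Equiv.Perm (Lb n) :=
  if h : ∃ τ, IsSwp A f g τ then h.choose else 1

/-! ## 3. A chain with choices, and the modified worlds -/

/-- A chain with choices: groups `G j g` for the new part of the `j`-th term, free indices `J j g`,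
and one fact `f0 j` of the new part, on the group `g0 j`. -/
structure CD {k n : ℕ} (ρ : Res k n) (π : Finset (Fact k n)) (𝓣 : Set (Finset (Fact k n)))
    (w q : ℕ) (o : Finset (Fact k n) → ℕ) where
  F : ℕ → Finset (Fact k n)
  chain : Chain ρ π 𝓣 w q o F
  G : ℕ → Fin w → Grp k n
  grp : ∀ j < q, IsGrp ρ w (uu ρ π F j) (G j)
  J : ℕ → Fin w → Lb n
  J_mem : ∀ j < q, ∀ g, J j g ∈ ρ.I ∧ J j g ≠ 0 ∧ J j g ≠ 1
  J_inj : ∀ j < q, ∀ j' < q, ∀ g g', J j g = J j' g' → j = j' ∧ g = g'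
  J_av : ∀ j < q, ∀ g, ∀ j' < q, ∀ f ∈ und ρ π (F j'), ∀ p ∈ touch f,
    (ρ.β p.1).symm p.2 ≠ J j g
  g0 : ℕ → Fin w
  f0 : ℕ → Fact k n
  f0_mem : ∀ j < q, f0 j ∈ uu ρ π F j
  f0_car : ∀ j < q, Carries (G j (g0 j)) (f0 j)

section
variable {k n : ℕ} {ρ : Res k n} {π : Finset (Fact k n)} {𝓣 : Set (Finset (Fact k n))} {w q : ℕ}
  {o : Finset (Fact k n) → ℕ}

/-- the pairs `(a, g)`, `j ≤ a < q`, with `v` in the support of the group `G a g` -/
def CD.A (D : CD ρ π 𝓣 w q o) (j : ℕ) (v : Vx k) : Set (ℕ × Fin w) :=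
  {a | j ≤ a.1 ∧ a.1 < q ∧ v ∈ (D.G a.1 a.2).supp}

/-- the index of the element of the group `G a g` at the vertex `v` -/
def CD.ix (D : CD ρ π 𝓣 w q o) (v : Vx k) (a : ℕ × Fin w) : Lb n :=
  (ρ.β v).symm ((D.G a.1 a.2).p v)

/-- at the vertex `v` the group elements are moved to the sheets `J` -/
noncomputable def CD.tau (D : CD ρ π 𝓣 w q o) (j : ℕ) (v : Vx k) : Equiv.Perm (Lb n) :=
  swp (D.A j v) (fun a => D.J a.1 a.2) (D.ix v)

/-- the sheet `J a (g0 a)` is exchanged with the known sheet `i a`, for `j ≤ a < q` -/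
noncomputable def CD.sig (D : CD ρ π 𝓣 w q o) (i : ℕ → Lb n) (j : ℕ) : Equiv.Perm (Lb n) :=
  swp {a : ℕ | j ≤ a ∧ a < q} (fun a => D.J a (D.g0 a)) i

/-- the modified labels -/
noncomputable def CD.bet (D : CD ρ π 𝓣 w q o) (i : ℕ → Lb n) (j : ℕ) (v : Vx k) :
    Equiv.Perm (Lb n) :=
  ρ.β v * D.tau j v * D.sig i j

open Classical in
/-- the colour of a sheet before `sig`: the colour of the group for the sheets `J a g`, `j ≤ a < q` -/
noncomputable def CD.zt (D : CD ρ π 𝓣 w q o) (j : ℕ) (x : Lb n) : Bool :=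
  if h : ∃ a : ℕ × Fin w, j ≤ a.1 ∧ a.1 < q ∧ D.J a.1 a.2 = x then
    (D.G h.choose.1 h.choose.2).c else ρ.ζ x

/-- the modified colours -/
noncomputable def CD.zet (D : CD ρ π 𝓣 w q o) (i : ℕ → Lb n) (j : ℕ) (x : Lb n) : Bool :=
  D.zt j (D.sig i j x)

open Classical in
/-- the unknown indices of the modified world -/
noncomputable def CD.Un (D : CD ρ π 𝓣 w q o) (j : ℕ) : Finset (Lb n) :=
  ρ.I.filter fun x => ∀ a : ℕ × Fin w, j ≤ a.1 → a.1 < q → D.J a.1 a.2 ≠ x

/-- the index, in the modified worlds, of the sheet with the group `G a g` -/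
def CD.iy (D : CD ρ π 𝓣 w q o) (i : ℕ → Lb n) (a : ℕ × Fin w) : Lb n :=
  if a.2 = D.g0 a.1 then i a.1 else D.J a.1 a.2

open Classical in
/-- the labels of the sheet with the group `G a g` in the modified worlds -/
noncomputable def CD.lab (D : CD ρ π 𝓣 w q o) (a : ℕ × Fin w) (v : Vx k) : Lb n :=
  if v ∈ (D.G a.1 a.2).supp then (D.G a.1 a.2).p v else ρ.β v (D.J a.1 a.2)

/-- the fact is on the sheet with the labels `l` and the colour `c` -/
def OnS {k n : ℕ} (l : Vx k → Lb n) (c : Bool) : Fact k n → Prop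
  | .edge v w a b => l v = a ∧ l w = b
  | .col v a c' => l v = a ∧ c = c'

end

/-- the known sheets `i a` are different and not in `I` -/
structure Inj {n : ℕ} (I : Finset (Lb n)) (q : ℕ) (i : ℕ → Lb n) : Prop where
  nmem : ∀ a < q, i a ∉ I
  inj : ∀ a < q, ∀ b < q, i a = i b → a = b

/-- the fact is true on a sheet with index outside `I`, in the world `(β, ζ)` -/
def STr {k n : ℕ} (β : Vx k → Equiv.Perm (Lb n)) (ζ : Lb n → Bool) (I : Finset (Lb n)) :
    Fact k n → Prop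
  | .edge v w a b => ∃ i, i ∉ I ∧ β v i = a ∧ β w i = b
  | .col v a c => ∃ i, i ∉ I ∧ β v i = a ∧ ζ i = c

open Classical in
/-- the part of `F` not decided by `π` and the sheets outside `I` of the world `(β, ζ)` -/
noncomputable def unK {k n : ℕ} (β : Vx k → Equiv.Perm (Lb n)) (ζ : Lb n → Bool)
    (I : Finset (Lb n)) (π F : Finset (Fact k n)) : Finset (Fact k n) :=
  F.filter (fun f => ¬ (f ∈ π ∨ STr β ζ I f))

/-- the first element of a fact -/
def fst1 {k n : ℕ} : Fact k n → Vx k × Lb n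
  | .edge v _ a _ => (v, a)
  | .col v a _ => (v, a)

/-! ## 4. Codes -/

/-- a code of one step -/
structure Code (k n w : ℕ) (I1 : Finset (Lb n)) : Type where
  /-- the facts of `al j`, their elements given by vertex and index -/
  A : Fin w → Option (((Vx k × I1) × (Vx k × I1)) × (Bool × Bool))
  /-- the sheets `J j g` -/
  J : Fin w → I1
  /-- their old colours -/
  c : Fin w → Bool
  /-- supports and indices of the groups -/
  S : Fin w → Fin (2 * w) → Option (Vx k × I1)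
  /-- the group `g0 j` -/
  g0 : Fin w
  /-- the position of `f0 j` in the list of facts of `F j` -/
  pos : Fin w

/-- the fact with a given code, in the world `β` -/
def dF {k n : ℕ} {I1 : Finset (Lb n)} (β : Vx k → Equiv.Perm (Lb n))
    (x : ((Vx k × I1) × (Vx k × I1)) × (Bool × Bool)) : Fact k n :=
  if x.2.1 = true then .edge x.1.1.1 x.1.2.1 (β x.1.1.1 x.1.1.2) (β x.1.2.1 x.1.2.2)
  else .col x.1.1.1 (β x.1.1.1 x.1.1.2) x.2.2

/-- `c` is a code of the step `j` -/
structure IsCode {k n : ℕ} {ρ : Res k n} {π : Finset (Fact k n)} {𝓣 : Set (Finset (Fact k n))}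
    {w q : ℕ} {o : Finset (Fact k n) → ℕ} {I1 : Finset (Lb n)} (D : CD ρ π 𝓣 w q o)
    (i : ℕ → Lb n) (j : ℕ) (c : Code k n w I1) : Prop where
  A : ∀ f, f ∈ al ρ π D.F j ↔ ∃ t x, c.A t = some x ∧ f = dF (D.bet i j) x
  J : ∀ g, (c.J g : Lb n) = D.J j g
  col : ∀ g, c.c g = ρ.ζ (D.J j g)
  S : ∀ g v (x : I1), (∃ t, c.S g t = some (v, x)) ↔
    v ∈ (D.G j g).supp ∧ (x : Lb n) = D.ix v (j, g)
  g0 : c.g0 = D.g0 j
  pos : (D.F j).toList[(c.pos : ℕ)]? = some (D.f0 j)

end Pool.Agent.Work.MP_610017_lc.PP
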