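import Mathlib
import Pool.Agent.Work.MP_610017_lc.GP.Defs

/-!
# Block GG, part A: the finite combinatorics. Statements with proofs (helper27)

Item `X`: statement `G_X` below, file `GG/I_X.lean`, theorem `pr_X`, namespace `Pool.Agent.Work.MP_610017_lc`, auxiliary
lemmas in a sub-namespace `IX`. Every item may import `Bd/B03.lean` (the landed library; `prf_Emb`, `prf_NbLevel`, `pf_BrBasic`, `prf_Graft`,
`prf_BrCount`, `prf_Ball`, `prf_Swap`, ..) if it needs it; otherwise import only this file. `Dec ρ π f` means `f ∈ π ∨ SetTrue ρ f`.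
-/

set_option autoImplicit false

namespace Pool.Agent.Work.MP_610017_lc.PP

/-! ## 1. Connected parts -/

/-- [Rt] (EASY) connected parts. (1) filter. (2) if `f ∈ H` touches `Y` or an element of a fact of `rt H Y`, then `f ∈ rt H Y` (the two constructors
of `Conn`). (3) `Conn (rt H Y) Y f` for `f ∈ rt H Y`: induction on `Conn H Y f` (all members of the path are in `rt H Y`). (4) monotonicity of `Conn` in `H`.
(5) if `A ⊆ H`, every fact of `A` is connected with `Y` in `A` and no fact of `H \ A` touches `Y` or a fact of `A`, then `rt H Y = A` (induction on `Conn`).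
(6) `touch f` has one or two elements. -/
def G_Rt : Prop := ∀ (k n : ℕ) (H : Finset (Fact k n)) (Y : Finset (Vx k × Lb n)),
  (rt H Y ⊆ H) ∧
  (∀ f ∈ H, (¬ Disjoint (touch f) Y ∨ ∃ g ∈ rt H Y, ¬ Disjoint (touch f) (touch g)) → f ∈ rt H Y) ∧
  (∀ f ∈ rt H Y, Conn (rt H Y) Y f) ∧
  (∀ (H' : Finset (Fact k n)) (f : Fact k n), H ⊆ H' → Conn H Y f → Conn H' Y f) ∧
  (∀ A : Finset (Fact k n), A ⊆ H → (∀ f ∈ A, Conn A Y f) →
    (∀ f ∈ H, f ∉ A → Disjoint (touch f) Y ∧ ∀ g ∈ A, Disjoint (touch f) (touch g)) → rt H Y = A) ∧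
  ∀ f : Fact k n, (touch f).Nonempty ∧ (touch f).card ≤ 2

/-- [CA] (EASY-MEDIUM) consistent terms are admissible. `Live`: let `ω` extend `ρ` with all facts of `π ∪ F` true, `f ∈ und ρ π F`, `(v, a) ∈ touch f`, and let
`y = (ρ.β v).symm a ∉ ρ.I`. Then `ω.β v y = ρ.β v y = a`, so `y` is the index in `ω` of all elements of `f`; `ω.β u y = ρ.β u y` for every `u`, `ω.ζ y = ρ.ζ y`, and
`y ≠ 0` (`ρ.zero_mem`); so `SetTrue ρ f`, a contradiction. `IsGrp`: `S_Emb` (`prf_Emb prf_NbLevel`) with `r = w` for the set `und ρ π F \ rt (und ρ π F) Y` in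
place of `F` (a subset of `F`; `Con` is monotone); its facts are not decided. `pr_CA : G_CA` (no hypotheses; import `Bd/B03.lean`). -/
def G_CA : Prop := ∀ (k n w : ℕ) (ρ : Res k n) (π F : Finset (Fact k n)) (Y : Finset (Vx k × Lb n)),
  (∀ f ∈ F, Valid f) → F.card ≤ w → SB w π → Con ρ (π ∪ F) →
  Live ρ (und ρ π F) ∧ ∃ G, IsGrp ρ w (und ρ π F \ rt (und ρ π F) Y) G

/-- [Gr] (MEDIUM) a maximal chain. Chains of length `0` exist (no condition). So there are `r < q` and a chain `Fs` of length `r` such that there is no chain of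
length `r + 1`. Let `Y = YY ρ π Fs r`, at most `2 w r` elements (`und ρ π (Fs j) ⊆ Fs j`, at most `w` facts with at most two elements; `Fs j ∈ 𝓣` for `j < r`). Let
`F ∈ 𝓣`, `Con ρ (π ∪ F)`, `α = rt (und ρ π F) Y`. By `G_CA` `F` is in the class `Cls .. Y α`; let `F₁` be a member of the class with the least value of `o`. If no term of
`𝓣` has the undecided part `α`, then `Fs` with `Fs r` replaced by `F₁` (`Function.update`) is a chain of length `r + 1`: `YY` at `j ≤ r` depends only on the terms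
with index `< r`, and `al` at `r` is `rt (und ρ π F₁) Y = α`. USES `G_CA`: write `pr_Gr (h : G_CA) (h' : G_Rt) : G_Gr`. -/
def G_Gr : Prop := ∀ (k n w q : ℕ) (ρ : Res k n) (π : Finset (Fact k n))
  (𝓣 : Set (Finset (Fact k n))) (o : Finset (Fact k n) → ℕ),
  (∀ F ∈ 𝓣, F.card ≤ w ∧ ∀ f ∈ F, Valid f) → SB w π → (¬ ∃ Fs, Chain ρ π 𝓣 w q o Fs) →
  ∃ Y : Finset (Vx k × Lb n), Y.card ≤ 2 * w * q ∧
    ∀ F ∈ 𝓣, Con ρ (π ∪ F) → ∃ F' ∈ 𝓣, und ρ π F' = rt (und ρ π F) Y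

/-- the facts of `P` reveal the sheets of the elements of `Y` up to the distance `r` (in each coordinate) -/
def RB {k n : ℕ} (r : ℕ) (Y : Finset (Vx k × Lb n)) (P : Finset (Fact k n)) : Prop :=
  ∀ ω : GW k n, (∀ f ∈ P, holds ω f) → ∀ y ∈ Y, ∀ u : Vx k,
    u.1.val ≤ y.1.1.val + r → y.1.1.val ≤ u.1.val + r → u.2.val ≤ y.1.2.val + r →
    y.1.2.val ≤ u.2.val + r →
    ∀ f, Valid f → (u, ω.β u ((ω.β y.1).symm y.2)) ∈ touch f → holds ω f → f ∈ P

/-- [Rv] (MEDIUM) revealing sheets; compare `prf_Ball` (B01/B02, `Ball_claim`). One element `y = (v, a)`: query `(v, a)`, then walk in the box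
`{u : |u - v| ≤ r}` from neighbour to neighbour (the answer to a query of `(u, b)` contains the labels of the neighbours on the same sheet): for the vertices
of the box in an order in which every vertex is a neighbour of an earlier one (first along the row of `v`, then along the columns), at most `(2 r + 1)²` queries.
By `prf_StarClosed` the answer contains all valid true facts with the element. Then `S_Graft` over the elements of `Y` (`Finset.induction_on`). -/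
def G_Rv : Prop := ∀ (k n r : ℕ) (Y : Finset (Vx k × Lb n)), ∃ T : Tree k n,
  HLe (Y.card * (2 * r + 1) ^ 2) T ∧ ∀ P b, Br T P b → RB r Y P

/-- [Nr] (MEDIUM) the part connected with `Y` is revealed. Let `ω` be a covering with all facts of `H` and `P` true, `H` valid with at most `r` facts. Claim: let
`S 0` be the set of facts of `H` which touch `Y`, `S (t+1)` the set of facts of `H` in `S t` or touching a fact in `S t`. Every fact `f ∈ S t` has an element
`(u, b) ∈ touch f` and there is `y ∈ Y` with `u` at distance `≤ t` from `y.1` in both coordinates and `b = ω.β u ((ω.β y.1).symm y.2)`; and every element of `f`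
is of this form with distance `≤ t + 1` (`holds`, `Valid`, `prf_NbLevel` or `up1`, `dn1`: the coordinates of neighbours differ by at most one; an edge is symmetric for this
purpose). The sets `S t` increase, and if `S (t+1) = S t` they are constant from `t` on, so `S t` is the set of all connected facts for `t + 1 ≥ |H|`, i.e. for
`t = r - 1` (if `H` is not empty); so `RB r Y P` gives `f ∈ P`. -/
def G_Nr : Prop := ∀ (k n r : ℕ) (ω : GW k n) (H P : Finset (Fact k n))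
  (Y : Finset (Vx k × Lb n)), (∀ f ∈ H, Valid f) → H.card ≤ r → RB r Y P →
  (∀ f ∈ P, holds ω f) → (∀ f ∈ H, holds ω f) → rt H Y ⊆ P

/-- [OS] (EASY-MEDIUM) the tree of one task. Take `Y` from `G_Gr` and the tree `Q` of `G_Rv` with `r = w`; `S_Graft` with trees of height `0`: the leaf with facts `P` gets the
label `there is F ∈ 𝓣 with Dec ρ (π ∪ P) f for all f ∈ F`. Label true: clear. Label false: let `F ∈ 𝓣` and `ω` be consistent with `π ∪ P ∪ F`; `G_Gr` gives `F' ∈ 𝓣`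
with `und ρ π F' = rt (und ρ π F) Y ⊆ P` (`G_Nr` with `H = und ρ π F`), so all facts of `F'` are decided by `π ∪ P`, a contradiction.
USES: write `pr_OS (h1 : G_Gr) (h2 : G_Rv) (h3 : G_Nr) : G_OS` (and `prf_Graft`). -/
def G_OS : Prop := ∀ (k n w q : ℕ) (ρ : Res k n) (π : Finset (Fact k n))
  (𝓣 : Set (Finset (Fact k n))) (o : Finset (Fact k n) → ℕ),
  (∀ F ∈ 𝓣, F.card ≤ w ∧ ∀ f ∈ F, Valid f) → SB w π → (¬ ∃ Fs, Chain ρ π 𝓣 w q o Fs) →
  ∃ T, HLe (2 * w * q * (2 * w + 1) ^ 2) T ∧ OrSet ρ π 𝓣 T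

/-! ## 2. Exchange permutations -/

/-- [Sw] (EASY-MEDIUM) exchange permutations. (1) existence: as `prf_Swap` (B02) with a general index type: `τ x = g a` if `x = f a`, `a ∈ A`; `f a` if `x = g a`;
`x` otherwise (well defined by the hypotheses; an involution: `Function.Involutive.toPerm`). (2) uniqueness (`Equiv.ext`; every `x` is `f a`, `g a` or neither). (3) `τ * τ = 1`.
(4) `τ * τ'` for a union, where the two families of moved points are disjoint. (5) exchange permutations with disjoint families of moved points commute. -/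
def G_Sw : Prop := ∀ (n : ℕ),
  (∀ (ι : Type) (A : Set ι) (f g : ι → Lb n), (∀ a ∈ A, ∀ b ∈ A, f a = f b → a = b) →
    (∀ a ∈ A, ∀ b ∈ A, g a = g b → a = b) → (∀ a ∈ A, ∀ b ∈ A, f a ≠ g b) →
    IsSwp A f g (swp A f g)) ∧
  (∀ (ι : Type) (A : Set ι) (f g : ι → Lb n) (τ τ' : Equiv.Perm (Lb n)), IsSwp A f g τ →
    IsSwp A f g τ' → τ = τ') ∧
  (∀ (ι : Type) (A : Set ι) (f g : ι → Lb n) (τ : Equiv.Perm (Lb n)), IsSwp A f g τ →
    τ * τ = 1) ∧
  (∀ (ι : Type) (A B : Set ι) (f g : ι → Lb n) (τ τ' : Equiv.Perm (Lb n)), IsSwp A f g τ →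
    IsSwp B f g τ' → (∀ a ∈ A, ∀ b ∈ B, f a ≠ f b ∧ f a ≠ g b ∧ g a ≠ f b ∧ g a ≠ g b) →
    IsSwp (A ∪ B) f g (τ * τ')) ∧
  (∀ (ι κ : Type) (A : Set ι) (B : Set κ) (f g : ι → Lb n) (f' g' : κ → Lb n)
    (τ τ' : Equiv.Perm (Lb n)), IsSwp A f g τ → IsSwp B f' g' τ' →
    (∀ a ∈ A, ∀ b ∈ B, f a ≠ f' b ∧ f a ≠ g' b ∧ g a ≠ f' b ∧ g a ≠ g' b) →
    τ * τ' = τ' * τ)

/-! ## 3. The modified worlds

`D : CD ρ π 𝓣 w q o` is a chain with choices, `i` a choice of known sheets with `Inj ρ.I q i`. -/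

/-- [CD] (MEDIUM) choices exist. `grp` : `chain.mem` (third part of `Cls`). For `J` (`q * w` values): the indices `(ρ.β v).symm a` of the elements `(v, a)` touched by
`und ρ π (Fs j)`, `j < q`, are at most `2 w q`; together with `0` at most `2 w q + 1`; so `ρ.I` minus these has at least `w q` elements: an injection of `Fin q × Fin w`
(e.g. `Finset.exists_subset_card_eq` or an embedding `Fin (q * w) ↪ _`); for `j ≥ q` any value. `uu ρ π Fs j` is not empty for `j < q`: otherwise `und ρ π (Fs j) = al ρ π Fs j`, and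
`Fs j ∈ 𝓣` contradicts `chain.ne` (`al ⊆ und`); `f0 j` is one of its facts, `g0 j` a group which carries it. For `j ≥ q` arbitrary values: `w > 0` as `Fs 0` ... if
`q = 0` everything is arbitrary and `w ≥ 1` gives a value of `g0`; `f0` : any fact, e.g. `Fact.col (crn k) 0 true`. -/
def G_CD : Prop := ∀ (k n w q : ℕ) (ρ : Res k n) (π : Finset (Fact k n))
  (𝓣 : Set (Finset (Fact k n))) (o : Finset (Fact k n) → ℕ) (Fs : ℕ → Finset (Fact k n)), 1 ≤ w →
  (∀ F ∈ 𝓣, F.card ≤ w ∧ ∀ f ∈ F, Valid f) → Chain ρ π 𝓣 w q o Fs →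
  3 * w * q + 2 ≤ ρ.I.card → Nonempty (CD ρ π 𝓣 w q o)

/-- [Df] (MEDIUM) different groups have different elements and the new parts do not meet the earlier ones. Let `a, b < q`. (1) `G a g` and `G b g'` have different
labels at a common vertex if `(a, g) ≠ (b, g')`: for `a = b` this is `IsGrp.disj`. For `a < b` suppose that both have the element `(v, x)`. It is touched by a
fact of `uu .. a ⊆ und (F a)`, so it is in `YY .. b`, and by a fact `f` of `uu .. b`; then `f` touches `YY .. b`, so `f ∈ rt (und (F b)) (YY b) = al b`, a contradiction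
to `uu = und \ al`. (2) an element `(v, x)` of `YY .. j` or of a fact of `al .. j` is not an element of `G a g` for `j ≤ a < q`: the same argument (for `a = j` and a fact of `al j`:
the second constructor of `Conn`; for `a > j`: `al j ⊆ und (F j)`, so the element is in `YY .. a`). USES `G_Rt`: `pr_Df (h : G_Rt) : G_Df`. -/
def G_Df : Prop := ∀ (k n w q : ℕ) (ρ : Res k n) (π : Finset (Fact k n))
  (𝓣 : Set (Finset (Fact k n))) (o : Finset (Fact k n) → ℕ) (D : CD ρ π 𝓣 w q o),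
  (∀ a < q, ∀ b < q, ∀ g g' v, (a, g) ≠ (b, g') → v ∈ (D.G a g).supp → v ∈ (D.G b g').supp →
    (D.G a g).p v ≠ (D.G b g').p v) ∧
  ∀ j < q, ∀ p : Vx k × Lb n, (p ∈ YY ρ π D.F j ∨ ∃ f ∈ al ρ π D.F j, p ∈ touch f) →
    ∀ a, j ≤ a → a < q → ∀ g, p.1 ∈ (D.G a g).supp → (D.G a g).p p.1 ≠ p.2

/-- [Sp] (EASY-MEDIUM) `tau` and `sig` are exchange permutations. `G_Sw` (1). For `tau`: `D.J` is injective (`J_inj`); `D.ix v` is injective on `D.A j v` (`G_Df` (1), `ρ.β v` is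
injective); `D.J a.1 a.2 ≠ D.ix v b` (`J_av`: the element `(v, (G b).p v)` is touched by a fact of `uu ⊆ und`, `IsGrp.touched`). For `sig`: `i a ∉ ρ.I` and `D.J .. ∈ ρ.I`.
USES: `pr_Sp (h1 : G_Sw) (h2 : G_Df) : G_Sp`. -/
def G_Sp : Prop := ∀ (k n w q : ℕ) (ρ : Res k n) (π : Finset (Fact k n))
  (𝓣 : Set (Finset (Fact k n))) (o : Finset (Fact k n) → ℕ) (D : CD ρ π 𝓣 w q o)
  (i : ℕ → Lb n), Inj ρ.I q i → ∀ j,
  (∀ v, IsSwp (D.A j v) (fun a => D.J a.1 a.2) (D.ix v) (D.tau j v)) ∧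
  IsSwp {a : ℕ | j ≤ a ∧ a < q} (fun a => D.J a (D.g0 a)) i (D.sig i j) ∧
  (∀ v, ∀ a ∈ D.A j v, D.ix v a ∈ ρ.I ∧ ∀ b : ℕ × Fin w, b.1 < q → D.J b.1 b.2 ≠ D.ix v a) ∧
  (∀ a : ℕ × Fin w, j ≤ a.1 → a.1 < q → D.zt j (D.J a.1 a.2) = (D.G a.1 a.2).c) ∧
  ∀ x, (∀ a : ℕ × Fin w, j ≤ a.1 → a.1 < q → D.J a.1 a.2 ≠ x) → D.zt j x = ρ.ζ x

/-- [Lb] (MEDIUM) the labels and colours of the modified world, computed from `bet j v x = ρ.β v (tau j v (sig i j x))`, `zet i j x = zt j (sig i j x)` and `G_Sp`.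
(1) a known sheet which is not one of the `i a`: `sig`, `tau` fix `x` (`x ∉ ρ.I`, but `J`, `ix ∈ ρ.I`). (2) the old sheet `i a` is now `J a (g0 a)`.
(3) the sheet of the group `(a, g)`: `sig (iy a) = J a g` (for `g ≠ g0 a` the index `J a g` is different from all `J b (g0 b)` and from all `i b`), then
`tau j v (J a g) = ix v (a, g)` if `v` is in the support, else `J a g` (it is not one of the `ix v b`). (4) an unknown index which is not moved.
USES: `pr_Lb (h : G_Sp) : G_Lb`. -/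
def G_Lb : Prop := ∀ (k n w q : ℕ) (ρ : Res k n) (π : Finset (Fact k n))
  (𝓣 : Set (Finset (Fact k n))) (o : Finset (Fact k n) → ℕ) (D : CD ρ π 𝓣 w q o)
  (i : ℕ → Lb n), Inj ρ.I q i → ∀ j,
  (∀ x, x ∉ ρ.I → (∀ a, j ≤ a → a < q → i a ≠ x) →
    x ∉ D.Un j ∧ (∀ v, D.bet i j v x = ρ.β v x) ∧ D.zet i j x = ρ.ζ x) ∧
  (∀ a, j ≤ a → a < q → D.J a (D.g0 a) ∉ D.Un j ∧
    (∀ v, D.bet i j v (D.J a (D.g0 a)) = ρ.β v (i a)) ∧ D.zet i j (D.J a (D.g0 a)) = ρ.ζ (i a)) ∧
  (∀ a : ℕ × Fin w, j ≤ a.1 → a.1 < q → D.iy i a ∉ D.Un j ∧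
    (∀ v, D.bet i j v (D.iy i a) = D.lab a v) ∧ D.zet i j (D.iy i a) = (D.G a.1 a.2).c) ∧
  (∀ v, ∀ x ∈ D.Un j, (∀ a ∈ D.A j v, D.ix v a ≠ x) → D.bet i j v x = ρ.β v x) ∧
  (∀ x ∈ D.Un j, D.zet i j x = ρ.ζ x)

/-- [K1] (EASY-MEDIUM) known sheets. (1) a fact true on a known sheet stays true on a known sheet: the sheet `y ∉ ρ.I` is `y` or, if `y = i a` with `a ≥ j`, `J a (g0 a)`
(`G_Lb` (1), (2)). (2) a fact on the sheet of a group is true on a known sheet (`G_Lb` (3)). (3) a fact of a group `G a g`: `lab` is `p` on the support.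
(4) conversely, let `STr` hold with the index `y ∉ Un j`. If `y ∉ ρ.I` and `y = i a`, `a ≥ j`: it is the sheet of the group `(a, g0 a)`; if `y ∉ ρ.I` is not one of them:
`SetTrue ρ f`. If `y ∈ ρ.I`, then `y = J a g` for some `j ≤ a < q`: for `g = g0 a` the labels are those of the old sheet `i a ∉ ρ.I`, so `SetTrue ρ f`; for
`g ≠ g0 a` it is the sheet of the group `(a, g)`. USES `G_Lb`: `pr_K1 (h : G_Lb) : G_K1`. -/
def G_K1 : Prop := ∀ (k n w q : ℕ) (ρ : Res k n) (π : Finset (Fact k n))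
  (𝓣 : Set (Finset (Fact k n))) (o : Finset (Fact k n) → ℕ) (D : CD ρ π 𝓣 w q o)
  (i : ℕ → Lb n), Inj ρ.I q i → ∀ j (f : Fact k n),
  (SetTrue ρ f → STr (D.bet i j) (D.zet i j) (D.Un j) f) ∧
  (∀ a : ℕ × Fin w, j ≤ a.1 → a.1 < q → OnS (D.lab a) (D.G a.1 a.2).c f →
    STr (D.bet i j) (D.zet i j) (D.Un j) f) ∧
  (∀ a : ℕ × Fin w, Carries (D.G a.1 a.2) f → OnS (D.lab a) (D.G a.1 a.2).c f) ∧
  (STr (D.bet i j) (D.zet i j) (D.Un j) f → SetTrue ρ f ∨
    ∃ a : ℕ × Fin w, j ≤ a.1 ∧ a.1 < q ∧ OnS (D.lab a) (D.G a.1 a.2).c f)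

/-- [K2] (MEDIUM) elements which are not moved, and elements of the modified sheets. (1) for an element `p` of `YY j` or of a fact of `al j`: its index `x` in `ρ` is in `ρ.I`
(`Live` of the undecided parts, `chain.mem`), it is not one of the `J` (`J_av`), so `x ∈ Un j`, and it is not one of the `ix` (`G_Df` (2)); so `bet j` has the same label
there (`G_Lb` (4)). (2) an element `(v, lab a v)` has in `ρ` the index `ix v a ∈ ρ.I` or `J a.1 a.2 ∈ ρ.I`, and in the modified world the index `iy a ∉ Un j`. (3) at the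
corner the label of the sheet is not `0` (`IsGrp.corner`; `ρ.β crn 0 = 0` and `J ≠ 0`). (4) different sheets have different labels (`bet j v` is injective and the indices
`iy a` are different: `i` injective, `i a ∉ ρ.I`, `J` injective). USES: `pr_K2 (h1 : G_Df) (h2 : G_Lb) : G_K2`. -/
def G_K2 : Prop := ∀ (k n w q : ℕ) (ρ : Res k n) (π : Finset (Fact k n))
  (𝓣 : Set (Finset (Fact k n))) (o : Finset (Fact k n) → ℕ) (D : CD ρ π 𝓣 w q o)
  (i : ℕ → Lb n), Inj ρ.I q i → ∀ j < q,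
  (∀ p : Vx k × Lb n, (p ∈ YY ρ π D.F j ∨ ∃ f ∈ al ρ π D.F j, p ∈ touch f) →
    (ρ.β p.1).symm p.2 ∈ D.Un j ∧ (D.bet i j p.1).symm p.2 = (ρ.β p.1).symm p.2) ∧
  (∀ a : ℕ × Fin w, j ≤ a.1 → a.1 < q → (∀ v, (ρ.β v).symm (D.lab a v) ∈ ρ.I ∧
    (D.bet i j v).symm (D.lab a v) ∉ D.Un j) ∧ D.lab a (crn k) ≠ 0 ∧ D.lab a (crn k) ≠ 1) ∧
  ∀ a b : ℕ × Fin w, j ≤ a.1 → a.1 < q → j ≤ b.1 → b.1 < q → a ≠ b → ∀ v, D.lab a v ≠ D.lab b v

/-- [K3] (MEDIUM) a term with the right undecided part in the modified world is in the class. Let `unK F = al j`; here `U = und ρ π F \ al j`. By `G_K1` (1) `unK F ⊆ und ρ π F`.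
A fact `f ∈ U` is in `F`, not decided in `ρ`, but decided in the modified world, so `f ∉ π` and by `G_K1` (4) it is on the sheet of some group `a = c f`, `j ≤ a.1 < q`. The elements of
`f` are `(v, lab a v)`. `Live`: for `f ∈ U` by `G_K2` (2), for `f ∈ al j ⊆ und ρ π (D.F j)` by `chain.mem`. `rt (und ρ π F) (YY j) = al j` by `G_Rt` (5): the
facts of `al j` are connected with `YY j` inside `al j` (`G_Rt` (3)), and a fact of `U` touches neither `YY j` nor a fact of `al j`, because its elements have an index `∉ Un j`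
in the modified world and the others an index `∈ Un j` (`G_K2`). Groups: there are at most `|U| ≤ |F| ≤ w` pairs `a = c f`; take an injective numbering by `Fin w`, the
support of the group of `a` is the set of the `v` such that `(v, lab a v)` is touched by a fact of `U` (at most `2 |U|` vertices), `p = lab a`, colour `(G a).c`; empty
support for the other numbers. `IsGrp`: `idx` by `G_K2` (2), `corner` by `G_K2` (2), `disj` by `G_K2` (3), `carries`: `OnS`, `touched`: by definition.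
USES: `pr_K3 (h1 : G_Rt) (h2 : G_K1) (h3 : G_K2) : G_K3`. -/
def G_K3 : Prop := ∀ (k n w q : ℕ) (ρ : Res k n) (π : Finset (Fact k n))
  (𝓣 : Set (Finset (Fact k n))) (o : Finset (Fact k n) → ℕ) (D : CD ρ π 𝓣 w q o)
  (i : ℕ → Lb n), (∀ F ∈ 𝓣, F.card ≤ w ∧ ∀ f ∈ F, Valid f) → Inj ρ.I q i → ∀ j < q, ∀ F ∈ 𝓣,
  unK (D.bet i j) (D.zet i j) (D.Un j) π F = al ρ π D.F j →
  F ∈ Cls ρ π 𝓣 w (YY ρ π D.F j) (al ρ π D.F j)

/-- [K4] (EASY-MEDIUM) the term `F j` is the first one with undecided part `al j` in the modified world, and the index of the first element of `f0 j` is `i j`. (1) decided facts stay decided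
(`G_K1` (1)); a fact of `uu j` is on a group (`IsGrp.carries`), so decided (`G_K1` (2), (3)); a fact of `al j` is not in `π` (it is in `und`) and not true on a known
sheet, as its elements have an index in `Un j` (`G_K2` (1); `STr` with index `y ∉ Un j` means that `y` is the index of its elements). (2) `G_K3` and `chain.min`.
(3) `f0 j` is carried by `G j (g0 j)`, so its first element is `(v, p v) = (v, lab (j, g0 j) v)`, with index `iy (j, g0 j) = i j` (`G_Lb` (3)).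
USES: `pr_K4 (h1 : G_K1) (h2 : G_K2) (h3 : G_K3) (h4 : G_Lb) : G_K4`. -/
def G_K4 : Prop := ∀ (k n w q : ℕ) (ρ : Res k n) (π : Finset (Fact k n))
  (𝓣 : Set (Finset (Fact k n))) (o : Finset (Fact k n) → ℕ) (D : CD ρ π 𝓣 w q o)
  (i : ℕ → Lb n), (∀ F ∈ 𝓣, F.card ≤ w ∧ ∀ f ∈ F, Valid f) → Inj ρ.I q i → ∀ j < q,
  unK (D.bet i j) (D.zet i j) (D.Un j) π (D.F j) = al ρ π D.F j ∧
  (∀ F ∈ 𝓣, unK (D.bet i j) (D.zet i j) (D.Un j) π F = al ρ π D.F j → o (D.F j) ≤ o F) ∧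
  (D.bet i j (fst1 (D.f0 j)).1).symm (fst1 (D.f0 j)).2 = i j

/-- [K5] (MEDIUM) one step. (1) `tau j v = tau (j+1) v * τ₁` where `τ₁` exchanges `J j g` and `ix v (j, g)` for `v` in the support of `G j g` (`G_Sw` (4), (2): `A j v` is the
union of `A (j+1) v` and the pairs `(j, g)`; an exchange permutation over the pairs `(j, g)` is one over `g`), `sig j = sig (j+1) * swap (J j (g0 j)) (i j)`, and `sig (j+1)` commutes with `τ₁`
(`G_Sw` (5): `J a (g0 a)`, `i a` for `a > j` on one side, `J j g`, `ix v (j, g)` on the other). (2) the colours: with `s = swap (J j (g0 j)) (i j)`: `zet j x = zt j (sig (j+1) (s x))`.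
For `x ≠ i j` and `x` different from all `J j g`: `s x = x`, `y = sig (j+1) x` is not one of the `J j g` (`sig (j+1)` moves only `J a (g0 a)` and `i a`, `a > j`), so
`zt j y = zt (j+1) y`. For `x = i j`: `zet (j+1) (i j) = zt (j+1) (i j) = ρ.ζ (i j) = zt j (i j) = zet j (J j (g0 j))`. For `x = J j g`: `zet (j+1) x = ρ.ζ x` (`sig (j+1)` fixes it, and it
is not one of the `J a g'`, `a > j`). (3) `j = q`: nothing is moved (`A q v` is empty). USES: `pr_K5 (h1 : G_Sw) (h2 : G_Sp) : G_K5`. -/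
def G_K5 : Prop := ∀ (k n w q : ℕ) (ρ : Res k n) (π : Finset (Fact k n))
  (𝓣 : Set (Finset (Fact k n))) (o : Finset (Fact k n) → ℕ) (D : CD ρ π 𝓣 w q o)
  (i : ℕ → Lb n), Inj ρ.I q i →
  (∀ j < q, ∀ v, D.bet i j v = D.bet i (j + 1) v *
    swp {g : Fin w | v ∈ (D.G j g).supp} (fun g => D.J j g) (fun g => D.ix v (j, g)) *
    Equiv.swap (D.J j (D.g0 j)) (i j)) ∧
  (∀ j < q, D.zet i (j + 1) (i j) = D.zet i j (D.J j (D.g0 j)) ∧
    (∀ g, D.zet i (j + 1) (D.J j g) = ρ.ζ (D.J j g)) ∧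
    ∀ x, x ≠ i j → (∀ g, x ≠ D.J j g) → D.zet i (j + 1) x = D.zet i j x) ∧
  (∀ v, D.bet i q v = ρ.β v) ∧ D.zet i q = ρ.ζ

/-- [K6] (EASY-MEDIUM) the modified world extends the first restriction: for `x ∉ ρ0.I` we have `x ∉ ρ.I` and `x ≠ i a` (`G_Lb` (1)); at the corner: `0 ∈ Un 0` (`J ≠ 0`), `0` is not one of the `ix (crn k) a`
(`ρ.β (crn k) 0 = 0`, `IsGrp.corner`), so `bet 0 (crn k) 0 = ρ.β (crn k) 0 = 0` (`G_Lb` (4)). USES: `pr_K6 (h : G_Lb) : G_K6`. -/
def G_K6 : Prop := ∀ (k n w q : ℕ) (ρ ρ0 : Res k n) (π : Finset (Fact k n))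
  (𝓣 : Set (Finset (Fact k n))) (o : Finset (Fact k n) → ℕ) (D : CD ρ π 𝓣 w q o)
  (i : ℕ → Lb n), Inj ρ.I q i → (ρ.β, ρ.ζ) ∈ Om ρ0 → ρ.I ⊆ ρ0.I → (∀ a < q, i a ∈ ρ0.I) →
  (D.bet i 0, D.zet i 0) ∈ Om ρ0

/-- [Cd] (MEDIUM) codes exist. `A`: `al j ⊆ D.F j` has at most `w` facts; number them by `Fin w` (`Option`, e.g. through `Finset.toList`); for an edge fact `(v, u, a, b)` take
`((v, x), (u, y)), (true, false)` with `x`, `y` the indices of the elements in `ρ`, they are in `ρ.I` and `bet j v x = a`, `bet j u y = b` (`G_K2` (1)); for a colour fact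
`((v, x), (v, x)), (false, c)`. `J` : `J_mem`. `S`: for each `g` the support of `G j g` has at most `2 w` vertices; number them by `Fin (2 w)`, the index is
`ix v (j, g) ∈ ρ.I` (`IsGrp.idx`). `pos`: `f0 j ∈ D.F j` and `D.F j` has at most `w` elements (`List.getElem?_of_mem`, `Finset.length_toList`).
USES: `pr_Cd (h : G_K2) : G_Cd`. -/
def G_Cd : Prop := ∀ (k n w q : ℕ) (ρ : Res k n) (π : Finset (Fact k n))
  (𝓣 : Set (Finset (Fact k n))) (o : Finset (Fact k n) → ℕ) (D : CD ρ π 𝓣 w q o)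
  (i : ℕ → Lb n), (∀ F ∈ 𝓣, F.card ≤ w ∧ ∀ f ∈ F, Valid f) → Inj ρ.I q i → ∀ j < q,
  ∃ c : Code k n w ρ.I, IsCode D i j c

/-- [Dc] (MEDIUM) decoding. By induction on `j ≤ q`: `bet i j = bet i' j`, `zet i j = zet i' j`, and `i a = i' a` for `a < j`. For `j = 0` this is the hypothesis. Step, `j < q`, with the common
code `c` of the step `j`: `al j` is the same set (`IsCode.A`, `dF` depends only on `bet j`); the sets `Un j` are equal (they depend on `ρ.I = ρ'.I` and the `J a g`, `a ≥ j`, which are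
given by the codes); so `F j = F' j`: both are in `𝓣` with `unK = al j` and least value of `o` (`G_K4`, `o` injective). `f0 j = f0' j` (`IsCode.pos`). `i j = i' j`
(`G_K4` (3)). `J j`, `g0 j` are the same, and so is the set of the triples `(g, v, ix v (j, g))`, `v` in the support of `G j g` (`IsCode.S`; the indices are in `ρ.I`): so `swp` in `G_K5` (1) is the same
permutation (for every `v` the sets `{g | v ∈ supp}` are equal and the two functions agree on them: `IsSwp` for one is `IsSwp` for the other, uniqueness `G_Sw` (2),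
existence `G_Sw` (1) or `G_Sp`), so `bet (j+1)` is the same (cancel in the group), and `zet (j+1)` by `G_K5` (2) (`IsCode.col`). For `j = q`: `G_K5` (3).
USES: `pr_Dc (h1 : G_Sw) (h2 : G_Sp) (h3 : G_K4) (h4 : G_K5) : G_Dc`. -/
def G_Dc : Prop := ∀ (k n w q : ℕ) (I1 : Finset (Lb n)) (ρ ρ' : Res k n) (π : Finset (Fact k n))
  (𝓣 : Set (Finset (Fact k n))) (o : Finset (Fact k n) → ℕ) (D : CD ρ π 𝓣 w q o)
  (D' : CD ρ' π 𝓣 w q o) (i i' : ℕ → Lb n) (c : ℕ → Code k n w I1),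
  (∀ F ∈ 𝓣, F.card ≤ w ∧ ∀ f ∈ F, Valid f) → Function.Injective o →
  ρ.I = I1 → ρ'.I = I1 → Inj I1 q i → Inj I1 q i' →
  (∀ j < q, IsCode D i j (c j)) → (∀ j < q, IsCode D' i' j (c j)) →
  D.bet i 0 = D'.bet i' 0 → D.zet i 0 = D'.zet i' 0 →
  ρ.β = ρ'.β ∧ ρ.ζ = ρ'.ζ ∧ ∀ a < q, i a = i' a

/-- [Cc] (EASY-MEDIUM) the number of codes. `Code` is equivalent to a product; with `M = |Vx k| |I1| ≤ m²` (`|Vx k| = (k+1)² ≤ m`): `(4 M² + 1)^w * m^w * 2^w * (M + 1)^(2 w²) * w * w`;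
`4 m⁴ + 1 ≤ m⁵`, `m² + 1 ≤ m³`, `2 ≤ m`, `w ≤ m`: at most `m^(5w + w + w + 6w² + 2) ≤ m^(16 w²)`. -/
def G_Cc : Prop := ∀ (k n w m : ℕ) (I1 : Finset (Lb n)), 1 ≤ w → 100 * w ≤ m → (k + 1) ^ 2 ≤ m →
  I1.card = m → ∃ _ : Fintype (Code k n w I1), Fintype.card (Code k n w I1) ≤ m ^ (16 * w ^ 2)

open Classical in
/-- [Ct] (MEDIUM) counting the bad extensions. Let `S = (ρ.I \ I1)`, `E` the set of the injective maps `Fin q → S`, `N = |ρ.I|`. For every bad `ω ∈ Om ρ` choose `ρ1` and a chain, `CD` (`G_CD`), and for every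
`e ∈ E` (with `i a = e a` for `a < q`) codes for all steps `j < q` (`G_Cd`). The map `(ω, e) ↦ ((bet i 0, zet i 0), codes)` into `Om ρ × (Fin q → Code)` (`G_K6`) is injective (`G_Dc`). So
`|Bad| |E| ≤ |Om ρ| |Code|^q`, `|E| = (N - m).descFactorial q ≥ (N - m - q)^q` (`Nat.pow_sub_le_descFactorial`), `N ≤ 2 (N - m - q)`; so
`|Bad| N^q ≤ 2^q |Bad| |E| ≤ |Om ρ| 2^q m^(16 w² q) ≤ |Om ρ| m^(17 w² q)` (`G_Cc`). `3 w q + 1 ≤ m` by the hypothesis. For `q = 0` the same.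
USES: `pr_Ct (h1 : G_CD) (h2 : G_Cd) (h3 : G_Dc) (h4 : G_Cc) (h5 : G_K6) : G_Ct`. -/
def G_Ct : Prop := ∀ (k n w q m : ℕ) (ρ : Res k n) (I1 : Finset (Lb n)) (π : Finset (Fact k n))
  (𝓣 : Set (Finset (Fact k n))) (o : Finset (Fact k n) → ℕ), Function.Injective o → 1 ≤ w →
  (∀ F ∈ 𝓣, F.card ≤ w ∧ ∀ f ∈ F, Valid f) → I1 ⊆ ρ.I → 0 ∈ I1 → 1 ∈ I1 → I1.card = m →
  100 * w * (q + 1) ≤ m → (k + 1) ^ 2 ≤ m → 2 * (m + q) ≤ ρ.I.card →
  ((Om ρ).filter (BadC I1 π 𝓣 w q o)).card * ρ.I.card ^ q ≤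
    (Om ρ).card * m ^ (17 * w ^ 2 * q)

/-- [Ht] (MEDIUM) the hitting lemma; compare `prf_Hit` (B02). `q = 2 B + 1`. Take `I1 ⊆ ρ.I` with `0 ∈ I1`, `|I1| = m` (`Finset.exists_subsuperset_card_eq`). By `G_Ct` for every task `t` the number
of bad extensions is at most `|Om ρ| m^(17 w² q) / |ρ.I|^q`; the sum over at most `|ρ.I|^B` tasks is less than `|Om ρ|`, because `m^(17 w² q) < |ρ.I|^(q - B)`:
`|ρ.I|^(B+1) ≥ m^(40 w² (B+1)) > m^(17 w² (2B+1))` (`m ≥ 2`, `40 (B+1) > 17 (2B+1)`). `Om ρ` is not empty (`(ρ.β, ρ.ζ)`). An extension `ω` which is not bad for any task gives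
`ρ' = (ω, I1)`. Numbering `o`: `Finset (Fact k n)` is countable, see the hypothesis. `2 (m + q) ≤ |ρ.I|` : `m² ≥ 100 m ≥ 2 m + 2 q`. USES: `pr_Ht (h : G_Ct) : G_Ht`. -/
def G_Ht : Prop := ∀ (k n m w B : ℕ) (ρ : Res k n) (o : Finset (Fact k n) → ℕ) (ι : Type)
  [Fintype ι] (π : ι → Finset (Fact k n)) (𝓣 : ι → Set (Finset (Fact k n))),
  Function.Injective o → 1 ≤ w → 1 ≤ B → 100 * w * (2 * B + 2) ≤ m → (k + 1) ^ 2 ≤ m →
  m ^ (40 * w ^ 2) ≤ ρ.I.card → Fintype.card ι ≤ ρ.I.card ^ B →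
  (∀ i, ∀ F ∈ 𝓣 i, F.card ≤ w ∧ ∀ f ∈ F, Valid f) →
  ∃ ρ' : Res k n, ρ'.Le ρ ∧ ρ'.I.card = m ∧
    ∀ i, ¬ ∃ Fs, Chain ρ' (π i) (𝓣 i) w (2 * B + 1) o Fs

/-- [OR] (MEDIUM) the OR lemma; compare `prf_OR` (B02), which is the same argument with `S_Round` in place of `G_Ht` and `G_OS`. `r = w' = 9 w`. `S_Ball` gives a tree `Q` of height
`(9 w + 1)² ≤ 100 w²` whose branches `F₀` satisfy `SB (9 w) F₀`; by `S_BrCount` it has at most `(2 (n+1)⁴)^(100 w²) ≤ (n+1)^(500 w²) ≤ |ρ.I|^(500 B w²)` branches (`n + 1 ≥ |ρ.I| ≥ 2`). Tasks: the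
pairs (`i`, branch `F₀` in the finite set of `S_BrCount` with `SB (9 w) F₀`), `π = F₀`, `𝓣 = {F' | ∃ x ≤ M i, Br (Tx i x) F' true}` (at most `9 w` valid facts, `pf_BrBasic`); at most
`|ρ.I|^(B + 500 B w²) ≤ |ρ.I|^B'` with `B' = 501 B w²`. `G_Ht` with `9 w`, `B'`: `100 * 9w * (2 B' + 2) ≤ 10^6 B w³ ≤ m`, `m^(40 * 81 w²) ≤ m^(4000 w²) ≤ |ρ.I|`. `G_OS` with `q = 2 B' + 1 ≤ 1003 B w²` gives
trees of height `2 * 9w * q * (18 w + 1)² ≤ 18 * 1003 * 361 * B w⁵`, grafted on `Q` (`S_Graft`): height at most `10^7 B w⁵`. The numbering `o` exists as `Fact k n` is a finite type or countable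
(`Countable`, `exists_injective_nat`; e.g. an injection of `Fact k n` into a product of `Fin`s, `Finset.encodable`/`Finset.countable`). `OrRep` from `OrSet` as in `prf_OR`.
USES: `pr_OR' (h1 : G_Ht) (h2 : G_OS) : G_OR`. -/
def G_OR : Prop := ∀ (k n m w B : ℕ) (ρ : Res k n) (ι : Type) [Fintype ι] (M : ι → ℕ)
  (Tx : ι → ℕ → Tree k n), 1 ≤ w → 1 ≤ B → 10 ^ 7 * B * w ^ 3 ≤ m → (k + 1) ^ 2 ≤ m →
  m ^ (4000 * w ^ 2) ≤ ρ.I.card → n + 1 ≤ ρ.I.card ^ B → Fintype.card ι ≤ ρ.I.card ^ B →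
  (∀ i x, x ≤ M i → HLe w (Tx i x)) →
  ∃ ρ' : Res k n, ρ'.Le ρ ∧ ρ'.I.card = m ∧
    ∀ i, ∃ T, OrRep ρ' (10 ^ 8 * B * w ^ 5) (M i) (Tx i) T

end Pool.Agent.Work.MP_610017_lc.PP
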