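import Pool.Agent.Work.MP_610017_lc.GP.StmtsA

set_option autoImplicit false

namespace Pool.Agent.Work.MP_610017_lc.PP

namespace IDf

variable {k n w q : ℕ} {ρ : Res k n} {π : Finset (Fact k n)} {𝓣 : Set (Finset (Fact k n))}
  {o : Finset (Fact k n) → ℕ}

/-- elements of the undecided part of an earlier term are in `YY` -/
theorem mem_YY (F : ℕ → Finset (Fact k n)) {i j : ℕ} (h : i < j) {f : Fact k n}
    (hf : f ∈ und ρ π (F i)) {p : Vx k × Lb n} (hp : p ∈ touch f) : p ∈ YY ρ π F j := by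
  unfold YY
  rw [Finset.mem_biUnion]
  refine ⟨i, Finset.mem_range.2 h, ?_⟩
  rw [Finset.mem_biUnion]
  exact ⟨f, hf, hp⟩

theorem YY_mono (F : ℕ → Finset (Fact k n)) {i j : ℕ} (h : i ≤ j) {p : Vx k × Lb n}
    (hp : p ∈ YY ρ π F i) : p ∈ YY ρ π F j := by
  unfold YY at hp ⊢
  rw [Finset.mem_biUnion] at hp ⊢
  obtain ⟨a, ha, h2⟩ := hp
  exact ⟨a, Finset.mem_range.2 (lt_of_lt_of_le (Finset.mem_range.1 ha) h), h2⟩

theorem notDisj {A B : Finset (Vx k × Lb n)} {p : Vx k × Lb n} (h1 : p ∈ A) (h2 : p ∈ B) :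
    ¬ Disjoint A B := fun h => Finset.disjoint_left.1 h h1 h2

/-- a fact of the new part of a term does not touch the elements of the earlier terms -/
theorem not_YY (hR : G_Rt) (F : ℕ → Finset (Fact k n)) {j : ℕ} {f : Fact k n}
    (hf : f ∈ uu ρ π F j) {p : Vx k × Lb n} (hp : p ∈ touch f) : p ∉ YY ρ π F j := by
  intro h
  unfold uu at hf
  rw [Finset.mem_sdiff] at hf
  exact hf.2 ((hR k n (und ρ π (F j)) (YY ρ π F j)).2.1 f hf.1 (Or.inl (notDisj hp h)))

/-- a fact of the new part of a term does not touch the facts of the connected part -/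
theorem not_al (hR : G_Rt) (F : ℕ → Finset (Fact k n)) {j : ℕ} {f g : Fact k n}
    (hf : f ∈ uu ρ π F j) (hg : g ∈ al ρ π F j) {p : Vx k × Lb n} (hp : p ∈ touch f) :
    p ∉ touch g := by
  intro h
  unfold uu at hf
  rw [Finset.mem_sdiff] at hf
  exact hf.2 ((hR k n (und ρ π (F j)) (YY ρ π F j)).2.1 f hf.1 (Or.inr ⟨g, hg, notDisj hp h⟩))

theorem al_sub (hR : G_Rt) (F : ℕ → Finset (Fact k n)) {j : ℕ} {g : Fact k n}
    (hg : g ∈ al ρ π F j) : g ∈ und ρ π (F j) :=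
  (hR k n (und ρ π (F j)) (YY ρ π F j)).1 hg

theorem uu_sub (F : ℕ → Finset (Fact k n)) {j : ℕ} {g : Fact k n}
    (hg : g ∈ uu ρ π F j) : g ∈ und ρ π (F j) := by
  unfold uu at hg
  exact (Finset.mem_sdiff.1 hg).1

theorem diff_lt (hR : G_Rt) (D : CD ρ π 𝓣 w q o) {a b : ℕ} (hb : b < q) (hab : a < b)
    (g g' : Fin w) (v : Vx k) (hv : v ∈ (D.G a g).supp) (hv' : v ∈ (D.G b g').supp) :
    (D.G a g).p v ≠ (D.G b g').p v := by
  intro he
  obtain ⟨f, hf, hp⟩ := (D.grp a (lt_trans hab hb)).touched g v hv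
  obtain ⟨f', hf', hp'⟩ := (D.grp b hb).touched g' v hv'
  rw [← he] at hp'
  exact not_YY hR D.F hf' hp' (mem_YY D.F hab (uu_sub D.F hf) hp)

end IDf

theorem pr_Df (h : G_Rt) : G_Df := by
  intro k n w q ρ π 𝓣 o D
  refine ⟨?_, ?_⟩
  · intro a ha b hb g g' v hne hv hv'
    rcases lt_trichotomy a b with hab | hab | hab
    · exact IDf.diff_lt h D hb hab g g' v hv hv'
    · subst hab
      exact (D.grp a ha).disj g g' (fun e => hne (by rw [e])) v hv hv'
    · exact (IDf.diff_lt h D ha hab g' g v hv' hv).symm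
  · intro j _ p hp a hja ha g hv he
    obtain ⟨f', hf', hp'⟩ := (D.grp a ha).touched g p.1 hv
    rw [he] at hp'
    have hp'' : p ∈ touch f' := hp'
    rcases hp with hp | ⟨f, hf, hpf⟩
    · exact IDf.not_YY h D.F hf' hp'' (IDf.YY_mono D.F hja hp)
    · rcases Nat.eq_or_lt_of_le hja with e | hlt
      · subst e
        exact IDf.not_al h D.F hf' hf hp'' hpf
      · exact IDf.not_YY h D.F hf' hp'' (IDf.mem_YY D.F hlt (IDf.al_sub h D.F hf) hpf)

end Pool.Agent.Work.MP_610017_lc.PP
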