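import Mathlib
import Pool.Agent.Work.MP_610017_lc.GP.StmtsA

/-!
# Item Gr of block GG: a maximal chain (helper50)
-/

set_option autoImplicit false

namespace Pool.Agent.Work.MP_610017_lc.PP

namespace IGr

lemma YY_congr {k n : ℕ} (ρ : Res k n) (π : Finset (Fact k n)) (Fs Gs : ℕ → Finset (Fact k n))
    (j : ℕ) (h : ∀ i < j, Fs i = Gs i) : YY ρ π Fs j = YY ρ π Gs j := by
  classical
  unfold YY
  refine Finset.biUnion_congr rfl ?_
  intro i hi
  rw [h i (Finset.mem_range.1 hi)]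

lemma al_congr {k n : ℕ} (ρ : Res k n) (π : Finset (Fact k n)) (Fs Gs : ℕ → Finset (Fact k n))
    (j : ℕ) (h : ∀ i ≤ j, Fs i = Gs i) : al ρ π Fs j = al ρ π Gs j := by
  unfold al
  rw [YY_congr ρ π Fs Gs j (fun i hi => h i hi.le), h j le_rfl]

lemma YY_card {k n : ℕ} (ρ : Res k n) (π : Finset (Fact k n)) (Fs : ℕ → Finset (Fact k n))
    (w j : ℕ) (hc : ∀ i < j, (Fs i).card ≤ w) (ht : ∀ f : Fact k n, (touch f).card ≤ 2) :
    (YY ρ π Fs j).card ≤ 2 * w * j := by
  classical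
  unfold YY
  have h1 : ∀ i ∈ Finset.range j, ((und ρ π (Fs i)).biUnion touch).card ≤ 2 * w := by
    intro i hi
    have h2 : ((und ρ π (Fs i)).biUnion touch).card ≤ (und ρ π (Fs i)).card * 2 :=
      Finset.card_biUnion_le_card_mul _ _ _ (fun f _ => ht f)
    have h3 : (und ρ π (Fs i)).card ≤ (Fs i).card := by
      unfold und
      exact Finset.card_filter_le _ _
    have h4 := hc i (Finset.mem_range.1 hi)
    omega
  have h5 := Finset.card_biUnion_le_card_mul (Finset.range j)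
    (fun i => (und ρ π (Fs i)).biUnion touch) (2 * w) h1
  rw [Finset.card_range] at h5
  calc _ ≤ j * (2 * w) := h5
    _ = 2 * w * j := Nat.mul_comm _ _

end IGr

open IGr in
theorem pr_Gr (h : G_CA) (h' : G_Rt) : G_Gr := by
  classical
  intro k n w q ρ π 𝓣 o hT hSB hno
  have ht : ∀ f : Fact k n, (touch f).card ≤ 2 := fun f =>
    ((h' k n ∅ ∅).2.2.2.2.2 f).2
  have hex : ∃ r, ¬ ∃ Fs, Chain ρ π 𝓣 w r o Fs := ⟨q, hno⟩
  have h0 : ∃ Fs, Chain ρ π 𝓣 w 0 o Fs :=
    ⟨fun _ => ∅, ⟨fun j hj => absurd hj (Nat.not_lt_zero j), fun j hj => absurd hj (Nat.not_lt_zero j),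
      fun j hj => absurd hj (Nat.not_lt_zero j)⟩⟩
  obtain ⟨r, hr⟩ : ∃ r, Nat.find hex = r + 1 := by
    rcases Nat.eq_zero_or_pos (Nat.find hex) with h1 | h1
    · exfalso
      have h2 := Nat.find_spec hex
      rw [h1] at h2
      exact h2 h0
    · exact ⟨Nat.find hex - 1, by omega⟩
  have hrq : r + 1 ≤ q := by
    have := Nat.find_min' hex hno
    omega
  have hr1 : ¬ ∃ Fs, Chain ρ π 𝓣 w (r + 1) o Fs := by
    have h2 := Nat.find_spec hex
    rw [hr] at h2
    exact h2
  obtain ⟨Fs, hFs⟩ : ∃ Fs, Chain ρ π 𝓣 w r o Fs := by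
    by_contra hcon
    have := Nat.find_min' hex hcon
    omega
  refine ⟨YY ρ π Fs r, ?_, ?_⟩
  · have h1 := YY_card ρ π Fs w r (fun i hi => (hT _ (hFs.mem i hi).1).1) ht
    exact h1.trans (Nat.mul_le_mul_left _ (by omega))
  · intro F hF hCon
    by_contra hnone
    push Not at hnone
    obtain ⟨hLive, hG⟩ := h k n w ρ π F (YY ρ π Fs r) (hT F hF).2 (hT F hF).1 hSB hCon
    set α := rt (und ρ π F) (YY ρ π Fs r) with hα
    have hmem : F ∈ Cls ρ π 𝓣 w (YY ρ π Fs r) α := ⟨hF, hLive, hG, rfl⟩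
    -- the member with the least value
    obtain ⟨F1, hF1, hmin⟩ : ∃ F1 ∈ Cls ρ π 𝓣 w (YY ρ π Fs r) α,
        ∀ F2 ∈ Cls ρ π 𝓣 w (YY ρ π Fs r) α, o F1 ≤ o F2 := by
      have hex2 : ∃ m, ∃ F2 ∈ Cls ρ π 𝓣 w (YY ρ π Fs r) α, o F2 = m := ⟨o F, F, hmem, rfl⟩
      obtain ⟨F1, hF1, ho1⟩ := Nat.find_spec hex2
      refine ⟨F1, hF1, fun F2 hF2 => ?_⟩
      rw [ho1]
      exact Nat.find_min' hex2 ⟨F2, hF2, rfl⟩
    apply hr1
    refine ⟨Function.update Fs r F1, ?_⟩
    have hlt : ∀ i < r, Function.update Fs r F1 i = Fs i := fun i hi =>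
      Function.update_of_ne (ne_of_lt hi) _ _
    have hYY : ∀ j ≤ r, YY ρ π (Function.update Fs r F1) j = YY ρ π Fs j := fun j hj =>
      YY_congr ρ π _ _ j (fun i hi => hlt i (lt_of_lt_of_le hi hj))
    have hal : ∀ j < r, al ρ π (Function.update Fs r F1) j = al ρ π Fs j := fun j hj =>
      al_congr ρ π _ _ j (fun i hi => hlt i (lt_of_le_of_lt hi hj))
    have halr : al ρ π (Function.update Fs r F1) r = α := by
      unfold al
      rw [hYY r le_rfl, Function.update_self]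
      exact hF1.2.2.2
    have hcase : ∀ j < r + 1, j < r ∨ j = r := fun j hj => by omega
    refine ⟨?_, ?_, ?_⟩
    · intro j hj
      rcases hcase j hj with hj' | hj'
      · rw [hYY j hj'.le, hal j hj', hlt j hj']
        exact hFs.mem j hj'
      · subst hj'
        rw [halr, hYY j le_rfl, Function.update_self]
        exact hF1
    · intro j hj F2 hF2
      rcases hcase j hj with hj' | hj'
      · rw [hYY j hj'.le, hal j hj'] at hF2
        rw [hlt j hj']
        exact hFs.min j hj' F2 hF2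
      · subst hj'
        rw [halr, hYY j le_rfl] at hF2
        rw [Function.update_self]
        exact hmin F2 hF2
    · intro j hj F2 hF2
      rcases hcase j hj with hj' | hj'
      · rw [hal j hj']
        exact hFs.ne j hj' F2 hF2
      · subst hj'
        rw [halr]
        exact hnone F2 hF2

end Pool.Agent.Work.MP_610017_lc.PP
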