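import Pool.Agent.Work.MP_610017_lc.GP.StmtsA

/-! # Item K1 of block GG: known sheets -/

set_option autoImplicit false

namespace Pool.Agent.Work.MP_610017_lc.PP

namespace IK1

/-- truth on a sheet outside `I`, by labels and colour -/
theorem STr_iff {k n : ℕ} (β : Vx k → Equiv.Perm (Lb n)) (ζ : Lb n → Bool) (I : Finset (Lb n))
    (f : Fact k n) :
    STr β ζ I f ↔ ∃ y, y ∉ I ∧ OnS (fun v => β v y) (ζ y) f := by
  cases f with
  | edge v w a b => exact Iff.rfl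
  | col v a c => exact Iff.rfl

/-- the same for a restriction -/
theorem SetTrue_iff {k n : ℕ} (ρ : Res k n) (f : Fact k n) :
    SetTrue ρ f ↔ ∃ y, y ∉ ρ.I ∧ OnS (fun v => ρ.β v y) (ρ.ζ y) f := by
  cases f with
  | edge v w a b => exact Iff.rfl
  | col v a c => exact Iff.rfl

/-- change of the names of labels and colour -/
theorem OnS_congr {k n : ℕ} {l l' : Vx k → Lb n} {c c' : Bool} (hl : ∀ v, l v = l' v)
    (hc : c = c') {f : Fact k n} (h : OnS l c f) : OnS l' c' f := by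
  have : l = l' := funext hl
  subst this
  subst hc
  exact h

end IK1

/-- KNOWN SHEETS. -/
theorem pr_K1 (h : G_Lb) : G_K1 := by
  classical
  intro k n w q ρ π 𝓣 o D i hi j f
  obtain ⟨h1, h2, h3, -, -⟩ := h k n w q ρ π 𝓣 o D i hi j
  refine ⟨fun hf => ?_, fun a ha1 ha2 hf => ?_, fun a hf => ?_, fun hf => ?_⟩
  · rw [IK1.SetTrue_iff] at hf
    obtain ⟨y, hy, hs⟩ := hf
    rw [IK1.STr_iff]
    by_cases hex : ∃ a, j ≤ a ∧ a < q ∧ i a = y
    · obtain ⟨a, ha1, ha2, rfl⟩ := hex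
      obtain ⟨m1, m2, m3⟩ := h2 a ha1 ha2
      exact ⟨_, m1, IK1.OnS_congr (fun v => (m2 v).symm) m3.symm hs⟩
    · have hne : ∀ a, j ≤ a → a < q → i a ≠ y := fun a b c e => hex ⟨a, b, c, e⟩
      obtain ⟨m1, m2, m3⟩ := h1 y hy hne
      exact ⟨y, m1, IK1.OnS_congr (fun v => (m2 v).symm) m3.symm hs⟩
  · rw [IK1.STr_iff]
    obtain ⟨m1, m2, m3⟩ := h3 a ha1 ha2
    exact ⟨_, m1, IK1.OnS_congr (fun v => (m2 v).symm) m3.symm hf⟩
  · cases f with
    | edge v w' x y =>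
      obtain ⟨c1, c2, c3, c4⟩ := hf
      refine ⟨?_, ?_⟩
      · unfold CD.lab
        rw [if_pos c1]
        exact c3
      · unfold CD.lab
        rw [if_pos c2]
        exact c4
    | col v x c =>
      obtain ⟨c1, c2, c3⟩ := hf
      refine ⟨?_, c3⟩
      unfold CD.lab
      rw [if_pos c1]
      exact c2
  · rw [IK1.STr_iff] at hf
    obtain ⟨y, hy, hs⟩ := hf
    rw [IK1.SetTrue_iff]
    by_cases hyI : y ∈ ρ.I
    · have hex : ∃ a : ℕ × Fin w, j ≤ a.1 ∧ a.1 < q ∧ D.J a.1 a.2 = y := by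
        by_contra hne
        apply hy
        exact Finset.mem_filter.2 ⟨hyI, fun a b c e => hne ⟨a, b, c, e⟩⟩
      obtain ⟨a, ha1, ha2, hJ⟩ := hex
      by_cases hg : a.2 = D.g0 a.1
      · left
        obtain ⟨-, m2, m3⟩ := h2 a.1 ha1 ha2
        rw [← hg, hJ] at m2 m3
        exact ⟨i a.1, hi.nmem a.1 ha2, IK1.OnS_congr m2 m3 hs⟩
      · right
        obtain ⟨-, m2, m3⟩ := h3 a ha1 ha2
        have hiy : D.iy i a = y := by
          unfold CD.iy
          rw [if_neg hg, hJ]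
        rw [hiy] at m2 m3
        exact ⟨a, ha1, ha2, IK1.OnS_congr m2 m3 hs⟩
    · by_cases hex : ∃ a, j ≤ a ∧ a < q ∧ i a = y
      · right
        obtain ⟨a, ha1, ha2, hia⟩ := hex
        obtain ⟨-, m2, m3⟩ := h3 (a, D.g0 a) ha1 ha2
        have hiy : D.iy i (a, D.g0 a) = y := by
          unfold CD.iy
          rw [if_pos rfl, hia]
        rw [hiy] at m2 m3
        exact ⟨(a, D.g0 a), ha1, ha2, IK1.OnS_congr m2 m3 hs⟩
      · left
        have hne : ∀ a, j ≤ a → a < q → i a ≠ y := fun a b c e => hex ⟨a, b, c, e⟩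
        obtain ⟨-, m2, m3⟩ := h1 y hyI hne
        exact ⟨y, hyI, IK1.OnS_congr m2 m3 hs⟩

end Pool.Agent.Work.MP_610017_lc.PP
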