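import Pool.Agent.Work.MP_610017_lc.GP.StmtsA

/-!
# Block GG, item K2: elements which are not moved, and elements of the modified sheets
-/

set_option autoImplicit false

namespace Pool.Agent.Work.MP_610017_lc.PP

theorem pr_K2 (h1 : G_Df) (h2 : G_Lb) : G_K2 := by
  classical
  intro k n w q ρ π 𝓣 o D i hi j hj
  obtain ⟨-, hDf⟩ := h1 k n w q ρ π 𝓣 o D
  obtain ⟨-, -, hLb3, hLb4, -⟩ := h2 k n w q ρ π 𝓣 o D i hi j
  have hiy : ∀ a : ℕ × Fin w, j ≤ a.1 → a.1 < q → ∀ v,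
      (D.bet i j v).symm (D.lab a v) = D.iy i a := fun a ha1 ha2 v => by
    rw [Equiv.symm_apply_eq]
    exact ((hLb3 a ha1 ha2).2.1 v).symm
  refine ⟨?_, ?_, ?_⟩
  · intro p hp
    have hex : ∃ j' < q, ∃ f ∈ und ρ π (D.F j'), p ∈ touch f := by
      rcases hp with hp | ⟨f, hf, hpf⟩
      · unfold YY at hp
        obtain ⟨i', hi', hp2⟩ := Finset.mem_biUnion.1 hp
        obtain ⟨f, hf, hpf⟩ := Finset.mem_biUnion.1 hp2
        exact ⟨i', (Finset.mem_range.1 hi').trans hj, f, hf, hpf⟩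
      · refine ⟨j, hj, f, ?_, hpf⟩
        unfold al rt at hf
        exact (Finset.mem_filter.1 hf).1
    obtain ⟨j', hj', f, hf, hpf⟩ := hex
    have hI : (ρ.β p.1).symm p.2 ∈ ρ.I := (D.chain.mem j' hj').2.1 f hf p hpf
    have hJ : ∀ a : ℕ × Fin w, j ≤ a.1 → a.1 < q → D.J a.1 a.2 ≠ (ρ.β p.1).symm p.2 :=
      fun a _ ha2 => (D.J_av a.1 ha2 a.2 j' hj' f hf p hpf).symm
    have hUn : (ρ.β p.1).symm p.2 ∈ D.Un j := by
      unfold CD.Un
      exact Finset.mem_filter.2 ⟨hI, hJ⟩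
    refine ⟨hUn, ?_⟩
    rw [Equiv.symm_apply_eq]
    rw [hLb4 p.1 _ hUn ?_, Equiv.apply_symm_apply]
    intro a ha hax
    obtain ⟨ha1, ha2, ha3⟩ := ha
    refine hDf j hj p hp a.1 ha1 ha2 a.2 ha3 ?_
    unfold CD.ix at hax
    exact (ρ.β p.1).symm.injective hax
  · intro a ha1 ha2
    refine ⟨fun v => ⟨?_, ?_⟩, ?_⟩
    · unfold CD.lab
      split_ifs with hv
      · exact (D.grp a.1 ha2).idx a.2 v hv
      · rw [Equiv.symm_apply_apply]
        exact (D.J_mem a.1 ha2 a.2).1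
    · rw [hiy a ha1 ha2 v]
      exact (hLb3 a ha1 ha2).1
    · unfold CD.lab
      split_ifs with hv
      · exact (D.grp a.1 ha2).corner a.2 hv
      · refine ⟨fun h0 => ?_, fun h0 => ?_⟩
        · apply (D.J_mem a.1 ha2 a.2).2.1
          apply (ρ.β (crn k)).injective
          rw [h0, ρ.corner]
        · apply (D.J_mem a.1 ha2 a.2).2.2
          apply (ρ.β (crn k)).injective
          rw [h0, ρ.corner1]
  · intro a b ha1 ha2 hb1 hb2 hab v hlab
    have h3 : D.iy i a = D.iy i b := by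
      rw [← hiy a ha1 ha2 v, ← hiy b hb1 hb2 v, hlab]
    unfold CD.iy at h3
    split_ifs at h3 with h4 h5 h5
    · have h6 := hi.inj a.1 ha2 b.1 hb2 h3
      exact hab (Prod.ext h6 (by rw [h4, h5, h6]))
    · exact hi.nmem a.1 ha2 (h3 ▸ (D.J_mem b.1 hb2 b.2).1)
    · exact hi.nmem b.1 hb2 (h3 ▸ (D.J_mem a.1 ha2 a.2).1)
    · obtain ⟨h6, h7⟩ := D.J_inj a.1 ha2 b.1 hb2 a.2 b.2 h3
      exact hab (Prod.ext h6 h7)

end Pool.Agent.Work.MP_610017_lc.PP
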