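import Pool.Agent.Work.MP_610017_lc.GP.StmtsA

/-! Item K3 of block GG: a term with the right undecided part in the modified world is in the class. -/

set_option autoImplicit false

namespace Pool.Agent.Work.MP_610017_lc.PP

namespace IK3

lemma onS_touch {k n : ℕ} {l : Vx k → Lb n} {c : Bool} {f : Fact k n} (h : OnS l c f) :
    ∀ p ∈ touch f, l p.1 = p.2 := by
  intro p hp
  cases f with
  | edge v w a b =>
    obtain ⟨h1, h2⟩ := h
    simp only [touch, Finset.mem_insert, Finset.mem_singleton] at hp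
    rcases hp with rfl | rfl
    · exact h1
    · exact h2
  | col v a c' =>
    obtain ⟨h1, h2⟩ := h
    simp only [touch, Finset.mem_singleton] at hp
    subst hp
    exact h1

lemma carries_of {k n : ℕ} {G : Grp k n} {l : Vx k → Lb n} {c : Bool} {f : Fact k n}
    (h : OnS l c f) (hs : ∀ p ∈ touch f, p.1 ∈ G.supp) (hp : G.p = l) (hc : G.c = c) :
    Carries G f := by
  cases f with
  | edge v w a b =>
    obtain ⟨h1, h2⟩ := h
    refine ⟨hs (v, a) (by simp [touch]), hs (w, b) (by simp [touch]), ?_, ?_⟩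
    · rw [hp]; exact h1
    · rw [hp]; exact h2
  | col v a c' =>
    obtain ⟨h1, h2⟩ := h
    refine ⟨hs (v, a) (by simp [touch]), ?_, ?_⟩
    · rw [hp]; exact h1
    · rw [hc]; exact h2

open Classical in
/-- the group of the sheet `a` -/
noncomputable def grp {k n w : ℕ} (U : Finset (Fact k n)) (lab : ℕ × Fin w → Vx k → Lb n)
    (col : ℕ × Fin w → Bool) (a : ℕ × Fin w) : Grp k n where
  supp := ((U.biUnion touch).filter (fun p => p.2 = lab a p.1)).image Prod.fst
  p := lab a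
  c := col a

lemma mem_supp {k n w : ℕ} {U : Finset (Fact k n)} {lab : ℕ × Fin w → Vx k → Lb n}
    {col : ℕ × Fin w → Bool} {a : ℕ × Fin w} {v : Vx k} :
    v ∈ (grp U lab col a).supp ↔ ∃ f ∈ U, (v, lab a v) ∈ touch f := by
  classical
  unfold grp
  simp only [Finset.mem_image, Finset.mem_filter, Finset.mem_biUnion]
  constructor
  · rintro ⟨⟨v', x⟩, ⟨⟨f, hf, hx⟩, h1⟩, rfl⟩
    simp only at h1
    subst h1
    exact ⟨f, hf, hx⟩
  · rintro ⟨f, hf, hx⟩
    exact ⟨(v, lab a v), ⟨⟨f, hf, hx⟩, rfl⟩, rfl⟩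

lemma card_supp {k n w : ℕ} (hcard : ∀ f : Fact k n, (touch f).card ≤ 2) (U : Finset (Fact k n))
    (lab : ℕ × Fin w → Vx k → Lb n) (col : ℕ × Fin w → Bool) (a : ℕ × Fin w) (hU : U.card ≤ w) :
    (grp U lab col a).supp.card ≤ 2 * w := by
  classical
  unfold grp
  simp only
  refine Finset.card_image_le.trans ((Finset.card_filter_le _ _).trans ?_)
  refine (Finset.card_biUnion_le_card_mul U touch 2 fun f _ => hcard f).trans ?_
  rw [Nat.mul_comm]
  exact Nat.mul_le_mul_left 2 hU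

end IK3

open IK3 in
/-- item K3 -/
theorem pr_K3 (h1 : G_Rt) (h2 : G_K1) (h3 : G_K2) : G_K3 := by
  classical
  intro k n w q ρ π 𝓣 o D i hT hi j hj F hF hun
  have hK1 := fun f => h2 k n w q ρ π 𝓣 o D i hi j f
  obtain ⟨hK2a, hK2b, hK2c⟩ := h3 k n w q ρ π 𝓣 o D i hi j hj
  set Y := YY ρ π D.F j with hY
  set α := al ρ π D.F j with hα
  -- membership in `α` in terms of the modified world
  have hαmem : ∀ f, f ∈ α ↔ f ∈ F ∧ ¬ (f ∈ π ∨ STr (D.bet i j) (D.zet i j) (D.Un j) f) := by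
    intro f
    rw [← hun, unK, Finset.mem_filter]
  have hund : ∀ f, f ∈ und ρ π F ↔ f ∈ F ∧ ¬ (f ∈ π ∨ SetTrue ρ f) := by
    intro f
    rw [und, Finset.mem_filter]
    rfl
  have hsub : α ⊆ und ρ π F := by
    intro f hf
    rw [hαmem] at hf
    rw [hund]
    refine ⟨hf.1, ?_⟩
    rintro (h | h)
    · exact hf.2 (Or.inl h)
    · exact hf.2 (Or.inr ((hK1 f).1 h))
  have hUn : ∀ x, x ∈ D.Un j → x ∈ ρ.I := by
    intro x hx
    rw [CD.Un, Finset.mem_filter] at hx
    exact hx.1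
  -- the sheet of a new fact
  have hsheet : ∀ f ∈ und ρ π F, f ∉ α → ∃ a : ℕ × Fin w, j ≤ a.1 ∧ a.1 < q ∧
      OnS (D.lab a) (D.G a.1 a.2).c f := by
    intro f hf hfα
    rw [hund] at hf
    rw [hαmem] at hfα
    have hs : STr (D.bet i j) (D.zet i j) (D.Un j) f := by
      by_contra hcon
      apply hfα
      refine ⟨hf.1, ?_⟩
      rintro (h | h)
      · exact hf.2 (Or.inl h)
      · exact hcon h
    rcases (hK1 f).2.2.2 hs with h | h
    · exact absurd (Or.inr h) hf.2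
    · exact h
  -- elements of new facts
  have hnew : ∀ f ∈ und ρ π F, f ∉ α → ∀ p ∈ touch f,
      (ρ.β p.1).symm p.2 ∈ ρ.I ∧ (D.bet i j p.1).symm p.2 ∉ D.Un j := by
    intro f hf hfα p hp
    obtain ⟨a, ha1, ha2, ha3⟩ := hsheet f hf hfα
    have e := onS_touch ha3 p hp
    have := (hK2b a ha1 ha2).1 p.1
    rw [e] at this
    exact this
  have hold : ∀ p : Vx k × Lb n, (p ∈ Y ∨ ∃ f ∈ α, p ∈ touch f) →
      (ρ.β p.1).symm p.2 ∈ D.Un j ∧ (D.bet i j p.1).symm p.2 ∈ D.Un j := by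
    intro p hp
    obtain ⟨e1, e2⟩ := hK2a p hp
    exact ⟨e1, by rw [e2]; exact e1⟩
  obtain ⟨r1, r2, r3, r4, r5, r6⟩ := h1 k n (und ρ π F) Y
  have hrt : rt (und ρ π F) Y = α := by
    apply r5 α hsub
    · intro f hf
      exact (h1 k n (und ρ π (D.F j)) Y).2.2.1 f hf
    · intro f hf hfα
      constructor
      · rw [Finset.disjoint_left]
        intro p hp hpY
        exact (hnew f hf hfα p hp).2 (hold p (Or.inl hpY)).2
      · intro g hg
        rw [Finset.disjoint_left]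
        intro p hp hpg
        exact (hnew f hf hfα p hp).2 (hold p (Or.inr ⟨g, hg, hpg⟩)).2
  refine ⟨hF, ?_, ?_, hrt⟩
  · intro f hf p hp
    by_cases hfα : f ∈ α
    · exact hUn _ (hold p (Or.inr ⟨f, hfα, hp⟩)).1
    · exact (hnew f hf hfα p hp).1
  · rw [hrt]
    set U := und ρ π F \ α with hU
    have hUmem : ∀ f, f ∈ U ↔ f ∈ und ρ π F ∧ f ∉ α := by
      intro f
      rw [hU, Finset.mem_sdiff]
    have hUcard : U.card ≤ w := by
      refine le_trans (Finset.card_le_card ?_) (hT F hF).1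
      intro f hf
      exact ((hund f).mp ((hUmem f).mp hf).1).1
    have hex : ∀ f : {f // f ∈ U}, ∃ a : ℕ × Fin w, j ≤ a.1 ∧ a.1 < q ∧
        OnS (D.lab a) (D.G a.1 a.2).c f.1 := fun f =>
      hsheet f.1 ((hUmem f.1).mp f.2).1 ((hUmem f.1).mp f.2).2
    choose c hc1 hc2 hc3 using hex
    obtain ⟨Cs, hCs, hCs2, hCs3⟩ : ∃ Cs : Finset (ℕ × Fin w), Cs.card ≤ w ∧
        (∀ a ∈ Cs, j ≤ a.1 ∧ a.1 < q) ∧
        ∀ f ∈ U, ∃ a ∈ Cs, OnS (D.lab a) (D.G a.1 a.2).c f := by
      refine ⟨U.attach.image c, ?_, ?_, ?_⟩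
      · refine Finset.card_image_le.trans ?_
        rw [Finset.card_attach]
        exact hUcard
      · intro a ha
        obtain ⟨f, _, rfl⟩ := Finset.mem_image.mp ha
        exact ⟨hc1 f, hc2 f⟩
      · intro f hf
        exact ⟨c ⟨f, hf⟩, Finset.mem_image_of_mem _ (Finset.mem_attach _ _), hc3 ⟨f, hf⟩⟩
    obtain ⟨emb⟩ : Nonempty ({a // a ∈ Cs} ↪ Fin w) := by
      apply Function.Embedding.nonempty_of_card_le
      rw [Fintype.card_coe, Fintype.card_fin]
      exact hCs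
    obtain ⟨G, hG, hG2⟩ : ∃ G : Fin w → Grp k n,
        (∀ g v, v ∈ (G g).supp → ∃ a : {a // a ∈ Cs}, emb a = g ∧
          G g = grp U D.lab (fun a => (D.G a.1 a.2).c) a.1) ∧
        ∀ a : {a // a ∈ Cs}, G (emb a) = grp U D.lab (fun a => (D.G a.1 a.2).c) a.1 := by
      refine ⟨fun g => if h : ∃ a : {a // a ∈ Cs}, emb a = g then
        grp U D.lab (fun a => (D.G a.1 a.2).c) h.choose.1 else ⟨∅, fun _ => 0, true⟩, ?_, ?_⟩
      · intro g v hv
        by_cases h : ∃ a : {a // a ∈ Cs}, emb a = g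
        · refine ⟨h.choose, h.choose_spec, ?_⟩
          beta_reduce
          rw [dif_pos h]
        · exfalso
          beta_reduce at hv
          rw [dif_neg h] at hv
          simp at hv
      · intro a
        have h : ∃ a' : {a // a ∈ Cs}, emb a' = emb a := ⟨a, rfl⟩
        have e := emb.injective h.choose_spec
        show (if h : ∃ a' : {a // a ∈ Cs}, emb a' = emb a then
          grp U D.lab (fun a => (D.G a.1 a.2).c) h.choose.1 else ⟨∅, fun _ => 0, true⟩) = _
        rw [dif_pos h, e]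
    refine ⟨G, ?_, ?_, ?_, ?_, ?_, ?_⟩
    · intro g
      by_cases hne : (G g).supp.Nonempty
      · obtain ⟨v, hv⟩ := hne
        obtain ⟨a, _, ha⟩ := hG g v hv
        rw [ha]
        exact card_supp (fun f => (r6 f).2) U D.lab _ a.1 hUcard
      · rw [Finset.not_nonempty_iff_eq_empty] at hne
        rw [hne]
        simp
    · intro g v hv
      obtain ⟨a, _, ha⟩ := hG g v hv
      rw [ha]
      obtain ⟨h1', h2'⟩ := hCs2 a.1 a.2
      exact ((hK2b a.1 h1' h2').1 v).1
    · intro g hv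
      obtain ⟨a, _, ha⟩ := hG g _ hv
      rw [ha]
      obtain ⟨h1', h2'⟩ := hCs2 a.1 a.2
      exact (hK2b a.1 h1' h2').2
    · intro g g' hgg v hv hv'
      obtain ⟨a, ha1, ha⟩ := hG g _ hv
      obtain ⟨a', ha1', ha'⟩ := hG g' _ hv'
      rw [ha, ha']
      have hne : a.1 ≠ a'.1 := by
        intro h
        apply hgg
        rw [← ha1, ← ha1']
        congr 1
        exact Subtype.ext h
      obtain ⟨h1', h2'⟩ := hCs2 a.1 a.2
      obtain ⟨h3', h4'⟩ := hCs2 a'.1 a'.2
      exact hK2c a.1 a'.1 h1' h2' h3' h4' hne v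
    · intro f hf
      obtain ⟨a, ha, hon⟩ := hCs3 f hf
      refine ⟨emb ⟨a, ha⟩, ?_⟩
      rw [hG2]
      refine carries_of hon ?_ rfl rfl
      intro p hp
      rw [mem_supp]
      refine ⟨f, hf, ?_⟩
      rw [onS_touch hon p hp]
      exact hp
    · intro g v hv
      obtain ⟨a, ha1, ha⟩ := hG g _ hv
      rw [ha] at hv ⊢
      exact mem_supp.mp hv

end Pool.Agent.Work.MP_610017_lc.PP
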