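import Pool.Agent.Work.MP_610017_lc.GP.StmtsA

/-!
# Item K6 of block GG: the modified world extends the first restriction
-/

set_option autoImplicit false

namespace Pool.Agent.Work.MP_610017_lc.PP

open Classical in
theorem pr_K6 (h : G_Lb) : G_K6 := by
  intro k n w q ρ ρ0 π 𝓣 o D i hinj hom hI hi
  have hE : Ext ρ0 ρ.β ρ.ζ := by
    have h1 := hom
    unfold Om at h1
    rw [Finset.mem_filter] at h1
    exact h1.2
  obtain ⟨L1, -, -, L4, -⟩ := h k n w q ρ π 𝓣 o D i hinj 0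
  have key : ∀ x, x ∉ ρ0.I → x ∉ ρ.I ∧ ∀ a, 0 ≤ a → a < q → i a ≠ x := by
    intro x hx
    refine ⟨fun hx' => hx (hI hx'), fun a _ ha he => hx ?_⟩
    rw [← he]
    exact hi a ha
  have hun : (0 : Lb n) ∈ D.Un 0 := by
    unfold CD.Un
    rw [Finset.mem_filter]
    exact ⟨ρ.zero_mem, fun a _ ha => (D.J_mem a.1 ha a.2).2.1⟩
  have hun1 : (1 : Lb n) ∈ D.Un 0 := by
    unfold CD.Un
    rw [Finset.mem_filter]
    exact ⟨ρ.one_mem, fun a _ ha => (D.J_mem a.1 ha a.2).2.2⟩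
  have hix : ∀ a ∈ D.A 0 (crn k), D.ix (crn k) a ≠ 0 := by
    intro a ha hz
    obtain ⟨-, ha1, ha2⟩ := ha
    have hc := (D.grp a.1 ha1).corner a.2 ha2
    apply hc.1
    unfold CD.ix at hz
    rw [Equiv.symm_apply_eq] at hz
    rw [hz]
    exact ρ.corner
  have hix1 : ∀ a ∈ D.A 0 (crn k), D.ix (crn k) a ≠ 1 := by
    intro a ha hz
    obtain ⟨-, ha1, ha2⟩ := ha
    have hc := (D.grp a.1 ha1).corner a.2 ha2
    apply hc.2
    unfold CD.ix at hz
    rw [Equiv.symm_apply_eq] at hz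
    rw [hz]
    exact ρ.corner1
  have hE' : Ext ρ0 (D.bet i 0) (D.zet i 0) := by
    refine ⟨?_, ?_, ?_, ?_⟩
    · intro v x hx
      obtain ⟨k1, k2⟩ := key x hx
      rw [(L1 x k1 k2).2.1 v]
      exact hE.beta v x hx
    · intro x hx
      obtain ⟨k1, k2⟩ := key x hx
      rw [(L1 x k1 k2).2.2]
      exact hE.zeta x hx
    · rw [L4 (crn k) 0 hun hix]
      exact ρ.corner
    · rw [L4 (crn k) 1 hun1 hix1]
      exact ρ.corner1
  unfold Om
  rw [Finset.mem_filter]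
  exact ⟨Finset.mem_univ _, hE'⟩

end Pool.Agent.Work.MP_610017_lc.PP
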