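import Mathlib
import Pool.Agent.Work.MP_610017_lc.GP.StmtsA

/-!
# Block GG, item Nr: the part connected with a set of elements is revealed
-/

set_option autoImplicit false

namespace Pool.Agent.Work.MP_610017_lc.PP

namespace INr

variable {k n : ℕ}

/-- the distance in each coordinate is at most `t` -/
def Cl (t : ℕ) (u v : Vx k) : Prop :=
  u.1.val ≤ v.1.val + t ∧ v.1.val ≤ u.1.val + t ∧ u.2.val ≤ v.2.val + t ∧
    v.2.val ≤ u.2.val + t

theorem nb_close (v : Vx k) (d : Fin 4) : Cl 1 (nb v d) v := by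
  have hu : ∀ z : Fin (k + 1), (up1 z).val = min (z.val + 1) k := fun _ => rfl
  have hd : ∀ z : Fin (k + 1), (dn1 z).val = z.val - 1 := fun _ => rfl
  have hx := v.1.isLt
  have hy := v.2.isLt
  unfold Cl nb
  split_ifs <;> simp only [hu, hd] <;> omega

theorem Cl.symm {t : ℕ} {u v : Vx k} (h : Cl t u v) : Cl t v u := by
  unfold Cl at *
  omega

theorem Cl.refl (t : ℕ) (u : Vx k) : Cl t u u := by
  unfold Cl
  omega

theorem Cl.trans {s t : ℕ} {u v w : Vx k} (h : Cl s u v) (h' : Cl t v w) : Cl (t + s) u w := by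
  unfold Cl at *
  omega

/-- two elements of a true valid fact are near and on the same sheet -/
theorem same (ω : GW k n) (g : Fact k n) (hV : Valid g) (hh : holds ω g) (p p' : Vx k × Lb n)
    (hp : p ∈ touch g) (hp' : p' ∈ touch g) :
    Cl 1 p.1 p'.1 ∧ (ω.β p.1).symm p.2 = (ω.β p'.1).symm p'.2 := by
  cases g with
  | edge v w a b =>
    obtain ⟨d, rfl⟩ := hV
    have h1 : p = (v, a) ∨ p = (nb v d, b) := by
      simpa [touch] using hp
    have h2 : p' = (v, a) ∨ p' = (nb v d, b) := by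
      simpa [touch] using hp'
    have h3 : (ω.β v).symm a = (ω.β (nb v d)).symm b := hh
    rcases h1 with rfl | rfl <;> rcases h2 with rfl | rfl
    · exact ⟨Cl.refl 1 _, rfl⟩
    · exact ⟨(nb_close v d).symm, h3⟩
    · exact ⟨nb_close v d, h3.symm⟩
    · exact ⟨Cl.refl 1 _, rfl⟩
  | col v a c =>
    have h1 : p = (v, a) := by simpa [touch] using hp
    have h2 : p' = (v, a) := by simpa [touch] using hp'
    subst h1
    subst h2
    exact ⟨Cl.refl 1 _, rfl⟩

open Classical in
/-- the facts at distance at most `t` -/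
noncomputable def S (H : Finset (Fact k n)) (Y : Finset (Vx k × Lb n)) : ℕ → Finset (Fact k n)
  | 0 => H.filter (fun f => ¬ Disjoint (touch f) Y)
  | t + 1 => H.filter (fun f => f ∈ S H Y t ∨ ∃ g ∈ S H Y t, ¬ Disjoint (touch f) (touch g))

theorem S_sub (H : Finset (Fact k n)) (Y : Finset (Vx k × Lb n)) (t : ℕ) : S H Y t ⊆ H := by
  classical
  cases t with
  | zero => exact Finset.filter_subset _ _
  | succ t => exact Finset.filter_subset _ _

theorem S_mono (H : Finset (Fact k n)) (Y : Finset (Vx k × Lb n)) (t : ℕ) :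
    S H Y t ⊆ S H Y (t + 1) := by
  classical
  intro f hf
  exact Finset.mem_filter.mpr ⟨S_sub H Y t hf, Or.inl hf⟩

theorem S_zero (H : Finset (Fact k n)) (Y : Finset (Vx k × Lb n)) (t : ℕ) :
    S H Y 0 ⊆ S H Y t := by
  induction t with
  | zero => exact fun _ h => h
  | succ t ih => exact ih.trans (S_mono H Y t)

theorem S_all (H : Finset (Fact k n)) (Y : Finset (Vx k × Lb n)) (t : ℕ) :
    (∀ f, Conn H Y f → f ∈ S H Y t) ∨ t ≤ (S H Y t).card := by
  classical
  induction t with
  | zero => exact Or.inr (Nat.zero_le _)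
  | succ t ih =>
    rcases ih with ih | ih
    · exact Or.inl fun f hf => S_mono H Y t (ih f hf)
    · by_cases he : S H Y (t + 1) = S H Y t
      · refine Or.inl fun f hf => ?_
        rw [he]
        induction hf with
        | base f hf h =>
          exact S_zero H Y t (Finset.mem_filter.mpr ⟨hf, h⟩)
        | step f g hf hg h ih' =>
          rw [← he]
          exact Finset.mem_filter.mpr ⟨hf, Or.inr ⟨g, ih', h⟩⟩
      · right
        have h1 : S H Y t ⊂ S H Y (t + 1) :=
          (Finset.ssubset_iff_subset_ne).mpr ⟨S_mono H Y t, fun h => he h.symm⟩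
        have h2 := Finset.card_lt_card h1
        omega

theorem S_wit (ω : GW k n) (H : Finset (Fact k n)) (Y : Finset (Vx k × Lb n))
    (hV : ∀ f ∈ H, Valid f) (hh : ∀ f ∈ H, holds ω f) (t : ℕ) : ∀ f ∈ S H Y t,
    ∃ p ∈ touch f, ∃ y ∈ Y, Cl t p.1 y.1 ∧ (ω.β p.1).symm p.2 = (ω.β y.1).symm y.2 := by
  classical
  induction t with
  | zero =>
    intro f hf
    obtain ⟨-, h⟩ := Finset.mem_filter.mp hf
    obtain ⟨p, hp, hpY⟩ := Finset.not_disjoint_iff.mp h
    exact ⟨p, hp, p, hpY, Cl.refl 0 _, rfl⟩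
  | succ t ih =>
    intro f hf
    obtain ⟨-, h⟩ := Finset.mem_filter.mp hf
    rcases h with h | ⟨g, hg, h⟩
    · obtain ⟨p, hp, y, hy, h1, h2⟩ := ih f h
      refine ⟨p, hp, y, hy, ?_, h2⟩
      unfold Cl at *
      omega
    · obtain ⟨p, hp, y, hy, h1, h2⟩ := ih g hg
      obtain ⟨p', hp', hp'g⟩ := Finset.not_disjoint_iff.mp h
      have hgH := S_sub H Y t hg
      obtain ⟨h3, h4⟩ := same ω g (hV g hgH) (hh g hgH) p' p hp'g hp
      exact ⟨p', hp', y, hy, h3.trans h1, h4.trans h2⟩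

end INr

theorem pr_Nr : G_Nr := by
  classical
  intro k n r ω H P Y hV hc hR hP hH f hf
  obtain ⟨hfH, hfC⟩ := Finset.mem_filter.mp hf
  have hS : f ∈ INr.S H Y r := by
    rcases INr.S_all H Y r with h | h
    · exact h f hfC
    · have h1 := INr.S_sub H Y r
      have h2 : INr.S H Y r = H := Finset.eq_of_subset_of_card_le h1 (hc.trans h)
      rw [h2]
      exact hfH
  obtain ⟨p, hp, y, hy, h1, h2⟩ := INr.S_wit ω H Y hV hH r f hS
  refine hR ω hP y hy p.1 h1.1 h1.2.1 h1.2.2.1 h1.2.2.2 f (hV f hfH) ?_ (hH f hfH)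
  rw [← h2, Equiv.apply_symm_apply]
  exact hp

end Pool.Agent.Work.MP_610017_lc.PP
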