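import Pool.Agent.Work.MP_610017_lc.GP.StmtsA
import Pool.Agent.Work.MP_610017_lc.PP.B_Asm

/-!
# Block GG, item OR: the OR lemma
-/

set_option autoImplicit false

namespace Pool.Agent.Work.MP_610017_lc.PP

namespace IOR

/-- facts as elements of a product -/
def enc {k n : ℕ} : Fact k n → (Vx k × Vx k × Lb n × Lb n) ⊕ (Vx k × Lb n × Bool)
  | .edge v w a b => .inl (v, w, a, b)
  | .col v a c => .inr (v, a, c)

theorem enc_inj {k n : ℕ} : Function.Injective (enc : Fact k n → _) := by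
  intro f g h
  cases f with
  | edge v w a b =>
    cases g with
    | edge v' w' a' b' =>
      simp only [enc, Sum.inl.injEq, Prod.mk.injEq] at h
      obtain ⟨rfl, rfl, rfl, rfl⟩ := h
      rfl
    | col v' a' c' =>
      simp only [enc] at h
      exact absurd h (by simp)
  | col v a c =>
    cases g with
    | edge v' w' a' b' =>
      simp only [enc] at h
      exact absurd h (by simp)
    | col v' a' c' =>
      simp only [enc, Sum.inr.injEq, Prod.mk.injEq] at h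
      obtain ⟨rfl, rfl, rfl⟩ := h
      rfl

theorem exists_num (k n : ℕ) : ∃ o : Finset (Fact k n) → ℕ, Function.Injective o := by
  haveI : Countable (Fact k n) := enc_inj.countable
  exact exists_injective_nat (Finset (Fact k n))

theorem num1 (w : ℕ) (hw : 1 ≤ w) : (9 * w + 1) ^ 2 ≤ 100 * w ^ 2 := by
  have h : 9 * w + 1 ≤ 10 * w := by omega
  calc (9 * w + 1) ^ 2 ≤ (10 * w) ^ 2 := Nat.pow_le_pow_left h 2
    _ = 100 * w ^ 2 := by ring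

theorem num2 (w : ℕ) (hw : 1 ≤ w) : (2 * (9 * w) + 1) ^ 2 ≤ 361 * w ^ 2 := by
  have h : 2 * (9 * w) + 1 ≤ 19 * w := by omega
  calc (2 * (9 * w) + 1) ^ 2 ≤ (19 * w) ^ 2 := Nat.pow_le_pow_left h 2
    _ = 361 * w ^ 2 := by ring

theorem num3 (w B : ℕ) (hw : 1 ≤ w) :
    B * (1 + 5 * (2 * (9 * w + 1) ^ 2)) ≤ 1001 * (B * w ^ 2) := by
  have h1 := num1 w hw
  have h2 : 1 ≤ w ^ 2 := Nat.one_le_pow _ _ hw
  calc B * (1 + 5 * (2 * (9 * w + 1) ^ 2)) ≤ B * (1001 * w ^ 2) :=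
        Nat.mul_le_mul_left _ (by omega)
    _ = 1001 * (B * w ^ 2) := by ring

theorem num4 (w B m : ℕ) (hw : 1 ≤ w) (hB : 1 ≤ B) (hm : 10 ^ 7 * B * w ^ 3 ≤ m) :
    100 * (9 * w) * (2 * (B * (1 + 5 * (2 * (9 * w + 1) ^ 2))) + 2) ≤ m := by
  refine le_trans ?_ hm
  have h1 := num3 w B hw
  have h2 : 1 ≤ B * w ^ 2 := Nat.mul_pos hB (Nat.one_le_pow _ _ hw)
  calc 100 * (9 * w) * (2 * (B * (1 + 5 * (2 * (9 * w + 1) ^ 2))) + 2)
      ≤ 100 * (9 * w) * (2004 * (B * w ^ 2)) := Nat.mul_le_mul_left _ (by omega)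
    _ = 1803600 * (B * w ^ 3) := by ring
    _ ≤ 10000000 * (B * w ^ 3) := Nat.mul_le_mul_right _ (by norm_num)
    _ = 10 ^ 7 * B * w ^ 3 := by ring

theorem num5 (w B : ℕ) (hw : 1 ≤ w) (hB : 1 ≤ B) :
    2 * (9 * w + 1) ^ 2 + 2 * (9 * w) * (2 * (B * (1 + 5 * (2 * (9 * w + 1) ^ 2))) + 1) *
      (2 * (9 * w) + 1) ^ 2 ≤ 10 ^ 8 * B * w ^ 5 := by
  have h1 := num3 w B hw
  have h2 : 1 ≤ B * w ^ 2 := Nat.mul_pos hB (Nat.one_le_pow _ _ hw)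
  have h3 : 2 * (9 * w) * (2 * (B * (1 + 5 * (2 * (9 * w + 1) ^ 2))) + 1) *
      (2 * (9 * w) + 1) ^ 2 ≤ 13015494 * (B * w ^ 5) := by
    calc 2 * (9 * w) * (2 * (B * (1 + 5 * (2 * (9 * w + 1) ^ 2))) + 1) * (2 * (9 * w) + 1) ^ 2
        ≤ 2 * (9 * w) * (2003 * (B * w ^ 2)) * (361 * w ^ 2) :=
          Nat.mul_le_mul (Nat.mul_le_mul_left _ (by omega)) (num2 w hw)
      _ = 13015494 * (B * w ^ 5) := by ring
  have h4 : 2 * (9 * w + 1) ^ 2 ≤ 200 * (B * w ^ 5) := by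
    have h5 := num1 w hw
    refine (show 2 * (9 * w + 1) ^ 2 ≤ 200 * w ^ 2 by omega).trans ?_
    apply Nat.mul_le_mul_left
    calc w ^ 2 ≤ w ^ 5 := Nat.pow_le_pow_right hw (by norm_num)
      _ ≤ B * w ^ 5 := Nat.le_mul_of_pos_left _ hB
  calc 2 * (9 * w + 1) ^ 2 + 2 * (9 * w) * (2 * (B * (1 + 5 * (2 * (9 * w + 1) ^ 2))) + 1) *
      (2 * (9 * w) + 1) ^ 2 ≤ 200 * (B * w ^ 5) + 13015494 * (B * w ^ 5) := Nat.add_le_add h4 h3
    _ ≤ 100000000 * (B * w ^ 5) := by omega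
    _ = 10 ^ 8 * B * w ^ 5 := by ring

theorem num6 (w B m : ℕ) (hw : 1 ≤ w) (hB : 1 ≤ B) (hm : 10 ^ 7 * B * w ^ 3 ≤ m) : 2 ≤ m := by
  have h2 : 1 ≤ B * w ^ 3 := Nat.mul_pos hB (Nat.one_le_pow _ _ hw)
  have h3 : 10 ^ 7 * B * w ^ 3 = 10000000 * (B * w ^ 3) := by ring
  omega

end IOR

open IOR in
theorem pr_OR1 (h1 : G_Ht) (h2 : G_OS) : G_OR := by
  classical
  have hG : S_Graft := prf_Graft
  have hB : S_Ball := prf_Ball prf_Graft prf_StarClosed prf_HLeMono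
  have hC : S_BrCount := prf_BrCount
  have hV : S_BrBasic := prf_BrBasic prf_StarValid
  intro k n m w B ρ ι _ M Tx hw hB1 hm hk hρ hn hι hTx
  obtain ⟨o, ho⟩ := exists_num k n
  obtain ⟨TB, hTB, hSB⟩ := hB k n (9 * w)
  obtain ⟨S, hS, hSm⟩ := hC k n (2 * (9 * w + 1) ^ 2) TB hTB
  have hm2 : 2 ≤ m := num6 w B m hw hB1 hm
  have hρm : m ≤ ρ.I.card := by
    refine le_trans ?_ hρ
    exact Nat.le_self_pow (by positivity) m
  have hn2 : 2 ≤ n + 1 := by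
    have h3 : ρ.I.card ≤ n + 1 := by
      have := Finset.card_le_univ ρ.I
      rwa [Fintype.card_fin] at this
    omega
  set S' : Finset (Finset (Fact k n)) := S.filter (fun π => ∃ r, Br TB π r) with hS'
  have hS'c : S'.card ≤ (2 * (n + 1) ^ 4) ^ (2 * (9 * w + 1) ^ 2) :=
    (Finset.card_filter_le _ _).trans hS
  have hTT : ∀ i, ∀ F ∈ {F : Finset (Fact k n) | ∃ x, x ≤ M i ∧ Br (Tx i x) F true},
      F.card ≤ 9 * w ∧ ∀ f ∈ F, Valid f := by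
    rintro i F ⟨x, hx, hF⟩
    exact hV k n w (Tx i x) F true (hTx i x hx) hF
  obtain ⟨ρ', hle, hc, hT⟩ := h1 k n m (9 * w) (B * (1 + 5 * (2 * (9 * w + 1) ^ 2))) ρ o
    (ι × {π // π ∈ S'}) (fun p => p.2.1)
    (fun p => {F : Finset (Fact k n) | ∃ x, x ≤ M p.1 ∧ Br (Tx p.1 x) F true}) ho
    (by omega) (Nat.mul_pos hB1 (by omega)) (num4 w B m hw hB1 hm) hk
    (by
      refine le_trans (Nat.pow_le_pow_right (by omega) ?_) hρ
      calc 40 * (9 * w) ^ 2 = 3240 * w ^ 2 := by ring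
        _ ≤ 4000 * w ^ 2 := Nat.mul_le_mul_right _ (by norm_num))
    (by
      rw [Fintype.card_prod, Fintype.card_coe]
      exact or_count ρ.I.card (n + 1) B (2 * (9 * w + 1) ^ 2) _ _ hn2 hn hι hS'c)
    (fun p F hF => hTT p.1 F hF)
  refine ⟨ρ', hle, hc, fun i => ?_⟩
  obtain ⟨T, hT1, hT2⟩ := hG k n (2 * (9 * w + 1) ^ 2)
    (2 * (9 * w) * (2 * (B * (1 + 5 * (2 * (9 * w + 1) ^ 2))) + 1) * (2 * (9 * w) + 1) ^ 2) TB
    (fun F T => OrSet ρ' F {F : Finset (Fact k n) | ∃ x, x ≤ M i ∧ Br (Tx i x) F true} T) hTB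
    (fun F r hF => h2 k n (9 * w) (2 * (B * (1 + 5 * (2 * (9 * w + 1) ^ 2))) + 1) ρ' F
      {F : Finset (Fact k n) | ∃ x, x ≤ M i ∧ Br (Tx i x) F true} o (hTT i) (hSB F r hF)
      (hT (i, ⟨F, Finset.mem_filter.2 ⟨hSm F r hF, r, hF⟩⟩)))
  refine ⟨T, prf_HLeMono _ _ _ _ _ (num5 w B hw hB1) hT1, ?_, ?_⟩
  · intro F hF hcon
    obtain ⟨F1, r1, F2, T2, _, hO, hB2, rfl⟩ := hT2 F true hF
    obtain ⟨F', ⟨x, hx, hF'⟩, hd⟩ := hO.1 F2 hB2 hcon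
    exact ⟨x, hx, F', hF', hd⟩
  · intro F hF x hx F' hF'
    obtain ⟨F1, r1, F2, T2, _, hO, hB2, rfl⟩ := hT2 F false hF
    exact hO.2 F2 hB2 F' ⟨x, hx, hF'⟩

end Pool.Agent.Work.MP_610017_lc.PP
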