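import Mathlib
import Pool.Agent.Work.MP_610017_lc.GP.StmtsA

/-!
# Block GG, item Rt: connected parts
-/

set_option autoImplicit false

namespace Pool.Agent.Work.MP_610017_lc.PP

namespace IRt

variable {k n : ℕ}

theorem mem_rt {H : Finset (Fact k n)} {Y : Finset (Vx k × Lb n)} {f : Fact k n} :
    f ∈ rt H Y ↔ f ∈ H ∧ Conn H Y f := by
  classical
  unfold rt
  exact Finset.mem_filter

theorem conn_mem {H : Finset (Fact k n)} {Y : Finset (Vx k × Lb n)} {f : Fact k n}
    (h : Conn H Y f) : f ∈ H := by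
  cases h with
  | base _ hf _ => exact hf
  | step _ _ hf _ _ => exact hf

theorem mem_rt' {H : Finset (Fact k n)} {Y : Finset (Vx k × Lb n)} {f : Fact k n} :
    f ∈ rt H Y ↔ Conn H Y f :=
  ⟨fun h => (mem_rt.1 h).2, fun h => mem_rt.2 ⟨conn_mem h, h⟩⟩

theorem mono {H H' : Finset (Fact k n)} {Y : Finset (Vx k × Lb n)} (hH : H ⊆ H')
    {f : Fact k n} (h : Conn H Y f) : Conn H' Y f := by
  induction h with
  | base f hf hY => exact Conn.base f (hH hf) hY
  | step f g hf _ hfg ih => exact Conn.step f g (hH hf) ih hfg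

theorem conn_rt {H : Finset (Fact k n)} {Y : Finset (Vx k × Lb n)} {f : Fact k n}
    (h : Conn H Y f) : Conn (rt H Y) Y f := by
  induction h with
  | base f hf hY => exact Conn.base f (mem_rt'.2 (Conn.base f hf hY)) hY
  | step f g hf hg hfg ih => exact Conn.step f g (mem_rt'.2 (Conn.step f g hf hg hfg)) ih hfg

end IRt

open IRt in
/-- Item Rt. -/
theorem pr_Rt : G_Rt := by
  intro k n H Y
  refine ⟨fun f hf => (mem_rt.1 hf).1, ?_, fun f hf => conn_rt (mem_rt'.1 hf),
    fun H' f hH h => mono hH h, ?_, ?_⟩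
  · rintro f hf (h | ⟨g, hg, h⟩)
    · exact mem_rt'.2 (Conn.base f hf h)
    · exact mem_rt'.2 (Conn.step f g hf (mem_rt'.1 hg) h)
  · intro A hA hconn hdis
    apply Finset.Subset.antisymm
    · intro f hf
      have h := mem_rt'.1 hf
      clear hf
      induction h with
      | base f hf hY =>
        by_contra hfA
        exact hY (hdis f hf hfA).1
      | step f g hf _ hfg ih =>
        by_contra hfA
        exact hfg ((hdis f hf hfA).2 g ih)
    · intro f hf
      exact mem_rt'.2 (mono hA (hconn f hf))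
  · intro f
    cases f with
    | edge v w a b =>
      exact ⟨⟨(v, a), by simp [touch]⟩, Finset.card_le_two⟩
    | col v a c =>
      refine ⟨⟨(v, a), by simp [touch]⟩, ?_⟩
      rw [touch, Finset.card_singleton]
      norm_num

end Pool.Agent.Work.MP_610017_lc.PP
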