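import Pool.Agent.Work.MP_610017_lc.GP.StmtsA

/-!
# Block GG, item Sp: `tau` and `sig` are exchange permutations
-/

set_option autoImplicit false

namespace Pool.Agent.Work.MP_610017_lc.PP

theorem pr_Sp (h1 : G_Sw) (h2 : G_Df) : G_Sp := by
  intro k n w q ρ π 𝓣 o D i hi j
  obtain ⟨hSw, -, -, -, -⟩ := h1 n
  obtain ⟨hDf, -⟩ := h2 k n w q ρ π 𝓣 o D
  -- the third part
  have h3 : ∀ v, ∀ a ∈ D.A j v, D.ix v a ∈ ρ.I ∧
      ∀ b : ℕ × Fin w, b.1 < q → D.J b.1 b.2 ≠ D.ix v a := by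
    intro v a ha
    obtain ⟨-, haq, hv⟩ := ha
    refine ⟨(D.grp a.1 haq).idx a.2 v hv, ?_⟩
    intro b hb hc
    obtain ⟨f, hf, hp⟩ := (D.grp a.1 haq).touched a.2 v hv
    have hf' : f ∈ und ρ π (D.F a.1) := by
      unfold uu at hf
      exact (Finset.mem_sdiff.1 hf).1
    exact D.J_av b.1 hb b.2 a.1 haq f hf' _ hp hc.symm
  refine ⟨?_, ?_, h3, ?_, ?_⟩
  · intro v
    refine hSw (ℕ × Fin w) (D.A j v) _ _ ?_ ?_ ?_
    · intro a ha b hb hab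
      obtain ⟨e1, e2⟩ := D.J_inj a.1 ha.2.1 b.1 hb.2.1 a.2 b.2 hab
      exact Prod.ext e1 e2
    · intro a ha b hb hab
      by_contra hne
      have h4 : (a.1, a.2) ≠ (b.1, b.2) := hne
      have h5 := hDf a.1 ha.2.1 b.1 hb.2.1 a.2 b.2 v h4 ha.2.2 hb.2.2
      exact h5 ((ρ.β v).symm.injective hab)
    · intro a ha b hb
      exact (h3 v b hb).2 a ha.2.1
  · refine hSw ℕ {a : ℕ | j ≤ a ∧ a < q} _ _ ?_ ?_ ?_
    · intro a ha b hb hab
      exact (D.J_inj a ha.2 b hb.2 _ _ hab).1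
    · intro a ha b hb hab
      exact hi.inj a ha.2 b hb.2 hab
    · intro a ha b hb hc
      have h4 := (D.J_mem a ha.2 (D.g0 a)).1
      have h5 : D.J a (D.g0 a) = i b := hc
      rw [h5] at h4
      exact hi.nmem b hb.2 h4
  · intro a hja haq
    have hex : ∃ a' : ℕ × Fin w, j ≤ a'.1 ∧ a'.1 < q ∧ D.J a'.1 a'.2 = D.J a.1 a.2 :=
      ⟨a, hja, haq, rfl⟩
    have h4 : D.zt j (D.J a.1 a.2) = (D.G hex.choose.1 hex.choose.2).c := dif_pos hex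
    obtain ⟨-, h6, h7⟩ := hex.choose_spec
    obtain ⟨e1, e2⟩ := D.J_inj _ h6 _ haq _ _ h7
    rw [h4, e1, e2]
  · intro x hx
    refine dif_neg ?_
    rintro ⟨a, ha1, ha2, ha3⟩
    exact hx a ha1 ha2 ha3

end Pool.Agent.Work.MP_610017_lc.PP
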