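import Pool.Agent.Work.MP_610017_lc.GP.StmtsA

/-!
# Block GG, item Sw: exchange permutations
-/

set_option autoImplicit false

namespace Pool.Agent.Work.MP_610017_lc.PP

namespace ISw

variable {ι : Type} {n : ℕ}

theorem exists_swp (A : Set ι) (f g : ι → Lb n)
    (hf : ∀ a ∈ A, ∀ b ∈ A, f a = f b → a = b) (hg : ∀ a ∈ A, ∀ b ∈ A, g a = g b → a = b)
    (hfg : ∀ a ∈ A, ∀ b ∈ A, f a ≠ g b) : ∃ τ : Equiv.Perm (Lb n), IsSwp A f g τ := by
  classical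
  let T : Lb n → Lb n := fun x =>
    if h : ∃ a, a ∈ A ∧ x = f a then g h.choose
    else if h' : ∃ a, a ∈ A ∧ x = g a then f h'.choose else x
  have hTf : ∀ a ∈ A, T (f a) = g a := by
    intro a ha
    have h : ∃ b, b ∈ A ∧ f a = f b := ⟨a, ha, rfl⟩
    have h1 : T (f a) = g h.choose := dif_pos h
    have h2 : a = h.choose := hf a ha _ h.choose_spec.1 h.choose_spec.2
    rw [h1, ← h2]
  have hTg : ∀ a ∈ A, T (g a) = f a := by
    intro a ha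
    have h0 : ¬ ∃ b, b ∈ A ∧ g a = f b := by
      rintro ⟨b, hb, e⟩
      exact hfg b hb a ha e.symm
    have h : ∃ b, b ∈ A ∧ g a = g b := ⟨a, ha, rfl⟩
    have h1 : T (g a) = f h.choose := by
      show (if h : ∃ b, b ∈ A ∧ g a = f b then g h.choose
        else if h' : ∃ b, b ∈ A ∧ g a = g b then f h'.choose else g a) = f h.choose
      rw [dif_neg h0, dif_pos h]
    have h2 : a = h.choose := hg a ha _ h.choose_spec.1 h.choose_spec.2
    rw [h1, ← h2]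
  have hTx : ∀ x, (∀ a ∈ A, x ≠ f a ∧ x ≠ g a) → T x = x := by
    intro x hx
    have h0 : ¬ ∃ b, b ∈ A ∧ x = f b := by
      rintro ⟨b, hb, e⟩
      exact (hx b hb).1 e
    have h1 : ¬ ∃ b, b ∈ A ∧ x = g b := by
      rintro ⟨b, hb, e⟩
      exact (hx b hb).2 e
    show (if h : ∃ b, b ∈ A ∧ x = f b then g h.choose
        else if h' : ∃ b, b ∈ A ∧ x = g b then f h'.choose else x) = x
    rw [dif_neg h0, dif_neg h1]
  have hT : Function.Involutive T := by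
    intro x
    by_cases h0 : ∃ b, b ∈ A ∧ x = f b
    · obtain ⟨b, hb, rfl⟩ := h0
      rw [hTf b hb, hTg b hb]
    · by_cases h1 : ∃ b, b ∈ A ∧ x = g b
      · obtain ⟨b, hb, rfl⟩ := h1
        rw [hTg b hb, hTf b hb]
      · have h2 : T x = x := hTx x fun a ha => ⟨fun e => h0 ⟨a, ha, e⟩, fun e => h1 ⟨a, ha, e⟩⟩
        rw [h2, h2]
  exact ⟨hT.toPerm T, hTf, hTg, hTx⟩

theorem uniq {A : Set ι} {f g : ι → Lb n} {τ τ' : Equiv.Perm (Lb n)} (h : IsSwp A f g τ)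
    (h' : IsSwp A f g τ') : τ = τ' := by
  apply Equiv.ext
  intro x
  by_cases h0 : ∃ b, b ∈ A ∧ x = f b
  · obtain ⟨b, hb, rfl⟩ := h0
    rw [h.left b hb, h'.left b hb]
  · by_cases h1 : ∃ b, b ∈ A ∧ x = g b
    · obtain ⟨b, hb, rfl⟩ := h1
      rw [h.right b hb, h'.right b hb]
    · have h2 : ∀ a ∈ A, x ≠ f a ∧ x ≠ g a :=
        fun a ha => ⟨fun e => h0 ⟨a, ha, e⟩, fun e => h1 ⟨a, ha, e⟩⟩
      rw [h.fix x h2, h'.fix x h2]

theorem sq {A : Set ι} {f g : ι → Lb n} {τ : Equiv.Perm (Lb n)} (h : IsSwp A f g τ) :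
    τ * τ = 1 := by
  apply Equiv.ext
  intro x
  rw [Equiv.Perm.mul_apply, Equiv.Perm.one_apply]
  by_cases h0 : ∃ b, b ∈ A ∧ x = f b
  · obtain ⟨b, hb, rfl⟩ := h0
    rw [h.left b hb, h.right b hb]
  · by_cases h1 : ∃ b, b ∈ A ∧ x = g b
    · obtain ⟨b, hb, rfl⟩ := h1
      rw [h.right b hb, h.left b hb]
    · have h2 : ∀ a ∈ A, x ≠ f a ∧ x ≠ g a :=
        fun a ha => ⟨fun e => h0 ⟨a, ha, e⟩, fun e => h1 ⟨a, ha, e⟩⟩
      rw [h.fix x h2, h.fix x h2]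

theorem union {A B : Set ι} {f g : ι → Lb n} {τ τ' : Equiv.Perm (Lb n)} (h : IsSwp A f g τ)
    (h' : IsSwp B f g τ')
    (hAB : ∀ a ∈ A, ∀ b ∈ B, f a ≠ f b ∧ f a ≠ g b ∧ g a ≠ f b ∧ g a ≠ g b) :
    IsSwp (A ∪ B) f g (τ * τ') := by
  constructor
  · intro a ha
    rw [Equiv.Perm.mul_apply]
    rcases ha with ha | ha
    · rw [h'.fix (f a) fun b hb => ⟨(hAB a ha b hb).1, (hAB a ha b hb).2.1⟩, h.left a ha]
    · rw [h'.left a ha]
      exact h.fix (g a) fun b hb =>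
        ⟨(hAB b hb a ha).2.1.symm, (hAB b hb a ha).2.2.2.symm⟩
  · intro a ha
    rw [Equiv.Perm.mul_apply]
    rcases ha with ha | ha
    · rw [h'.fix (g a) fun b hb => ⟨(hAB a ha b hb).2.2.1, (hAB a ha b hb).2.2.2⟩,
        h.right a ha]
    · rw [h'.right a ha]
      exact h.fix (f a) fun b hb =>
        ⟨(hAB b hb a ha).1.symm, (hAB b hb a ha).2.2.1.symm⟩
  · intro x hx
    rw [Equiv.Perm.mul_apply, h'.fix x fun b hb => hx b (Or.inr hb)]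
    exact h.fix x fun b hb => hx b (Or.inl hb)

/-- points moved by the second permutation -/
theorem comm_aux {κ : Type} {A : Set ι} {B : Set κ} {f g : ι → Lb n} {f' g' : κ → Lb n}
    {τ τ' : Equiv.Perm (Lb n)} (h : IsSwp A f g τ) (h' : IsSwp B f' g' τ')
    (hAB : ∀ a ∈ A, ∀ b ∈ B, f a ≠ f' b ∧ f a ≠ g' b ∧ g a ≠ f' b ∧ g a ≠ g' b) (a : ι)
    (ha : a ∈ A) : τ (τ' (f a)) = τ' (τ (f a)) ∧ τ (τ' (g a)) = τ' (τ (g a)) := by
  have h1 : τ' (f a) = f a :=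
    h'.fix (f a) fun b hb => ⟨(hAB a ha b hb).1, (hAB a ha b hb).2.1⟩
  have h2 : τ' (g a) = g a :=
    h'.fix (g a) fun b hb => ⟨(hAB a ha b hb).2.2.1, (hAB a ha b hb).2.2.2⟩
  constructor
  · rw [h1, h.left a ha, h2]
  · rw [h2, h.right a ha, h1]

theorem comm {κ : Type} {A : Set ι} {B : Set κ} {f g : ι → Lb n} {f' g' : κ → Lb n}
    {τ τ' : Equiv.Perm (Lb n)} (h : IsSwp A f g τ) (h' : IsSwp B f' g' τ')
    (hAB : ∀ a ∈ A, ∀ b ∈ B, f a ≠ f' b ∧ f a ≠ g' b ∧ g a ≠ f' b ∧ g a ≠ g' b) :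
    τ * τ' = τ' * τ := by
  apply Equiv.ext
  intro x
  rw [Equiv.Perm.mul_apply, Equiv.Perm.mul_apply]
  by_cases h0 : ∃ a, a ∈ A ∧ (x = f a ∨ x = g a)
  · obtain ⟨a, ha, rfl | rfl⟩ := h0
    · exact (comm_aux h h' hAB a ha).1
    · exact (comm_aux h h' hAB a ha).2
  · by_cases h1 : ∃ b, b ∈ B ∧ (x = f' b ∨ x = g' b)
    · have hBA : ∀ b ∈ B, ∀ a ∈ A, f' b ≠ f a ∧ f' b ≠ g a ∧ g' b ≠ f a ∧ g' b ≠ g a :=
        fun b hb a ha => ⟨(hAB a ha b hb).1.symm, (hAB a ha b hb).2.2.1.symm,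
          (hAB a ha b hb).2.1.symm, (hAB a ha b hb).2.2.2.symm⟩
      obtain ⟨b, hb, rfl | rfl⟩ := h1
      · exact (comm_aux h' h hBA b hb).1.symm
      · exact (comm_aux h' h hBA b hb).2.symm
    · have h2 : τ x = x := h.fix x fun a ha =>
        ⟨fun e => h0 ⟨a, ha, Or.inl e⟩, fun e => h0 ⟨a, ha, Or.inr e⟩⟩
      have h3 : τ' x = x := h'.fix x fun b hb =>
        ⟨fun e => h1 ⟨b, hb, Or.inl e⟩, fun e => h1 ⟨b, hb, Or.inr e⟩⟩
      rw [h3, h2, h3]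

end ISw

theorem pr_Sw : G_Sw := by
  intro n
  refine ⟨?_, fun ι A f g τ τ' h h' => ISw.uniq h h', fun ι A f g τ h => ISw.sq h,
    fun ι A B f g τ τ' h h' hAB => ISw.union h h' hAB,
    fun ι κ A B f g f' g' τ τ' h h' hAB => ISw.comm h h' hAB⟩
  intro ι A f g hf hg hfg
  have h : ∃ τ : Equiv.Perm (Lb n), IsSwp A f g τ := ISw.exists_swp A f g hf hg hfg
  have h1 : swp A f g = h.choose := dif_pos h
  rw [h1]
  exact h.choose_spec

end Pool.Agent.Work.MP_610017_lc.PP
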