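import Pool.Agent.Work.MP_610017_lc.GP.StmtsC

/-!
# Block GG, item BO (helper12): the functions for the generic data preserve the bounds
-/

set_option autoImplicit false

namespace Pool.Agent.Work.MP_610017_lc.PP

open Filter

namespace IBO

theorem succ_pow {σ m : ℕ} (hσ : 2 ≤ σ) : σ ^ m + 1 ≤ σ ^ (m + 1) := by
  have h1 : 1 ≤ σ ^ m := Nat.one_le_pow _ _ (by omega)
  have h2 : σ ^ m * 2 ≤ σ ^ m * σ := Nat.mul_le_mul_left _ hσ
  rw [pow_succ]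
  omega

theorem powpow {B σ J J' e a : ℕ} (hB : 1 ≤ B) (ha : a ≤ B ^ (σ ^ J)) (he : e ≤ σ ^ J') :
    a ^ e ≤ B ^ (σ ^ (J + J')) := by
  calc a ^ e ≤ (B ^ (σ ^ J)) ^ e := Nat.pow_le_pow_left ha e
    _ ≤ (B ^ (σ ^ J)) ^ (σ ^ J') := Nat.pow_le_pow_right (Nat.one_le_pow _ _ hB) he
    _ = B ^ (σ ^ (J + J')) := by rw [← pow_mul, ← pow_add]

theorem succB {B m : ℕ} (hB : 2 ≤ B) : B ^ m + 1 ≤ B ^ (m + 1) := succ_pow hB

theorem fac {B σ J J' l a : ℕ} (hB : 2 ≤ B) (hσ : 2 ≤ σ) (ha : a ≤ B ^ (σ ^ J))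
    (hl : l ≤ σ ^ J') (hs : σ ^ (J' + 1) ≤ B) :
    (l + 1).factorial * (a + 1) ^ l ≤ B ^ (σ ^ (J + J' + 2)) := by
  have hB1 : 1 ≤ B := by omega
  have hl1 : l + 1 ≤ σ ^ (J' + 1) := (Nat.succ_le_succ hl).trans (succ_pow hσ)
  have h1 : (l + 1).factorial ≤ B ^ (σ ^ (J' + 1)) := by
    calc (l + 1).factorial ≤ (l + 1) ^ (l + 1) := Nat.factorial_le_pow _
      _ ≤ B ^ (l + 1) := Nat.pow_le_pow_left (hl1.trans hs) _
      _ ≤ B ^ (σ ^ (J' + 1)) := Nat.pow_le_pow_right hB1 hl1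
  have h2 : a + 1 ≤ B ^ (σ ^ (J + 1)) := by
    calc a + 1 ≤ B ^ (σ ^ J) + 1 := Nat.succ_le_succ ha
      _ ≤ B ^ (σ ^ J + 1) := succB hB
      _ ≤ B ^ (σ ^ (J + 1)) := Nat.pow_le_pow_right hB1 (succ_pow hσ)
  have h3 : (a + 1) ^ l ≤ B ^ (σ ^ (J + 1 + J')) := powpow hB1 h2 hl
  calc (l + 1).factorial * (a + 1) ^ l ≤ B ^ (σ ^ (J' + 1)) * B ^ (σ ^ (J + 1 + J')) :=
        Nat.mul_le_mul h1 h3
    _ = B ^ (σ ^ (J' + 1) + σ ^ (J + 1 + J')) := (pow_add B _ _).symm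
    _ ≤ B ^ (σ ^ (J + J' + 2)) := by
        apply Nat.pow_le_pow_right hB1
        have h4 : σ ^ (J' + 1) ≤ σ ^ (J + J' + 1) := Nat.pow_le_pow_right (by omega) (by omega)
        have h5 : σ ^ (J + 1 + J') = σ ^ (J + J' + 1) := by congr 1; omega
        have h6 : σ ^ (J + J' + 1) * 2 ≤ σ ^ (J + J' + 1) * σ := Nat.mul_le_mul_left _ hσ
        have h7 : σ ^ (J + J' + 2) = σ ^ (J + J' + 1) * σ := by rw [← pow_succ]
        omega

theorem cfb {B σ K J' l d : ℕ} (hB : 2 ≤ B) (hσ : 2 ≤ σ) (hd : d ≤ B ^ (σ ^ K))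
    (hl : l ≤ σ ^ J') (hs : σ ^ (J' + 1) ≤ B) :
    (1 + (l + 1) * d) ^ (l + 1) ≤ B ^ (σ ^ (K + 2 + (J' + 1))) := by
  have hB1 : 1 ≤ B := by omega
  have hl1 : l + 1 ≤ σ ^ (J' + 1) := (Nat.succ_le_succ hl).trans (succ_pow hσ)
  refine powpow hB1 ?_ hl1
  calc 1 + (l + 1) * d ≤ 1 + B * B ^ (σ ^ K) :=
        Nat.add_le_add_left (Nat.mul_le_mul (hl1.trans hs) hd) 1
    _ = B ^ (σ ^ K + 1) + 1 := by rw [pow_succ, mul_comm, add_comm]
    _ ≤ B ^ (σ ^ K + 1 + 1) := succB hB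
    _ ≤ B ^ (σ ^ (K + 2)) := by
        apply Nat.pow_le_pow_right hB1
        have h1 : σ ^ K + 1 ≤ σ ^ (K + 1) := succ_pow hσ
        have h2 : σ ^ (K + 1) + 1 ≤ σ ^ (K + 2) := succ_pow hσ
        omega

end IBO

theorem pr_BO : G_BO := by
  intro s g cf df hg hgJ hsc hdf hcf j J
  obtain ⟨J', x0, hx0⟩ := hgJ J
  -- the eventual facts
  have hev : ∀ᶠ i in atTop, 2 ≤ s.nn i + 1 ∧ s.sc i ^ (J' + 1) ≤ s.nn i + 1 ∧
      ∀ a : ℕ, a ≤ (s.nn i + 1) ^ (s.sc i ^ J) → g a ≤ s.sc i ^ J' := by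
    filter_upwards [s.sc_kk 1, s.sc_kk (J' + 1), eventually_ge_atTop x0] with i h1 h2 h3
    have hk : s.kk i ≤ s.nn i + 1 := (Nat.lt_two_pow_self (n := s.kk i)).le.trans (s.pow_le i)
    have h4 := s.two_le i
    rw [pow_one] at h1
    refine ⟨by omega, by omega, fun a ha => ?_⟩
    have h5 : x0 ≤ s.nn i + 1 := by
      have := s.le_nn i
      omega
    have h6 := hx0 _ h5
    rw [← hsc i] at h6
    exact (hg ha).trans h6
  match j with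
  | 0 =>
    refine ⟨0, ?_⟩
    filter_upwards [hev] with i ⟨hB, hs, hga⟩ a b ha _
    show g a ≤ _
    have h1 := hga a ha
    have h2 : s.sc i ^ J' ≤ s.sc i ^ (J' + 1) :=
      Nat.pow_le_pow_right (by have := s.two_le i; omega) (by omega)
    rw [pow_zero, pow_one]
    omega
  | 1 =>
    refine ⟨J + J', ?_⟩
    filter_upwards [hev] with i ⟨hB, hs, hga⟩ a b ha _
    show a ^ min b (g a) ≤ _
    exact IBO.powpow (by omega) ha ((min_le_right _ _).trans (hga a ha))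
  | 2 =>
    refine ⟨J + J' + 2 + 2 + (J' + 1), ?_⟩
    filter_upwards [hev] with i ⟨hB, hs, hga⟩ a b ha _
    show cf a (g a) ≤ _
    refine (hcf a (g a)).trans ?_
    exact IBO.cfb hB (s.two_le i) ((hdf a (g a)).trans
      (IBO.fac hB (s.two_le i) ha (hga a ha) hs)) (hga a ha) hs
  | (j + 3) =>
    refine ⟨J + J' + 2, ?_⟩
    filter_upwards [hev] with i ⟨hB, hs, hga⟩ a b ha _
    show df a (g a) ≤ _
    exact (hdf a (g a)).trans (IBO.fac hB (s.two_le i) ha (hga a ha) hs)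

end Pool.Agent.Work.MP_610017_lc.PP
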