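import Mathlib
import Pool.Agent.Work.MP_610017_lc.PP.B_Asm
import Pool.Agent.Work.MP_610017_lc.GP.StmtsB

/-!
# Block GG, item EA (helper27)
-/

set_option autoImplicit false

namespace Pool.Agent.Work.MP_610017_lc.PP

theorem pr_EA : G_EA := by
  intro v
  refine ⟨fun s t J b => ⟨0, 0, ?_⟩, fun s t J b => ⟨0, 0, ?_⟩, fun t J b => ⟨0, 0, ?_⟩⟩
  · intro k n m s' ρ _ _ _ hc _
    exact ⟨ρ, Exist_refl ρ, by rw [hc, pow_zero, pow_one], fun e _ => ⟨_, rfl⟩⟩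
  · intro k n m s' ρ _ _ _ hc _
    exact ⟨ρ, Exist_refl ρ, by rw [hc, pow_zero, pow_one], fun e _ => ⟨_, rfl⟩⟩
  · intro k n m s' ρ _ _ _ hc _
    refine ⟨ρ, Exist_refl ρ, by rw [hc, pow_zero, pow_one], fun e _ => ⟨_, ?_, rfl⟩⟩
    rw [pow_zero]
    unfold relTree
    split_ifs <;> simp [HLe]

end Pool.Agent.Work.MP_610017_lc.PP
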