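import Mathlib
import Pool.Agent.Work.MP_610017_lc.PP.B_Asm
import Pool.Agent.Work.MP_610017_lc.GP.StmtsB

/-!
# Block GG, item EN (helper27)
-/

set_option autoImplicit false

namespace Pool.Agent.Work.MP_610017_lc.PP

namespace IEN

theorem pow_two_le {s c1 c2 : ℕ} (hs : 2 ≤ s) : s ^ c1 + s ^ c2 ≤ s ^ (max c1 c2 + 1) := by
  have h1 : s ^ c1 ≤ s ^ max c1 c2 := Nat.pow_le_pow_right (by omega) (le_max_left _ _)
  have h2 : s ^ c2 ≤ s ^ max c1 c2 := Nat.pow_le_pow_right (by omega) (le_max_right _ _)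
  calc s ^ c1 + s ^ c2 ≤ s ^ max c1 c2 * 2 := by omega
    _ ≤ s ^ max c1 c2 * s := Nat.mul_le_mul_left _ hs
    _ = _ := (pow_succ _ _).symm

theorem le_pow_pow {m s a x : ℕ} (hs : 2 ≤ s) (hm : 1 ≤ m) (h : x ≤ m) : x ≤ m ^ (s ^ a) := by
  calc x ≤ m := h
    _ = m ^ 1 := (pow_one m).symm
    _ ≤ _ := Nat.pow_le_pow_right hm (Nat.one_le_pow _ _ (by omega))

end IEN

open IEN in
theorem pr_EN : G_EN := by
  intro v
  refine ⟨fun φ ih J b => ?_, fun φ ψ ihφ ihψ J b => ?_⟩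
  · obtain ⟨c, a, H⟩ := ih J b
    refine ⟨c, a, fun k n m s ρ h1 h2 h3 h4 h5 => ?_⟩
    obtain ⟨ρ', h6, h7, h8⟩ := H k n m s ρ h1 h2 h3 h4 h5
    refine ⟨ρ', h6, h7, fun e he => ?_⟩
    obtain ⟨T, hT'⟩ := h8 e he
    exact ⟨T.flip, T, rfl, hT'⟩
  · obtain ⟨c1, a1, H1⟩ := ihφ J b
    obtain ⟨c2, a2, H2⟩ := ihψ J (a1 + b)
    refine ⟨max c1 c2 + 1, a2 + a1, fun k n m s ρ hs hm hk hcard hn => ?_⟩
    have hs0 : 0 < s := by omega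
    have hm0 : 1 ≤ m := (Nat.one_le_pow _ _ (by omega)).trans hm
    have hc1 : s ^ c1 ≤ m := (Nat.pow_le_pow_right hs0 (by omega)).trans hm
    have hc2 : s ^ c2 ≤ m := (Nat.pow_le_pow_right hs0 (by omega)).trans hm
    have e1 : m ^ (s ^ (a2 + a1)) = (m ^ (s ^ a2)) ^ (s ^ a1) := by rw [← pow_mul, ← pow_add]
    obtain ⟨ρ1, hρ1, hρ1c, hρ1T⟩ := H1 k n (m ^ (s ^ a2)) s ρ hs (le_pow_pow hs hm0 hc1)
      (le_pow_pow hs hm0 hk) (by rw [hcard, e1]) (by rw [← e1]; exact hn)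
    obtain ⟨ρ', hρ', hρ'c, hρ'T⟩ := H2 k n m s ρ1 hs hc2 hk hρ1c (by
      rw [e1, ← pow_mul, ← pow_add] at hn
      exact hn)
    refine ⟨ρ', ((prf_ResMono k n ρ1 ρ hρ1).2.2.2.1) ρ' hρ', hρ'c, fun e he => ?_⟩
    obtain ⟨T1, hT1⟩ := hρ1T e he
    obtain ⟨T2, hT2⟩ := hρ'T e he
    have f1 : s ^ c1 ≤ s ^ (max c1 c2 + 1) := Nat.pow_le_pow_right hs0 (by omega)
    have f2 : s ^ c2 ≤ s ^ (max c1 c2 + 1) := Nat.pow_le_pow_right hs0 (by omega)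
    refine ⟨andT T1 T2, ?_, T1, T2, rfl, ?_, ?_⟩
    · exact prf_HLeMono k n _ _ _ (pow_two_le hs) ((prf_BrAnd k n T1 T2).2.2 _ _
        (pf_RepHLe k n ρ1 _ _ φ e T1 hT1) (pf_RepHLe k n ρ' _ _ ψ e T2 hT2))
    · exact pf_RepMono k n ρ' ρ1 _ _ _ φ e T1 hρ' f1 hT1
    · exact pf_RepMono k n ρ' ρ' _ _ _ ψ e T2 (Exist_refl ρ') f2 hT2

end Pool.Agent.Work.MP_610017_lc.PP
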