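import Mathlib
import Pool.Agent.Work.MP_610017_lc.GP.StmtsC

/-!
# Block GG: the model of the generic data (MP_610017_lc)

The elements are the sequences in `D.C` modulo the ultrafilter `UU`; an atomic formula `R t` is true if it is true, decided by the facts `D.F i`, for almost all `i`.
-/

set_option autoImplicit false

namespace Pool.Agent.Work.MP_610017_lc.PP

section
variable {s : SG} {ff : ℕ → ℕ → ℕ → ℕ → ℕ}

/-- the sequences -/
def EL (D : GD s ff) : Type := {x : ℕ → ℕ // x ∈ D.C}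

/-- equality almost everywhere -/
instance elSetoid (D : GD s ff) : Setoid (EL D) where
  r x y := ∀ᶠ i in UU, x.1 i = y.1 i
  iseqv :=
    { refl := fun _ => Filter.Eventually.of_forall fun _ => rfl
      symm := fun {_ _} h => h.mono fun _ hi => hi.symm
      trans := fun {_ _ _} h1 h2 => by
        filter_upwards [h1, h2] with i a b
        exact a.trans b }

/-- the domain of the model -/
def MG (D : GD s ff) : Type := Quotient (elSetoid D)

/-- the class of a sequence -/
def MG.mk {D : GD s ff} (x : EL D) : MG D := Quotient.mk (elSetoid D) x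

theorem MG.eq_iff {D : GD s ff} (x y : EL D) :
    MG.mk x = MG.mk y ↔ ∀ᶠ i in UU, x.1 i = y.1 i :=
  Quotient.eq (r := elSetoid D)

theorem MG.ind' {D : GD s ff} {P : MG D → Prop} (h : ∀ x : EL D, P (MG.mk x)) (a : MG D) : P a :=
  Quotient.inductionOn a h

/-- constant sequences -/
def EL.const (D : GD s ff) (c : ℕ) : EL D := ⟨fun _ => c, D.const c⟩

/-- sum of sequences -/
def EL.add {D : GD s ff} (x y : EL D) : EL D := ⟨fun i => x.1 i + y.1 i, D.add _ x.2 _ y.2⟩

/-- product of sequences -/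
def EL.mul {D : GD s ff} (x y : EL D) : EL D := ⟨fun i => x.1 i * y.1 i, D.mul _ x.2 _ y.2⟩

/-- difference of sequences -/
def EL.sub {D : GD s ff} (x y : EL D) : EL D := ⟨fun i => x.1 i - y.1 i, D.sub _ x.2 _ y.2⟩

/-- successor of a sequence -/
def EL.succ {D : GD s ff} (x : EL D) : EL D := ⟨fun i => x.1 i + 1, (x.add (EL.const D 1)).2⟩

/-- the model -/
noncomputable def MGS (D : GD s ff) : Str (MG D) where
  zero := MG.mk (EL.const D 0)
  succ := fun a => MG.mk (EL.succ (Quotient.out a))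
  add := fun a b => MG.mk (EL.add (Quotient.out a) (Quotient.out b))
  mul := fun a b => MG.mk (EL.mul (Quotient.out a) (Quotient.out b))
  le := fun a b => ∀ᶠ i in UU, (Quotient.out a).1 i ≤ (Quotient.out b).1 i
  rel := fun t => ∀ᶠ i in UU, TruR (s.ρ i) (D.F i) fun j => (Quotient.out (t j)).1 i

theorem MG.out_mk {D : GD s ff} (x : EL D) : ∀ᶠ i in UU, (Quotient.out (MG.mk x)).1 i = x.1 i :=
  Quotient.mk_out (s := elSetoid D) x

theorem MGS_zero (D : GD s ff) : (MGS D).zero = MG.mk (EL.const D 0) := rfl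

theorem MGS_succ (D : GD s ff) (x : EL D) : (MGS D).succ (MG.mk x) = MG.mk (EL.succ x) := by
  refine (MG.eq_iff _ _).2 ?_
  filter_upwards [MG.out_mk x] with i hi
  simp only [EL.succ, hi]

theorem MGS_add (D : GD s ff) (x y : EL D) :
    (MGS D).add (MG.mk x) (MG.mk y) = MG.mk (EL.add x y) := by
  refine (MG.eq_iff _ _).2 ?_
  filter_upwards [MG.out_mk x, MG.out_mk y] with i hi hj
  simp only [EL.add, hi, hj]

theorem MGS_mul (D : GD s ff) (x y : EL D) :
    (MGS D).mul (MG.mk x) (MG.mk y) = MG.mk (EL.mul x y) := by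
  refine (MG.eq_iff _ _).2 ?_
  filter_upwards [MG.out_mk x, MG.out_mk y] with i hi hj
  simp only [EL.mul, hi, hj]

theorem MGS_le (D : GD s ff) (x y : EL D) :
    (MGS D).le (MG.mk x) (MG.mk y) ↔ ∀ᶠ i in UU, x.1 i ≤ y.1 i := by
  constructor
  · intro h
    filter_upwards [MG.out_mk x, MG.out_mk y, h] with i hi hj hk
    rw [← hi, ← hj]
    exact hk
  · intro h
    change ∀ᶠ i in UU, (Quotient.out (MG.mk x)).1 i ≤ (Quotient.out (MG.mk y)).1 i
    filter_upwards [MG.out_mk x, MG.out_mk y, h] with i hi hj hk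
    rw [hi, hj]
    exact hk

theorem MGS_lt (D : GD s ff) (x y : EL D) :
    (MGS D).lt (MG.mk x) (MG.mk y) ↔ ∀ᶠ i in UU, x.1 i < y.1 i := by
  constructor
  · rintro ⟨h1, h2⟩
    rw [MGS_le] at h1
    rw [Ne, MG.eq_iff, UU_not] at h2
    filter_upwards [h1, h2] with i a b
    omega
  · intro h
    refine ⟨(MGS_le D x y).2 (h.mono fun i hi => hi.le), ?_⟩
    rw [Ne, MG.eq_iff, UU_not]
    exact h.mono fun i hi => hi.ne

theorem MGS_rel (D : GD s ff) (x : Fin 5 → EL D) :
    (MGS D).rel (fun j => MG.mk (x j)) ↔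
      ∀ᶠ i in UU, TruR (s.ρ i) (D.F i) fun j => (x j).1 i := by
  have h : ∀ᶠ i in UU, ∀ j, (Quotient.out (MG.mk (x j))).1 i = (x j).1 i :=
    Filter.eventually_all.2 fun j => MG.out_mk (x j)
  refine Filter.eventually_congr ?_
  filter_upwards [h] with i hi
  have : (fun j => (Quotient.out (MG.mk (x j))).1 i) = fun j => (x j).1 i := funext hi
  rw [this]

/-- every tuple of elements of the model is represented by a tuple of sequences -/
theorem MG.reps {D : GD s ff} {v : ℕ} (e : Fin v → MG D) :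
    ∃ r : Fin v → EL D, e = fun j => MG.mk (r j) :=
  ⟨fun j => Quotient.out (e j), funext fun j => (Quotient.out_eq (e j)).symm⟩

theorem MG.cons {D : GD s ff} {v : ℕ} (x : EL D) (r : Fin v → EL D) :
    (Fin.cons (MG.mk x) (fun j => MG.mk (r j)) : Fin (v + 1) → MG D) =
      fun j => MG.mk ((Fin.cons x r : Fin (v + 1) → EL D) j) := by
  funext j
  refine Fin.cases ?_ (fun j => ?_) j <;> rfl

theorem EL.cons {D : GD s ff} {v : ℕ} (x : EL D) (r : Fin v → EL D) (i : ℕ) :
    (fun j => ((Fin.cons x r : Fin (v + 1) → EL D) j).1 i) =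
      (Fin.cons (x.1 i) (fun j => (r j).1 i) : Fin (v + 1) → ℕ) := by
  funext j
  refine Fin.cases ?_ (fun j => ?_) j <;> rfl

/-- the number of sheets -/
def nG (D : GD s ff) : MG D := MG.mk ⟨fun i => s.nn i + 1, D.nn_mem⟩

/-- the size of the grid -/
def kG (D : GD s ff) : MG D := MG.mk ⟨s.kk, D.kk_mem⟩

end

end Pool.Agent.Work.MP_610017_lc.PP
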