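import Pool.Agent.Work.MP_610017_lc.GP.StmtsC
import Pool.Agent.Work.MP_610017_lc.PP.A_LE

/-!
# Block GG, item TC: decided atomic formulas
-/

set_option autoImplicit false

namespace Pool.Agent.Work.MP_610017_lc.PP

namespace ITC

theorem up1_ofNat {k x : ℕ} (h : x < k) :
    up1 (Fin.ofNat (k + 1) x) = Fin.ofNat (k + 1) (x + 1) := by
  apply Fin.ext
  simp only [up1, Fin.ofNat]
  rw [Nat.mod_eq_of_lt (by omega), Nat.mod_eq_of_lt (by omega)]
  omega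

theorem bd_ofNat {k x y : ℕ} (hx : x ≤ k) (hy : y ≤ k) :
    bd ((Fin.ofNat (k + 1) x, Fin.ofNat (k + 1) y) : Vx k) = true ↔
      (x = 0 ∨ x = k ∨ y = 0 ∨ y = k) ∧ ¬ (x = 0 ∧ y = 0) := by
  unfold bd
  simp only [decide_eq_true_eq, Fin.ofNat]
  rw [Nat.mod_eq_of_lt (by omega : x < k + 1), Nat.mod_eq_of_lt (by omega : y < k + 1)]

theorem dec_holds {k n : ℕ} {ρ : Res k n} {F : Finset (Fact k n)} {ω : GW k n}
    (hE : Ext ρ ω.β ω.ζ) (hF : ∀ f ∈ F, holds ω f) {f : Fact k n}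
    (h : Dec ρ F f) : holds ω f := by
  rcases h with h | h
  · exact hF f h
  · cases f with
    | edge v w a b =>
      obtain ⟨i, hi, h1, h2⟩ := h
      rw [← hE.beta v i hi] at h1
      rw [← hE.beta w i hi] at h2
      show (ω.β v).symm a = (ω.β w).symm b
      rw [← h1, ← h2, Equiv.symm_apply_apply, Equiv.symm_apply_apply]
    | col v a c =>
      obtain ⟨i, hi, h1, h2⟩ := h
      rw [← hE.beta v i hi] at h1
      rw [← hE.zeta i hi] at h2
      have h0 : i ≠ 0 := fun h => hi (h ▸ ρ.zero_mem)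
      have h3 : i ≠ 1 := fun h => hi (h ▸ ρ.one_mem)
      show cl ω v ((ω.β v).symm a) = some c
      rw [← h1, Equiv.symm_apply_apply, cl_other h0 h3, h2]

theorem br_leaf {k n : ℕ} {s : Bool} {P : Finset (Fact k n)} {r : Bool}
    (h : Br (.leaf s) P r) : s = r := by
  cases h
  rfl

theorem br_node {k n : ℕ} {v : Vx k} {a : Lb n} {g : (Fin 4 → Lb n) → Bool → Bool}
    {P : Finset (Fact k n)} {r : Bool} (h : Br (.node v a fun b c => .leaf (g b c)) P r) :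
    ∃ b c, g b c = r ∧ star v a b c ⊆ P := by
  cases h with
  | node _ _ _ b c F _ hc h' =>
    exact ⟨b, c, br_leaf h', Finset.subset_union_left⟩

theorem edge_mem {k n : ℕ} (v : Vx k) (a : Lb n) (b : Fin 4 → Lb n) (c : Bool) (d : Fin 4) :
    Fact.edge v (nb v d) a (b d) ∈ star v a b c := by
  unfold star
  exact Finset.mem_union_left _ (Finset.mem_union_left _
    (Finset.mem_image_of_mem (fun d => Fact.edge v (nb v d) a (b d)) (Finset.mem_univ d)))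

theorem col_mem {k n : ℕ} (v : Vx k) (a : Lb n) (b : Fin 4 → Lb n) (c : Bool)
    (h : bd v = true) : Fact.col v a c ∈ star v a b c := by
  unfold star
  refine Finset.mem_union_right _ ?_
  rw [if_pos h]
  exact Finset.mem_singleton_self _

theorem edge_eq {k n : ℕ} {ω : GW k n} {v : Vx k} {a b : Lb n} {d : Fin 4}
    (h : holds ω (Fact.edge v (nb v d) a b)) : ω.β (nb v d) ((ω.β v).symm a) = b := by
  have h' : (ω.β v).symm a = (ω.β (nb v d)).symm b := h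
  rw [h', Equiv.apply_symm_apply]

/-- A decided branch of a node that compares a neighbour. -/
theorem node_edge {k n : ℕ} {ρ : Res k n} {F : Finset (Fact k n)} {ω : GW k n}
    (hE : Ext ρ ω.β ω.ζ) (hF : ∀ f ∈ F, holds ω f) {v : Vx k} {a b' : Lb n} {d : Fin 4}
    {P : Finset (Fact k n)} {r : Bool}
    (h : Br (.node v a fun b _ => .leaf (decide (b d = b'))) P r) (hP : ∀ f ∈ P, Dec ρ F f) :
    decide (ω.β (nb v d) ((ω.β v).symm a) = b') = r := by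
  obtain ⟨b, c, h1, h2⟩ := br_node h
  rw [edge_eq (dec_holds hE hF (hP _ (h2 (edge_mem v a b c d))))]
  exact h1

theorem node_col {k n : ℕ} {ρ : Res k n} {F : Finset (Fact k n)} {ω : GW k n}
    (hE : Ext ρ ω.β ω.ζ) (hχ : ω.χ = spec) (hF : ∀ f ∈ F, holds ω f) {v : Vx k} {a : Lb n}
    {P : Finset (Fact k n)} {r : Bool} (hv : bd v = true)
    (h : Br (.node v a fun _ c => .leaf c) P r) (hP : ∀ f ∈ P, Dec ρ F f) :
    cl ω v ((ω.β v).symm a) = some r := by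
  obtain ⟨b, c, h1, h2⟩ := br_node h
  have h3 : holds ω (Fact.col v a c) := dec_holds hE hF (hP _ (h2 (col_mem v a b c hv)))
  have h4 : c = r := h1
  rw [← h4]
  exact h3

theorem caseH {k n : ℕ} {ρ : Res k n} {F : Finset (Fact k n)} {ω : GW k n}
    (hE : Ext ρ ω.β ω.ζ) (hF : ∀ f ∈ F, holds ω f) (x y a b : ℕ) (r : Bool)
    (P : Finset (Fact k n)) (h : Br (relTree k n ![0, x, y, a, b]) P r)
    (hP : ∀ f ∈ P, Dec ρ F f) : (hW ω x y a b ↔ r = true) := by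
  unfold relTree at h
  have t0 : (![0, x, y, a, b] : Fin 5 → ℕ) 0 = 0 := rfl
  have t1 : (![0, x, y, a, b] : Fin 5 → ℕ) 1 = x := rfl
  have t2 : (![0, x, y, a, b] : Fin 5 → ℕ) 2 = y := rfl
  have t3 : (![0, x, y, a, b] : Fin 5 → ℕ) 3 = a := rfl
  have t4 : (![0, x, y, a, b] : Fin 5 → ℕ) 4 = b := rfl
  rw [t0, t1, t2, t3, t4] at h
  by_cases hr : x < k ∧ y ≤ k ∧ a ≤ n ∧ b ≤ n
  · rw [if_pos ⟨rfl, hr⟩] at h
    have h1 := node_edge hE hF h hP
    have e : nb ((Fin.ofNat (k + 1) x, Fin.ofNat (k + 1) y) : Vx k) 0 =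
        (Fin.ofNat (k + 1) (x + 1), Fin.ofNat (k + 1) y) := by
      unfold nb
      rw [if_pos rfl, up1_ofNat hr.1]
    rw [e] at h1
    rw [← h1, decide_eq_true_eq]
    exact ⟨fun h' => h'.2.2.2.2, fun h' => ⟨hr.1, hr.2.1, hr.2.2.1, hr.2.2.2, h'⟩⟩
  · rw [if_neg (fun h' => hr h'.2), if_neg (fun h' => by omega),
      if_neg (fun h' => by omega)] at h
    have h1 := br_leaf h
    rw [← h1, decide_eq_true_eq]
    constructor
    · intro h'
      exact absurd ⟨h'.1, h'.2.1, h'.2.2.1, h'.2.2.2.1⟩ hr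
    · intro h'
      omega

theorem caseU {k n : ℕ} {ρ : Res k n} {F : Finset (Fact k n)} {ω : GW k n}
    (hE : Ext ρ ω.β ω.ζ) (hF : ∀ f ∈ F, holds ω f) (x y a b : ℕ) (r : Bool)
    (P : Finset (Fact k n)) (h : Br (relTree k n ![1, x, y, a, b]) P r)
    (hP : ∀ f ∈ P, Dec ρ F f) : (uW ω x y a b ↔ r = true) := by
  unfold relTree at h
  have t0 : (![1, x, y, a, b] : Fin 5 → ℕ) 0 = 1 := rfl
  have t1 : (![1, x, y, a, b] : Fin 5 → ℕ) 1 = x := rfl
  have t2 : (![1, x, y, a, b] : Fin 5 → ℕ) 2 = y := rfl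
  have t3 : (![1, x, y, a, b] : Fin 5 → ℕ) 3 = a := rfl
  have t4 : (![1, x, y, a, b] : Fin 5 → ℕ) 4 = b := rfl
  rw [t0, t1, t2, t3, t4, if_neg (fun h' => by omega)] at h
  by_cases hr : x ≤ k ∧ y < k ∧ a ≤ n ∧ b ≤ n
  · rw [if_pos ⟨rfl, hr⟩] at h
    have h1 := node_edge hE hF h hP
    have e : nb ((Fin.ofNat (k + 1) x, Fin.ofNat (k + 1) y) : Vx k) 1 =
        (Fin.ofNat (k + 1) x, Fin.ofNat (k + 1) (y + 1)) := by
      unfold nb
      rw [if_neg (by decide), if_pos rfl, up1_ofNat hr.2.1]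
    rw [e] at h1
    rw [← h1, decide_eq_true_eq]
    exact ⟨fun h' => h'.2.2.2.2, fun h' => ⟨hr.1, hr.2.1, hr.2.2.1, hr.2.2.2, h'⟩⟩
  · rw [if_neg (fun h' => hr h'.2), if_neg (fun h' => by omega)] at h
    have h1 := br_leaf h
    rw [← h1, decide_eq_true_eq]
    constructor
    · intro h'
      exact absurd ⟨h'.1, h'.2.1, h'.2.2.1, h'.2.2.2.1⟩ hr
    · intro h'
      omega

theorem caseC {k n : ℕ} {ρ : Res k n} {F : Finset (Fact k n)} {ω : GW k n}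
    (hE : Ext ρ ω.β ω.ζ) (hχ : ω.χ = spec) (hF : ∀ f ∈ F, holds ω f) (x y a : ℕ) (r : Bool)
    (P : Finset (Fact k n)) (h : Br (relTree k n ![2, x, y, a, 0]) P r)
    (hP : ∀ f ∈ P, Dec ρ F f) (hi : inC k n x y a ∨ r = true) : cW ω r x y a := by
  unfold relTree at h
  have t0 : (![2, x, y, a, 0] : Fin 5 → ℕ) 0 = 2 := rfl
  have t1 : (![2, x, y, a, 0] : Fin 5 → ℕ) 1 = x := rfl
  have t2 : (![2, x, y, a, 0] : Fin 5 → ℕ) 2 = y := rfl
  have t3 : (![2, x, y, a, 0] : Fin 5 → ℕ) 3 = a := rfl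
  have t4 : (![2, x, y, a, 0] : Fin 5 → ℕ) 4 = 0 := rfl
  rw [t0, t1, t2, t3, t4, if_neg (fun h' => by omega), if_neg (fun h' => by omega)] at h
  by_cases hr : x ≤ k ∧ y ≤ k ∧ a ≤ n ∧
      bd ((Fin.ofNat (k + 1) x, Fin.ofNat (k + 1) y) : Vx k) = true
  · rw [if_pos ⟨rfl, hr.1, hr.2.1, hr.2.2.1, rfl, hr.2.2.2⟩] at h
    have hb := (bd_ofNat hr.1 hr.2.1).1 hr.2.2.2
    exact ⟨⟨hr.1, hr.2.1, hr.2.2.1, hb.1, hb.2⟩, node_col hE hχ hF hr.2.2.2 h hP⟩
  · rw [if_neg (fun h' => hr ⟨h'.2.1, h'.2.2.1, h'.2.2.2.1, h'.2.2.2.2.2⟩)] at h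
    rcases hi with hi | hi
    · exact absurd ⟨hi.1, hi.2.1, hi.2.2.1, (bd_ofNat hi.1 hi.2.1).2 hi.2.2.2⟩ hr
    · have h1 := br_leaf h
      rw [hi, decide_eq_true_eq] at h1
      omega

end ITC

open ITC in
theorem pr_TC : G_TC := by
  intro k n ρ F ω x y a b hE hχ hF
  refine ⟨⟨?_, ?_⟩, ⟨?_, ?_⟩, ?_, ?_⟩
  · rintro ⟨P, h, hP⟩
    exact (caseH hE hF x y a b true P h hP).2 rfl
  · rintro ⟨P, h, hP⟩ h'
    exact Bool.noConfusion ((caseH hE hF x y a b false P h hP).1 h')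
  · rintro ⟨P, h, hP⟩
    exact (caseU hE hF x y a b true P h hP).2 rfl
  · rintro ⟨P, h, hP⟩ h'
    exact Bool.noConfusion ((caseU hE hF x y a b false P h hP).1 h')
  · rintro ⟨P, h, hP⟩
    exact caseC hE hχ hF x y a true P h hP (Or.inr rfl)
  · rintro ⟨P, h, hP⟩ hi
    exact caseC hE hχ hF x y a false P h hP (Or.inl hi)

end Pool.Agent.Work.MP_610017_lc.PP
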