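import Mathlib
import Pool.Agent.Work.MP_610017_lc.GP.I_TM
import Pool.Agent.Work.MP_610017_lc.GP.I_TD
import Pool.Agent.Work.MP_610017_lc.GP.I_TW

/-!
# Block GG, item TU (helper27)
-/

set_option autoImplicit false

namespace Pool.Agent.Work.MP_610017_lc.PP

namespace ITU

/-- the statement for one formula -/
def UQ {v : ℕ} (φ : Gm v) : Prop := ∃ D : ℕ, ∀ (k n : ℕ) (ρ : Res k n)
  (F : Finset (Fact k n)) (h : ℕ) (e : Fin v → ℕ), (∀ f ∈ F, Valid f) → Con ρ F →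
  D * (F.card + h + 1) ≤ k → D * (F.card + h + 1) ≤ ρ.I.card →
  ¬ (Tru ρ F h φ e ∧ Fls ρ F h φ e)

theorem num1 {D c h a b k : ℕ} (hk : (20 * D + 100) * (c + h + 1) ≤ k) (ha : a ≤ c + 9 * b)
    (hb : b ≤ 2 * h) : 2 * (c + 9 * b) + 3 ≤ k ∧ c + 9 * b + 4 ≤ k ∧ D * (a + h + 1) ≤ k := by
  have h1 : 100 * (c + h + 1) ≤ k :=
    (Nat.mul_le_mul_right _ (Nat.le_add_left _ _)).trans hk
  have h2 : D * (a + h + 1) ≤ 20 * D * (c + h + 1) := by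
    calc D * (a + h + 1) ≤ D * (20 * (c + h + 1)) := Nat.mul_le_mul_left _ (by omega)
      _ = 20 * D * (c + h + 1) := by ring
  have h3 : 20 * D * (c + h + 1) ≤ k :=
    (Nat.mul_le_mul_right _ (Nat.le_add_right _ _)).trans hk
  refine ⟨by omega, by omega, h2.trans h3⟩

open ITM

theorem bex_case {v : ℕ} (t : Tm v) (ψ : Gm (v + 1)) (ih : UQ ψ) : UQ (.bex t ψ) := by
  obtain ⟨D, hD⟩ := ih
  refine ⟨20 * D + 100, fun k n ρ F h e hV hC hk hI => ?_⟩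
  rintro ⟨hT, hF⟩
  obtain ⟨x, hx, hx'⟩ := pr_TW k n ρ F h v (.bex t ψ) e hC hT
  obtain ⟨T', P', ⟨Tx, h1, _, _, h2⟩, h3, h4⟩ := hF
  obtain ⟨F', g1, g2, g3, g4, Q, r, g5, g6⟩ := (pr_TD k n ρ F h hV hC
    (num1 (a := F.card) hk (by omega) (by omega)).1
    (num1 (a := F.card) hI (by omega) (by omega)).2.1).1 (Tx x)
    (pf_RepHLe k n ρ h _ ψ _ _ (h1 x hx))
  cases r with
  | true =>
    refine h2 P' h3 x hx Q g5 (con_of_dec g4 (dec_union (fun f hf => dec_mono g1 (h4 f hf))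
      (fun f hf => Or.inl (g6 hf))))
  | false =>
    refine hD k n ρ F' h (Fin.cons x e) g3 g4 (num1 hk g2 (by omega)).2.2
      (num1 hI g2 (by omega)).2.2 ⟨?_, Tx x, Q, h1 x hx, g5, fun f hf => Or.inl (g6 hf)⟩
    exact (pr_TM k n ρ F F' h h _ ψ ψ _).1 g1 le_rfl hx'

theorem ind_case {v : ℕ} (ψ : Gm (v + 1)) (ih : UQ ψ) : UQ (.ind ψ) := by
  obtain ⟨D, hD⟩ := ih
  refine ⟨20 * D + 100, fun k n ρ F h e hV hC hk hI => ?_⟩
  rintro ⟨hT, hF⟩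
  obtain ⟨x, hx, hx', hx''⟩ := pr_TW k n ρ F h _ (.ind ψ) e hC hT
  obtain ⟨T', P', ⟨Tx, h1, _, _, h2⟩, h3, h4⟩ := hF
  have hH : HLe (2 * h) (andT (Tx x) (Tx (x + 1)).flip) := by
    rw [two_mul]
    exact (prf_BrAnd k n _ _).2.2 h h (pf_RepHLe k n ρ h _ ψ _ _ (h1 x (by omega)))
      (((prf_BrFlip k n _).2 h).2 (pf_RepHLe k n ρ h _ ψ _ _ (h1 (x + 1) (by omega))))
  obtain ⟨F', g1, g2, g3, g4, Q, r, g5, g6⟩ := (pr_TD k n ρ F (2 * h) hV hC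
    (num1 (a := F.card) hk (by omega) le_rfl).1
    (num1 (a := F.card) hI (by omega) le_rfl).2.1).1 _ hH
  cases r with
  | true =>
    refine h2 P' h3 x hx Q g5 (con_of_dec g4 (dec_union (fun f hf => dec_mono g1 (h4 f hf))
      (fun f hf => Or.inl (g6 hf))))
  | false =>
    rcases ((prf_BrAnd k n _ _).2.1 Q).1 g5 with g7 | ⟨F1, F2, g7, g8, rfl⟩
    · refine hD k n ρ F' h _ g3 g4 (num1 hk g2 le_rfl).2.2 (num1 hI g2 le_rfl).2.2
        ⟨(pr_TM k n ρ F F' h h _ ψ ψ _).1 g1 le_rfl hx',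
          Tx x, Q, h1 x (by omega), g7, fun f hf => Or.inl (g6 hf)⟩
    · have g9 : Br (Tx (x + 1)) F2 true := by simpa using ((prf_BrFlip k n _).1 F2 false).1 g8
      refine hD k n ρ F' h _ g3 g4 (num1 hk g2 le_rfl).2.2 (num1 hI g2 le_rfl).2.2
        ⟨⟨Tx (x + 1), F2, h1 (x + 1) (by omega), g9,
          fun f hf => Or.inl (g6 (Finset.mem_union_right _ hf))⟩,
          (pr_TM k n ρ F F' h h _ ψ ψ _).2.1 g1 le_rfl hx''⟩

theorem main {v : ℕ} (φ : Gm v) : UQ φ := by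
  induction φ with
  | eq s t =>
    refine ⟨0, fun k n ρ F h e _ _ _ _ => ?_⟩
    rintro ⟨⟨T, P, rfl, h2, _⟩, ⟨T', P', rfl, h2', _⟩⟩
    exact Bool.false_ne_true ((Round_leaf h2').2.trans (Round_leaf h2).2.symm)
  | le s t =>
    refine ⟨0, fun k n ρ F h e _ _ _ _ => ?_⟩
    rintro ⟨⟨T, P, rfl, h2, _⟩, ⟨T', P', rfl, h2', _⟩⟩
    exact Bool.false_ne_true ((Round_leaf h2').2.trans (Round_leaf h2).2.symm)
  | rel s =>
    refine ⟨0, fun k n ρ F h e _ hC _ _ => ?_⟩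
    rintro ⟨⟨T, P, ⟨_, rfl⟩, h2, h3⟩, ⟨T', P', ⟨_, rfl⟩, h2', h3'⟩⟩
    exact Bool.false_ne_true (unique hC h2 h2' h3 h3').2.symm
  | neg φ ih =>
    obtain ⟨D, hD⟩ := ih
    refine ⟨D, fun k n ρ F h e hV hC hk hI hh => ?_⟩
    have := (pr_TM k n ρ F F h h _ φ φ e).2.2.1
    exact hD k n ρ F h e hV hC hk hI ⟨this.2.1 hh.2, this.1.1 hh.1⟩
  | and φ ψ ih1 ih2 =>
    obtain ⟨D1, hD1⟩ := ih1
    obtain ⟨D2, hD2⟩ := ih2
    refine ⟨D1 + D2, fun k n ρ F h e hV hC hk hI hh => ?_⟩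
    have h0 := (pr_TM k n ρ F F h h _ φ ψ e).2.2.2.1
    have h1 := h0.1 hh.1
    have e1 : D1 * (F.card + h + 1) ≤ (D1 + D2) * (F.card + h + 1) :=
      Nat.mul_le_mul_right _ (Nat.le_add_right _ _)
    have e2 : D2 * (F.card + h + 1) ≤ (D1 + D2) * (F.card + h + 1) :=
      Nat.mul_le_mul_right _ (Nat.le_add_left _ _)
    rcases h0.2 hh.2 with h2 | h2
    · exact hD1 k n ρ F h e hV hC (e1.trans hk) (e1.trans hI) ⟨h1.1, h2⟩
    · exact hD2 k n ρ F h e hV hC (e2.trans hk) (e2.trans hI) ⟨h1.2, h2⟩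
  | bex t φ ih => exact bex_case t φ ih
  | ind φ ih => exact ind_case φ ih

end ITU

theorem pr_TU : G_TU := fun _ φ => ITU.main φ

end Pool.Agent.Work.MP_610017_lc.PP
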