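import Mathlib
import Pool.Agent.Work.MP_610017_lc.GP.I_TU

/-!
# Block GG, item TL (helper27)
-/

set_option autoImplicit false

namespace Pool.Agent.Work.MP_610017_lc.PP

namespace ITL

open ITM

/-- the statement for one formula -/
def VL {v : ℕ} (φ : Fm v) : Prop := ∃ D : ℕ, ∀ (k n : ℕ) (ρ : Res k n)
  (F : Finset (Fact k n)) (h : ℕ) (e : Fin v → ℕ), (∀ f ∈ F, Valid f) → Con ρ F →
  D * (F.card + h + 1) ≤ k → D * (F.card + h + 1) ≤ ρ.I.card →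
  (Tru ρ F h φ.toGm e → φ.sat stdN e) ∧ (Fls ρ F h φ.toGm e → ¬ φ.sat stdN e)

theorem bex_case {v : ℕ} (t : Tm v) (ψ : Fm (v + 1)) (ih : VL ψ) : VL (.bex t ψ) := by
  obtain ⟨D, hD⟩ := ih
  refine ⟨20 * D + 100, fun k n ρ F h e hV hC hk hI => ⟨?_, ?_⟩⟩
  · intro hT
    obtain ⟨x, hx, hx'⟩ := pr_TW k n ρ F h v (.bex t ψ.toGm) e hC hT
    exact ⟨x, hx, (hD k n ρ F h (Fin.cons x e) hV hC
      (ITU.num1 (a := F.card) (b := h) hk (by omega) (by omega)).2.2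
      (ITU.num1 (a := F.card) (b := h) hI (by omega) (by omega)).2.2).1 hx'⟩
  · rintro hF ⟨x, hx, hx'⟩
    obtain ⟨T', P', ⟨Tx, h1, _, _, h2⟩, h3, h4⟩ := hF
    obtain ⟨F', g1, g2, g3, g4, Q, r, g5, g6⟩ := (pr_TD k n ρ F h hV hC
      (ITU.num1 (a := F.card) hk (by omega) (by omega)).1
      (ITU.num1 (a := F.card) hI (by omega) (by omega)).2.1).1 (Tx x)
      (pf_RepHLe k n ρ h _ ψ.toGm _ _ (h1 x hx))
    cases r with
    | true =>
      refine h2 P' h3 x hx Q g5 (con_of_dec g4 (dec_union (fun f hf => dec_mono g1 (h4 f hf))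
        (fun f hf => Or.inl (g6 hf))))
    | false =>
      exact (hD k n ρ F' h (Fin.cons x e) g3 g4 (ITU.num1 hk g2 (by omega)).2.2
        (ITU.num1 hI g2 (by omega)).2.2).2 ⟨Tx x, Q, h1 x hx, g5, fun f hf => Or.inl (g6 hf)⟩ hx'

theorem main {v : ℕ} (φ : Fm v) (hφ : φ.RFree) : VL φ := by
  induction φ with
  | eq s t =>
    refine ⟨0, fun k n ρ F h e _ _ _ _ => ⟨?_, ?_⟩⟩
    · rintro ⟨T, P, rfl, h2, _⟩
      exact of_decide_eq_true (p := s.val stdN e = t.val stdN e) (Round_leaf h2).2.symm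
    · rintro ⟨T, P, rfl, h2, _⟩
      exact of_decide_eq_false (p := s.val stdN e = t.val stdN e) (Round_leaf h2).2.symm
  | le s t =>
    refine ⟨0, fun k n ρ F h e _ _ _ _ => ⟨?_, ?_⟩⟩
    · rintro ⟨T, P, rfl, h2, _⟩
      exact of_decide_eq_true (p := s.val stdN e ≤ t.val stdN e) (Round_leaf h2).2.symm
    · rintro ⟨T, P, rfl, h2, _⟩
      exact of_decide_eq_false (p := s.val stdN e ≤ t.val stdN e) (Round_leaf h2).2.symm
  | rel s => exact hφ.elim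
  | neg φ ih =>
    obtain ⟨D, hD⟩ := ih hφ
    refine ⟨D, fun k n ρ F h e hV hC hk hI => ?_⟩
    have h0 := (pr_TM k n ρ F F h h _ φ.toGm φ.toGm e).2.2.1
    have h1 := hD k n ρ F h e hV hC hk hI
    exact ⟨fun hT => h1.2 (h0.1.1 hT), fun hF hn => hn (h1.1 (h0.2.1 hF))⟩
  | and φ ψ ih1 ih2 =>
    obtain ⟨D1, hD1⟩ := ih1 hφ.1
    obtain ⟨D2, hD2⟩ := ih2 hφ.2
    refine ⟨D1 + D2, fun k n ρ F h e hV hC hk hI => ?_⟩
    have h0 := (pr_TM k n ρ F F h h _ φ.toGm ψ.toGm e).2.2.2.1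
    have e1 : D1 * (F.card + h + 1) ≤ (D1 + D2) * (F.card + h + 1) :=
      Nat.mul_le_mul_right _ (Nat.le_add_right _ _)
    have e2 : D2 * (F.card + h + 1) ≤ (D1 + D2) * (F.card + h + 1) :=
      Nat.mul_le_mul_right _ (Nat.le_add_left _ _)
    have g1 := hD1 k n ρ F h e hV hC (e1.trans hk) (e1.trans hI)
    have g2 := hD2 k n ρ F h e hV hC (e2.trans hk) (e2.trans hI)
    refine ⟨fun hT => ⟨g1.1 (h0.1 hT).1, g2.1 (h0.1 hT).2⟩, fun hF hs => ?_⟩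
    rcases h0.2 hF with h2 | h2
    · exact g1.2 h2 hs.1
    · exact g2.2 h2 hs.2
  | bex t φ ih => exact bex_case t φ (ih hφ)

end ITL

theorem pr_TL : G_TL := fun _ φ hφ => ITL.main φ hφ

end Pool.Agent.Work.MP_610017_lc.PP
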