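import Mathlib
import Pool.Agent.Work.MP_610017_lc.GP.StmtsD

/-!
# Block GG, item MV (helper27)
-/

set_option autoImplicit false

namespace Pool.Agent.Work.MP_610017_lc.PP

theorem pr_MV : G_MV := by
  intro s ff D v t r
  induction t with
  | var j => exact ⟨r j, fun i => rfl, rfl⟩
  | zero => exact ⟨EL.const D 0, fun i => rfl, rfl⟩
  | succ t ih =>
    obtain ⟨x, hx, hx'⟩ := ih
    refine ⟨EL.succ x, fun i => ?_, ?_⟩
    · show x.1 i + 1 = t.val stdN _ + 1
      rw [hx]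
    · show (MGS D).succ (t.val (MGS D) _) = _
      rw [hx', MGS_succ]
  | add t u ih1 ih2 =>
    obtain ⟨x, hx, hx'⟩ := ih1
    obtain ⟨y, hy, hy'⟩ := ih2
    refine ⟨EL.add x y, fun i => ?_, ?_⟩
    · show x.1 i + y.1 i = t.val stdN _ + u.val stdN _
      rw [hx, hy]
    · show (MGS D).add (t.val (MGS D) _) (u.val (MGS D) _) = _
      rw [hx', hy', MGS_add]
  | mul t u ih1 ih2 =>
    obtain ⟨x, hx, hx'⟩ := ih1
    obtain ⟨y, hy, hy'⟩ := ih2
    refine ⟨EL.mul x y, fun i => ?_, ?_⟩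
    · show x.1 i * y.1 i = t.val stdN _ * u.val stdN _
      rw [hx, hy]
    · show (MGS D).mul (t.val (MGS D) _) (u.val (MGS D) _) = _
      rw [hx', hy', MGS_mul]

end Pool.Agent.Work.MP_610017_lc.PP
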