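import Mathlib
import Pool.Agent.Work.MP_610017_lc.GP.DBase
import Pool.Agent.Work.MP_610017_lc.GP.I_TU
import Pool.Agent.Work.MP_610017_lc.GP.I_MV

/-!
# Block GG, item MT: truth in the model (helper27)
-/

set_option autoImplicit false

namespace Pool.Agent.Work.MP_610017_lc.PP

namespace IMT

open DB Filter

variable {s : SG} {ff : ℕ → ℕ → ℕ → ℕ → ℕ}

theorem decided (D : GD s ff) {v : ℕ} (φ : Gm v) (r : Fin v → EL D) : ∃ (x : EL D) (c : ℕ),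
    (∀ᶠ i in UU, Tru (s.ρ i) (D.F i) (s.sc i ^ c) φ (fun j => (r j).1 i) ∧
      Wit (s.ρ i) (D.F i) (s.sc i ^ c) φ (fun j => (r j).1 i) (x.1 i)) ∨
    (∀ᶠ i in UU, Fls (s.ρ i) (D.F i) (s.sc i ^ c) φ (fun j => (r j).1 i)) := by
  obtain ⟨x, hx, c, hc⟩ := D.form v φ (fun j => (r j).1) (fun j => (r j).2)
  exact ⟨⟨x, hx⟩, c, (UU_or _ _).1 (UU_le hc)⟩

theorem excl (D : GD s ff) {v : ℕ} (φ : Gm v) (r : Fin v → EL D) {c c' : ℕ}
    (h1 : ∀ᶠ i in UU, Tru (s.ρ i) (D.F i) (s.sc i ^ c) φ (fun j => (r j).1 i))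
    (h2 : ∀ᶠ i in UU, Fls (s.ρ i) (D.F i) (s.sc i ^ c') φ (fun j => (r j).1 i)) : False := by
  obtain ⟨A, hA⟩ := pr_TU v φ
  apply UU_false
  filter_upwards [h1, h2, room D A (c + c')] with i p1 p2 p3
  exact hA _ _ (s.ρ i) (D.F i) (s.sc i ^ (c + c')) _ (D.ok.valid i) (D.ok.con i) p3.1 p3.2
    ⟨tru_le D (by omega) p1, fls_le D (by omega) p2⟩

/-- the two implications -/
def SS (D : GD s ff) {v : ℕ} (φ : Gm v) : Prop := ∀ r : Fin v → EL D,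
  ((∃ c : ℕ, ∀ᶠ i in UU, Tru (s.ρ i) (D.F i) (s.sc i ^ c) φ (fun j => (r j).1 i)) →
    φ.sat (MGS D) (fun j => MG.mk (r j))) ∧
  ((∃ c : ℕ, ∀ᶠ i in UU, Fls (s.ρ i) (D.F i) (s.sc i ^ c) φ (fun j => (r j).1 i)) →
    ¬ φ.sat (MGS D) (fun j => MG.mk (r j)))

theorem iffs {D : GD s ff} {v : ℕ} {φ : Gm v} (h : SS D φ) (r : Fin v → EL D) :
    (φ.sat (MGS D) (fun j => MG.mk (r j)) ↔
      ∃ c : ℕ, ∀ᶠ i in UU, Tru (s.ρ i) (D.F i) (s.sc i ^ c) φ (fun j => (r j).1 i)) ∧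
    (¬ φ.sat (MGS D) (fun j => MG.mk (r j)) ↔
      ∃ c : ℕ, ∀ᶠ i in UU, Fls (s.ρ i) (D.F i) (s.sc i ^ c) φ (fun j => (r j).1 i)) := by
  obtain ⟨x, c, h1 | h1⟩ := decided D φ r
  · have h2 : ∃ c : ℕ, ∀ᶠ i in UU, Tru (s.ρ i) (D.F i) (s.sc i ^ c) φ (fun j => (r j).1 i) :=
      ⟨c, h1.mono fun i hi => hi.1⟩
    refine ⟨⟨fun _ => h2, fun _ => (h r).1 h2⟩, ⟨fun h3 => absurd ((h r).1 h2) h3, (h r).2⟩⟩
  · refine ⟨⟨fun h3 => absurd h3 ((h r).2 ⟨c, h1⟩), (h r).1⟩, ⟨fun _ => ⟨c, h1⟩, (h r).2⟩⟩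

theorem bex_case (hX : G_TX) (D : GD s ff) {v : ℕ} (t : Tm v) (ψ : Gm (v + 1)) (ih : SS D ψ) :
    SS D (.bex t ψ) := by
  intro r
  obtain ⟨tv, ht1, ht2⟩ := pr_MV s ff D v t r
  refine ⟨?_, ?_⟩
  · rintro ⟨c, hc⟩
    obtain ⟨x, c', h1 | h1⟩ := decided D (.bex t ψ) r
    · refine ⟨MG.mk x, ?_, ?_⟩
      · rw [ht2, MGS_le]
        filter_upwards [h1] with i hi
        rw [ht1]
        exact hi.2.1
      · rw [MG.cons]
        refine (ih (Fin.cons x r)).1 ⟨c', ?_⟩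
        filter_upwards [h1] with i hi
        rw [EL.cons]
        exact hi.2.2
    · exact (excl D _ r hc h1).elim
  · rintro ⟨c, hc⟩ ⟨x, hx1, hx2⟩
    obtain ⟨x, rfl⟩ : ∃ x' : EL D, x = MG.mk x' := ⟨Quotient.out x, (Quotient.out_eq x).symm⟩
    rw [ht2, MGS_le] at hx1
    rw [MG.cons] at hx2
    obtain ⟨c', hc'⟩ := (iffs ih (Fin.cons x r)).1.1 hx2
    obtain ⟨A, hA⟩ := (hX v).1 t ψ
    apply UU_false
    filter_upwards [hc, hc', hx1, room D A (c + c')] with i p1 p2 p3 p4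
    rw [ht1] at p3
    rw [EL.cons] at p2
    exact hA _ _ (s.ρ i) (D.F i) (s.sc i ^ (c + c')) _ (D.ok.valid i) (D.ok.con i) p4.1 p4.2
      (fls_le D (by omega) p1) (x.1 i) ⟨p3, tru_le D (by omega) p2⟩

theorem ind_case (hX : G_TX) (D : GD s ff) {v : ℕ} (ψ : Gm (v + 1)) (ih : SS D ψ) :
    SS D (.ind ψ) := by
  intro r
  have e1 : Fin.tail (fun j => MG.mk (r j)) = fun j => MG.mk (Fin.tail r j) := rfl
  refine ⟨?_, ?_⟩
  · rintro ⟨c, hc⟩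
    obtain ⟨x, c', h1 | h1⟩ := decided D (.ind ψ) r
    · refine ⟨MG.mk x, ?_, ?_, ?_⟩
      · rw [MGS_le]
        filter_upwards [h1] with i hi
        exact hi.2.1
      · rw [e1, MG.cons]
        refine (ih (Fin.cons x (Fin.tail r))).1 ⟨c', ?_⟩
        filter_upwards [h1] with i hi
        rw [EL.cons]
        exact hi.2.2.1
      · rw [e1, MGS_succ, MG.cons]
        refine (ih (Fin.cons (EL.succ x) (Fin.tail r))).2 ⟨c', ?_⟩
        filter_upwards [h1] with i hi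
        rw [EL.cons]
        exact hi.2.2.2
    · exact (excl D _ r hc h1).elim
  · rintro ⟨c, hc⟩ ⟨x, hx1, hx2, hx3⟩
    obtain ⟨x, rfl⟩ : ∃ x' : EL D, x = MG.mk x' := ⟨Quotient.out x, (Quotient.out_eq x).symm⟩
    rw [MGS_le] at hx1
    rw [e1, MG.cons] at hx2
    rw [e1, MGS_succ, MG.cons] at hx3
    obtain ⟨c1, hc1⟩ := (iffs ih _).1.1 hx2
    obtain ⟨c2, hc2⟩ := (iffs ih _).2.1 hx3
    obtain ⟨A, hA⟩ := (hX v).2 ψ
    apply UU_false
    filter_upwards [hc, hc1, hc2, hx1, room D A (c + c1 + c2)] with i p1 p2 p3 p4 p5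
    rw [EL.cons] at p2 p3
    exact (hA _ _ (s.ρ i) (D.F i) (s.sc i ^ (c + c1 + c2)) _ (D.ok.valid i) (D.ok.con i)
      p5.1 p5.2 (fls_le D (by omega) p1)).1 (x.1 i)
      ⟨p4, tru_le D (by omega) p2, fls_le D (by omega) p3⟩

theorem main (hX : G_TX) (D : GD s ff) {v : ℕ} (φ : Gm v) : SS D φ := by
  induction φ with
  | eq a b =>
    intro r
    obtain ⟨x, hx, hx'⟩ := pr_MV s ff D _ a r
    obtain ⟨y, hy, hy'⟩ := pr_MV s ff D _ b r
    refine ⟨?_, ?_⟩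
    · rintro ⟨c, hc⟩
      show a.val (MGS D) _ = b.val (MGS D) _
      rw [hx', hy', MG.eq_iff]
      filter_upwards [hc] with i hi
      obtain ⟨T, P, rfl, h2, _⟩ := hi
      rw [hx, hy]
      exact of_decide_eq_true (Round_leaf h2).2.symm
    · rintro ⟨c, hc⟩ hs
      have hs' : a.val (MGS D) _ = b.val (MGS D) _ := hs
      rw [hx', hy', MG.eq_iff] at hs'
      apply UU_false
      filter_upwards [hc, hs'] with i hi hj
      obtain ⟨T, P, rfl, h2, _⟩ := hi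
      rw [hx, hy] at hj
      exact of_decide_eq_false (Round_leaf h2).2.symm hj
  | le a b =>
    intro r
    obtain ⟨x, hx, hx'⟩ := pr_MV s ff D _ a r
    obtain ⟨y, hy, hy'⟩ := pr_MV s ff D _ b r
    refine ⟨?_, ?_⟩
    · rintro ⟨c, hc⟩
      show (MGS D).le (a.val (MGS D) _) (b.val (MGS D) _)
      rw [hx', hy', MGS_le]
      filter_upwards [hc] with i hi
      obtain ⟨T, P, rfl, h2, _⟩ := hi
      rw [hx, hy]
      exact of_decide_eq_true (Round_leaf h2).2.symm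
    · rintro ⟨c, hc⟩ hs
      have hs' : (MGS D).le (a.val (MGS D) _) (b.val (MGS D) _) := hs
      rw [hx', hy', MGS_le] at hs'
      apply UU_false
      filter_upwards [hc, hs'] with i hi hj
      obtain ⟨T, P, rfl, h2, _⟩ := hi
      rw [hx, hy] at hj
      exact of_decide_eq_false (Round_leaf h2).2.symm hj
  | rel t =>
    intro r
    choose tv ht1 ht2 using fun j => pr_MV s ff D _ (t j) r
    have e1 : (fun j => (t j).val (MGS D) (fun j => MG.mk (r j))) = fun j => MG.mk (tv j) :=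
      funext ht2
    have e2 : ∀ i, (fun j => (tv j).1 i) = fun j => (t j).val stdN (fun j => (r j).1 i) :=
      fun i => funext fun j => ht1 j i
    have e3 : (Gm.rel t).sat (MGS D) (fun j => MG.mk (r j)) ↔
        ∀ᶠ i in UU, TruR (s.ρ i) (D.F i) (fun j => (t j).val stdN (fun j => (r j).1 i)) := by
      show (MGS D).rel (fun j => (t j).val (MGS D) (fun j => MG.mk (r j))) ↔ _
      rw [e1, MGS_rel]
      simp only [e2]
    refine ⟨?_, ?_⟩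
    · rintro ⟨c, hc⟩
      rw [e3]
      filter_upwards [hc] with i hi
      exact ((pr_TM _ _ _ _ (D.F i) _ 0 _ (.rel t) (.rel t) _).2.2.2.2 t).1 hi
    · rintro ⟨c, hc⟩ hs
      rw [e3] at hs
      apply UU_false
      filter_upwards [hc, hs] with i hi hj
      obtain ⟨P, h1, h2⟩ := hj
      obtain ⟨Q, h3, h4⟩ := ((pr_TM _ _ _ _ (D.F i) _ 0 _ (.rel t) (.rel t) _).2.2.2.2 t).2 hi
      exact Bool.false_ne_true (ITM.unique (D.ok.con i) h1 h3 h2 h4).2.symm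
  | neg φ ih =>
    intro r
    refine ⟨?_, ?_⟩
    · rintro ⟨c, hc⟩
      exact (ih r).2 ⟨c, hc.mono fun i hi =>
        ((pr_TM _ _ _ _ (D.F i) _ 0 _ φ φ _).2.2.1).1.1 hi⟩
    · rintro ⟨c, hc⟩ hs
      exact hs ((ih r).1 ⟨c, hc.mono fun i hi =>
        ((pr_TM _ _ _ _ (D.F i) _ 0 _ φ φ _).2.2.1).2.1 hi⟩)
  | and φ ψ ih1 ih2 =>
    intro r
    refine ⟨?_, ?_⟩
    · rintro ⟨c, hc⟩
      exact ⟨(ih1 r).1 ⟨c, hc.mono fun i hi =>
        (((pr_TM _ _ _ _ (D.F i) _ 0 _ φ ψ _).2.2.2.1).1 hi).1⟩,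
        (ih2 r).1 ⟨c, hc.mono fun i hi =>
        (((pr_TM _ _ _ _ (D.F i) _ 0 _ φ ψ _).2.2.2.1).1 hi).2⟩⟩
    · rintro ⟨c, hc⟩ hs
      have h1 := hc.mono fun i hi => ((pr_TM _ _ _ _ (D.F i) _ 0 _ φ ψ _).2.2.2.1).2 hi
      rcases (UU_or _ _).1 h1 with h2 | h2
      · exact (ih1 r).2 ⟨c, h2⟩ hs.1
      · exact (ih2 r).2 ⟨c, h2⟩ hs.2
  | bex t φ ih => exact bex_case hX D t φ ih
  | ind φ ih => exact ind_case hX D φ ih

end IMT

theorem pr_MT (hX : G_TX) : G_MT := fun _ _ D _ φ r => IMT.iffs (IMT.main hX D φ) r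

end Pool.Agent.Work.MP_610017_lc.PP
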