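import Mathlib
import Pool.Agent.Work.MP_610017_lc.PP.Mod
import Pool.Agent.Work.MP_610017_lc.GP.DBase

/-!
# The pigeonhole principle and the counting principles in the generic model (helper27)

Uses the finite cores `coreP`, `coreQ` of block PP (helper34).
-/

set_option autoImplicit false

namespace Pool.Agent.Work.MP_610017_lc.PP

namespace IPH

/-- A formula which is false in the model: consistent false branches, at almost all places. -/
theorem false_conG (hMT : G_MT) {s : SG} {ff : ℕ → ℕ → ℕ → ℕ → ℕ} (D : GD s ff) {v : ℕ}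
    (ψ : Fm (v + 1)) (a : EL D) (r : Fin v → EL D)
    (h : ¬ ψ.sat (MGS D) (Fin.cons (MG.mk a) fun j => MG.mk (r j))) :
    ∃ c : ℕ, ∀ᶠ i in UU,
      ∃ (T : Tree (s.kk i) (s.nn i)) (B : Finset (Fact (s.kk i) (s.nn i))),
        Rep (s.ρ i) (s.sc i ^ c) ψ.toGm (Fin.cons (a.1 i) fun j => (r j).1 i) T ∧
        Br T B false ∧ Con (s.ρ i) B := by
  have hn : ¬ ψ.toGm.sat (MGS D) (fun j => MG.mk ((Fin.cons a r : Fin (v + 1) → EL D) j)) := by
    rw [← MG.cons, Fm.sat_toGm]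
    exact h
  obtain ⟨c, H⟩ := (hMT s ff D _ ψ.toGm _).2.1 hn
  refine ⟨c, ?_⟩
  filter_upwards [H] with i p
  rw [EL.cons] at p
  obtain ⟨T, B, b1, b2, b3⟩ := p
  exact ⟨T, B, b1, b2, ITM.con_of_dec (D.ok.con i) b3⟩

/-- the numeral `q` -/
def numT {v : ℕ} : ℕ → Tm v
  | 0 => .zero
  | q + 1 => .succ (numT q)

theorem numT_val {M : Type} (N : Str M) {v : ℕ} (e : Fin v → M) (q : ℕ) :
    (numT q : Tm v).val N e = N.num q := by
  induction q with
  | zero => rfl
  | succ q ih =>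
    show N.succ ((numT q : Tm v).val N e) = N.succ (N.num q)
    rw [ih]

theorem num_std (q : ℕ) : stdN.num q = q := by
  induction q with
  | zero => rfl
  | succ q ih =>
    show stdN.num q + 1 = q + 1
    rw [ih]

theorem M_le_succ {s : SG} {ff : ℕ → ℕ → ℕ → ℕ → ℕ} {D : GD s ff} {a y : MG D} (h : (MGS D).le y a) :
    (MGS D).le y ((MGS D).succ a) ∧ y ≠ (MGS D).succ a := by
  obtain ⟨ra, rfl⟩ : ∃ ra : EL D, a = MG.mk ra := ⟨_, (Quotient.out_eq a).symm⟩
  obtain ⟨ry, rfl⟩ : ∃ ry : EL D, y = MG.mk ry := ⟨_, (Quotient.out_eq y).symm⟩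
  rw [MGS_le] at h
  rw [MGS_succ]
  have h2 : (MGS D).lt (MG.mk ry) (MG.mk (EL.succ ra)) := by
    rw [MGS_lt]
    filter_upwards [h] with i hi
    exact Nat.lt_succ_of_le hi
  exact h2

theorem M_of_succ {s : SG} {ff : ℕ → ℕ → ℕ → ℕ → ℕ} {D : GD s ff} {a y : MG D} (h : (MGS D).le y ((MGS D).succ a))
    (h2 : y ≠ (MGS D).succ a) : (MGS D).le y a := by
  obtain ⟨ra, rfl⟩ : ∃ ra : EL D, a = MG.mk ra := ⟨_, (Quotient.out_eq a).symm⟩
  obtain ⟨ry, rfl⟩ : ∃ ry : EL D, y = MG.mk ry := ⟨_, (Quotient.out_eq y).symm⟩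
  rw [MGS_succ] at h h2
  have h3 : (MGS D).lt (MG.mk ry) (MG.mk (EL.succ ra)) := ⟨h, h2⟩
  rw [MGS_lt] at h3
  rw [MGS_le]
  filter_upwards [h3] with i hi
  exact Nat.le_of_lt_succ hi

/-- The model satisfies the pigeonhole principle for all bounded formulas. -/
theorem pr_PHP (hMT : G_MT) {s : SG} {ff : ℕ → ℕ → ℕ → ℕ → ℕ} (D : GD s ff) : PHP (MGS D) := by
  intro v φ e a hall
  by_contra hcol
  obtain ⟨r, rfl⟩ := MG.reps e
  have hf : ¬ (vP φ).sat (MGS D) (Fin.cons ((MGS D).succ a) fun j => MG.mk (r j)) := by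
    intro h
    obtain ⟨ψ, hψ, hs⟩ := (dis_sat (MGS D) _ [vE φ, vC φ, vD φ]).1 h
    simp only [List.mem_cons, List.not_mem_nil, or_false] at hψ
    rcases hψ with rfl | rfl | rfl
    · obtain ⟨X, hX, h1⟩ := (exs_sat (MGS D) _ _ 1 _).1 hs
      obtain ⟨y, hy, hxy⟩ := hall (X 0) (hX 0 (by omega))
      obtain ⟨y1, y2⟩ := M_le_succ hy
      apply h1
      refine ⟨y, ?_, ?_⟩
      · show (MGS D).le y (asg _ X 1 ⟨1, _⟩)
        rw [asg_bound]
        exact y1
      · show (cnj _).sat (MGS D) (asg (Fin.cons ((MGS D).succ a) fun j => MG.mk (r j))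
          (X2 (X 0) y) 2)
        rw [cnj_sat]
        intro ψ hψ
        simp only [List.mem_cons, List.not_mem_nil, or_false] at hψ
        rcases hψ with rfl | rfl
        · rw [lit_sat]
          exact hxy
        · rw [nea_sat]
          exact y2
    · obtain ⟨X, hX, h1⟩ := (exs_sat (MGS D) _ _ 3 _).1 hs
      rw [cnj_sat] at h1
      have a1 := (lit_sat _ _ _ _ _ _ _ _ _ _).1 (h1 (lit φ 3 0 2 (by omega) (by omega)) (by simp))
      have a2 := (lit_sat _ _ _ _ _ _ _ _ _ _).1 (h1 (lit φ 3 1 2 (by omega) (by omega)) (by simp))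
      have a3 := (nel_sat _ _ _ _ _ _ _ _ _).1 (h1 (nel v 3 0 1 (by omega) (by omega)) (by simp))
      have a4 := (nea_sat _ _ _ _ _ _ _).1 (h1 (nea v 3 2 (by omega)) (by simp))
      exact hcol ⟨X 0, X 1, X 2, hX 0 (by omega), hX 1 (by omega), a3,
        M_of_succ (hX 2 (by omega)) a4, a1, a2⟩
    · obtain ⟨X, hX, h1⟩ := (exs_sat (MGS D) _ _ 1 _).1 hs
      rw [cnj_sat] at h1
      exact h1 (.neg (.eq .zero .zero)) (by simp) rfl
  obtain ⟨ra, rfl⟩ : ∃ ra : EL D, a = MG.mk ra := ⟨_, (Quotient.out_eq a).symm⟩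
  rw [MGS_succ] at hf
  obtain ⟨c, H⟩ := false_conG hMT D (vP φ) (EL.succ ra) r hf
  apply UU_false
  filter_upwards [H, DB.room D 2000 c] with i p q
  obtain ⟨T, B, b1, b2, b3⟩ := p
  obtain ⟨p1, p2⟩ := q
  exact coreP (s.ρ i) φ (ra.1 i) (fun j => (r j).1 i) T B b1 b2 b3 (by omega) (by omega)

/-- The model satisfies the counting principles for all bounded formulas. -/
theorem pr_Count (hMT : G_MT) (hML : G_ML) {s : SG} {ff : ℕ → ℕ → ℕ → ℕ → ℕ} (D : GD s ff)
    (q : ℕ) (hq : 1 ≤ q) : CountMod (MGS D) q := by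
  classical
  intro v φ e a hrefl _ htrans hcard
  obtain ⟨r, rfl⟩ := MG.reps e
  have hfin : ∀ x, (MGS D).le x a →
      {y | (MGS D).le y a ∧ φ.sat (MGS D) (Fin.cons x (Fin.cons y fun j => MG.mk (r j)))}.Finite :=
    fun x hx => Set.finite_of_ncard_pos (by rw [hcard x hx]; omega)
  have hf : ¬ (vQ φ q).sat (MGS D) (Fin.cons a fun j => MG.mk (r j)) := by
    intro h
    obtain ⟨ψ, hψ, hs⟩ := (dis_sat (MGS D) _ (qL φ q)).1 h
    unfold qL at hψ
    rcases List.mem_cons.1 hψ with rfl | hψ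
    · obtain ⟨X, hX, h1⟩ := (exs_sat (MGS D) _ _ 1 _).1 hs
      exact h1 ((lit_sat _ _ _ _ _ _ _ _ _ _).2 (hrefl (X 0) (hX 0 (by omega))))
    rcases List.mem_cons.1 hψ with rfl | hψ
    · obtain ⟨X, hX, h1⟩ := (exs_sat (MGS D) _ _ 3 _).1 hs
      rw [cnj_sat] at h1
      have a1 := (lit_sat _ _ _ _ _ _ _ _ _ _).1 (h1 (lit φ 3 0 1 (by omega) (by omega)) (by simp))
      have a2 := (lit_sat _ _ _ _ _ _ _ _ _ _).1 (h1 (lit φ 3 1 2 (by omega) (by omega)) (by simp))
      have a3 := h1 (.neg (lit φ 3 0 2 (by omega) (by omega))) (by simp)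
      exact a3 ((lit_sat _ _ _ _ _ _ _ _ _ _).2 (htrans _ _ _ (hX 0 (by omega))
        (hX 1 (by omega)) (hX 2 (by omega)) a1 a2))
    rcases List.mem_cons.1 hψ with rfl | hψ
    · obtain ⟨X, hX, h1⟩ := (exs_sat (MGS D) _ _ (q + 2) _).1 hs
      rw [cnj_sat] at h1
      have a1 : ∀ i : Fin (q + 1), φ.sat (MGS D) (Fin.cons (X 0) (Fin.cons (X (i.val + 1))
          fun j => MG.mk (r j))) := by
        intro i
        refine (lit_sat _ _ _ _ _ _ _ _ _ _).1 (h1 (lit φ (q + 2) 0 (i.val + 1) (by omega)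
          (by omega)) ?_)
        exact List.mem_append_left _ (List.mem_map.2 ⟨i, List.mem_finRange _, rfl⟩)
      have a2 : ∀ i j : Fin (q + 1), i.val < j.val → X (i.val + 1) ≠ X (j.val + 1) := by
        intro i j hij
        refine (nel_sat _ _ _ _ _ _ _ _ _).1 (h1 (nel v (q + 2) (i.val + 1) (j.val + 1) (by omega)
          (by omega)) ?_)
        refine List.mem_append_right _ (List.mem_flatMap.2 ⟨j, List.mem_finRange _,
          List.mem_map.2 ⟨⟨i.val, hij⟩, List.mem_finRange _, rfl⟩⟩)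
      have hinj : Function.Injective fun i : Fin (q + 1) => X (i.val + 1) := by
        intro i j hij
        rcases lt_trichotomy i.val j.val with h5 | h5 | h5
        · exact absurd hij (a2 i j h5)
        · exact Fin.ext h5
        · exact absurd hij.symm (a2 j i h5)
      have hsub : Set.range (fun i : Fin (q + 1) => X (i.val + 1)) ⊆
          {y | (MGS D).le y a ∧ φ.sat (MGS D) (Fin.cons (X 0) (Fin.cons y
            fun j => MG.mk (r j)))} := by
        rintro _ ⟨i, rfl⟩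
        exact ⟨hX _ (by have := i.isLt; omega), a1 i⟩
      have h2 := Set.ncard_le_ncard hsub (hfin _ (hX 0 (by omega)))
      rw [hcard _ (hX 0 (by omega)), ← Set.image_univ, Set.ncard_image_of_injective _ hinj,
        Set.ncard_univ, Nat.card_eq_fintype_card, Fintype.card_fin] at h2
      omega
    · obtain ⟨j, hj, rfl⟩ := List.mem_map.1 hψ
      have hj' := List.mem_range.1 hj
      obtain ⟨X, hX, h1⟩ := (exs_sat (MGS D) _ _ (j + 1) _).1 hs
      have h2 : ∃ y, y ∈ {y | (MGS D).le y a ∧ φ.sat (MGS D) (Fin.cons (X 0) (Fin.cons y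
            fun j => MG.mk (r j)))} ∧ y ∉ ((Finset.Icc 1 j).image X : Set (MG D)) := by
        refine Set.exists_mem_notMem_of_ncard_lt_ncard ?_ (Finset.finite_toSet _)
        rw [hcard _ (hX 0 (by omega)), Set.ncard_coe_finset]
        refine Finset.card_image_le.trans_lt ?_
        rw [Nat.card_Icc]
        omega
      obtain ⟨y, ⟨y1, y2⟩, y3⟩ := h2
      obtain ⟨X', hX'⟩ : ∃ X' : ℕ → MG D, X' = fun i => if i = j + 1 then y else X i := ⟨_, rfl⟩
      have x1 : X' (j + 1) = y := by rw [hX']; exact if_pos rfl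
      have x2 : ∀ i, i ≤ j → X' i = X i := fun i hi => by rw [hX']; exact if_neg (by omega)
      have x3 : (Fin.cons y (asg (Fin.cons a fun j => MG.mk (r j) : Fin (v + 1) → MG D) X (j + 1)) :
          Fin (v + 1 + (j + 1) + 1) → MG D) =
            asg (Fin.cons a fun j => MG.mk (r j) : Fin (v + 1) → MG D) X' (j + 2) := by
        show _ = (Fin.cons (X' (j + 1)) (asg (Fin.cons a fun j => MG.mk (r j) :
          Fin (v + 1) → MG D) X' (j + 1)) : Fin (v + 1 + (j + 1) + 1) → MG D)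
        rw [x1, asg_congr _ (j + 1) fun i hi => x2 i (by omega)]
      apply h1
      refine ⟨y, ?_, ?_⟩
      · show (MGS D).le y (asg _ X (j + 1) ⟨j + 1, _⟩)
        rw [asg_bound]
        exact y1
      · rw [x3, cnj_sat]
        intro ψ hψ
        unfold qM at hψ
        rcases List.mem_cons.1 hψ with rfl | hψ
        · rw [lit_sat, x1, x2 0 (by omega)]
          exact y2
        · obtain ⟨i, -, rfl⟩ := List.mem_map.1 hψ
          have hi := i.isLt
          rw [nel_sat, x1, x2 _ (by omega)]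
          intro h5
          apply y3
          rw [← h5]
          exact Finset.mem_coe.2 (Finset.mem_image_of_mem _ (Finset.mem_Icc.2
            ⟨by omega, by omega⟩))
  obtain ⟨ra, rfl⟩ : ∃ ra : EL D, a = MG.mk ra := ⟨_, (Quotient.out_eq a).symm⟩
  obtain ⟨c, H⟩ := false_conG hMT D (vQ φ q) ra r hf
  have hdvd : ∀ᶠ i in UU, q ∣ ra.1 i + 1 := by
    filter_upwards [H, DB.room D (2000 * (q + 1)) c] with i p p'
    obtain ⟨T, B, b1, b2, b3⟩ := p
    have e1 : 1000 * ((q + 1) * (s.sc i ^ c + 1)) + 1000 ≤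
        2000 * (q + 1) * ((D.F i).card + s.sc i ^ c + 1) := by
      have e2 : 1 ≤ (q + 1) * (s.sc i ^ c + 1) := Nat.mul_pos (by omega) (by omega)
      calc 1000 * ((q + 1) * (s.sc i ^ c + 1)) + 1000
          ≤ 2000 * ((q + 1) * (s.sc i ^ c + 1)) := by omega
        _ = 2000 * (q + 1) * (s.sc i ^ c + 1) := by ring
        _ ≤ _ := Nat.mul_le_mul_left _ (by omega)
    exact coreQ hq (s.ρ i) φ (ra.1 i) (fun j => (r j).1 i) T B b1 b2 b3 (e1.trans p'.1)
      (e1.trans p'.2)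
  have hfree : (Fm.bex (.succ (.var 0)) (.eq (.mul (numT q) (.var 0)) (.succ (.var 1))) :
      Fm 1).RFree := trivial
  have hsat : (Fm.bex (.succ (.var 0)) (.eq (.mul (numT q) (.var 0)) (.succ (.var 1))) : Fm 1).sat
      (MGS D) (fun j => MG.mk ((fun _ => ra : Fin 1 → EL D) j)) := by
    rw [hML s ff D 1 _ hfree]
    filter_upwards [hdvd] with i hi
    refine ⟨(ra.1 i + 1) / q, Nat.div_le_self _ _, ?_⟩
    show (numT q : Tm 2).val stdN _ * ((ra.1 i + 1) / q) = ra.1 i + 1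
    rw [numT_val, num_std]
    exact Nat.mul_div_cancel' hi
  obtain ⟨c', -, hc'⟩ := hsat
  refine ⟨c', ?_⟩
  have h9 : (MGS D).mul ((numT q : Tm 2).val (MGS D) (Fin.cons c'
      (fun j => MG.mk ((fun _ => ra : Fin 1 → EL D) j)))) c' = (MGS D).succ (MG.mk ra) := hc'
  rw [numT_val] at h9
  exact h9

end IPH

end Pool.Agent.Work.MP_610017_lc.PP
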