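import Mathlib
import Pool.Agent.Work.MP_610017_lc.GP.StmtsB

/-!
# Block GG, item Sh (helper27)
-/

set_option autoImplicit false

namespace Pool.Agent.Work.MP_610017_lc.PP

theorem pr_Sh : G_Sh := by
  intro k n m ρ h1 h2
  have h0 : ({0, 1} : Finset (Lb n)) ⊆ ρ.I := by
    intro x hx
    rw [Finset.mem_insert, Finset.mem_singleton] at hx
    rcases hx with rfl | rfl
    · exact ρ.zero_mem
    · exact ρ.one_mem
  obtain ⟨I', h3, h4, h5⟩ := Finset.exists_subsuperset_card_eq h0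
    (Finset.card_le_two.trans h1) h2
  refine ⟨⟨ρ.β, ρ.ζ, I', h3 (by simp), h3 (by simp), ρ.one_ne, ρ.corner, ρ.corner1⟩,
    ⟨h4, ?_⟩, h5⟩
  exact ⟨fun _ _ _ => rfl, fun _ _ => rfl, ρ.corner, ρ.corner1⟩

end Pool.Agent.Work.MP_610017_lc.PP
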