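import Mathlib
import Pool.Agent.Work.MP_610017_lc.GP.AllA
import Pool.Agent.Work.MP_610017_lc.GP.I_GN
import Pool.Agent.Work.MP_610017_lc.GP.I_PH
import Pool.Agent.Work.MP_610017_lc.GP.I_EA
import Pool.Agent.Work.MP_610017_lc.GP.I_EN
import Pool.Agent.Work.MP_610017_lc.GP.I_EB
import Pool.Agent.Work.MP_610017_lc.GP.I_Sh
import Pool.Agent.Work.MP_610017_lc.GP.I_SA
import Pool.Agent.Work.MP_610017_lc.GP.I_SQ
import Pool.Agent.Work.MP_610017_lc.GP.I_TX
import Pool.Agent.Work.MP_610017_lc.GP.I_TU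
import Pool.Agent.Work.MP_610017_lc.GP.I_RF
import Pool.Agent.Work.MP_610017_lc.GP.I_GX
import Pool.Agent.Work.MP_610017_lc.GP.I_GB
import Pool.Agent.Work.MP_610017_lc.GP.I_BO
import Pool.Agent.Work.MP_610017_lc.GP.I_MR
import Pool.Agent.Work.MP_610017_lc.GP.I_MT
import Pool.Agent.Work.MP_610017_lc.GP.I_MI
import Pool.Agent.Work.MP_610017_lc.GP.I_ML
import Pool.Agent.Work.MP_610017_lc.GP.I_MK
import Pool.Agent.Work.MP_610017_lc.GP.I_Ma
import Pool.Agent.Work.MP_610017_lc.GP.I_Mb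
import Pool.Agent.Work.MP_610017_lc.GP.I_Mc
import Pool.Agent.Work.MP_610017_lc.GP.I_MP

/-!
# Block GG: assembly of the growth theorem (MP_610017_lc)
-/

set_option autoImplicit false

namespace Pool.Agent.Work.MP_610017_lc.PP

theorem all_Ex : G_Ex := pr_Ex pr_EA pr_EN (pr_EB all_OR) (pr_EI all_OR)

theorem all_SQ : G_SQ := pr_SQ all_Ex pr_Sh pr_SA

theorem all_TX : G_TX := pr_TX pr_TM pr_TD pr_TU

theorem all_MT : G_MT := pr_MT all_TX

theorem all_ML : G_ML := pr_ML all_MT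

end Pool.Agent.Work.MP_610017_lc.PP
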