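import Pool.Agent.Work.MP_610017_lc.GP.StmtsA

set_option autoImplicit false

/-!
# Block GG, item Lb: labels and colours of the modified world
-/

namespace Pool.Agent.Work.MP_610017_lc.PP

namespace ILb

theorem bet_apply {k n w q : ℕ} {ρ : Res k n} {π : Finset (Fact k n)}
    {𝓣 : Set (Finset (Fact k n))} {o : Finset (Fact k n) → ℕ} (D : CD ρ π 𝓣 w q o)
    (i : ℕ → Lb n) (j : ℕ) (v : Vx k) (x : Lb n) :
    D.bet i j v x = ρ.β v (D.tau j v (D.sig i j x)) := rfl

theorem mem_Un {k n w q : ℕ} {ρ : Res k n} {π : Finset (Fact k n)}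
    {𝓣 : Set (Finset (Fact k n))} {o : Finset (Fact k n) → ℕ} (D : CD ρ π 𝓣 w q o) (j : ℕ)
    (x : Lb n) : x ∈ D.Un j ↔ x ∈ ρ.I ∧ ∀ a : ℕ × Fin w, j ≤ a.1 → a.1 < q → D.J a.1 a.2 ≠ x := by
  classical
  unfold CD.Un
  simp only [Finset.mem_filter]

end ILb

theorem pr_Lb (h : G_Sp) : G_Lb := by
  intro k n w q ρ π 𝓣 o D i hi j
  obtain ⟨h1, h2, h3, h4, h5⟩ := h k n w q ρ π 𝓣 o D i hi j
  have hJI : ∀ a, a < q → ∀ g, D.J a g ∈ ρ.I := fun a ha g => (D.J_mem a ha g).1
  have tauFix : ∀ v x, x ∉ ρ.I → D.tau j v x = x := by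
    intro v x hx
    apply (h1 v).fix
    intro a ha
    constructor
    · intro e
      exact hx (by rw [e]; exact hJI a.1 ha.2.1 a.2)
    · intro e
      exact hx (by rw [e]; exact (h3 v a ha).1)
  have Jne : ∀ x, x ∉ ρ.I → ∀ a : ℕ × Fin w, j ≤ a.1 → a.1 < q → D.J a.1 a.2 ≠ x := by
    intro x hx a _ ha e
    exact hx (by rw [← e]; exact hJI a.1 ha a.2)
  have sigUn : ∀ x ∈ D.Un j, D.sig i j x = x := by
    intro x hx
    obtain ⟨hx1, hx2⟩ := (ILb.mem_Un D j x).1 hx
    apply h2.fix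
    intro a ha
    constructor
    · intro e
      exact hx2 (a, D.g0 a) ha.1 ha.2 e.symm
    · intro e
      exact hi.nmem a ha.2 (by rw [← e]; exact hx1)
  refine ⟨?_, ?_, ?_, ?_, ?_⟩
  · intro x hx hxi
    have hs : D.sig i j x = x := by
      apply h2.fix
      intro a ha
      constructor
      · intro e
        exact hx (by rw [e]; exact hJI a ha.2 _)
      · intro e
        exact hxi a ha.1 ha.2 e.symm
    refine ⟨fun hU => hx ((ILb.mem_Un D j x).1 hU).1, ?_, ?_⟩
    · intro v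
      rw [ILb.bet_apply, hs, tauFix v x hx]
    · show D.zt j (D.sig i j x) = ρ.ζ x
      rw [hs]
      exact h5 x (Jne x hx)
  · intro a ha1 ha2
    have hs : D.sig i j (D.J a (D.g0 a)) = i a := h2.left a ⟨ha1, ha2⟩
    refine ⟨fun hU => ((ILb.mem_Un D j _).1 hU).2 (a, D.g0 a) ha1 ha2 rfl, ?_, ?_⟩
    · intro v
      rw [ILb.bet_apply, hs, tauFix v _ (hi.nmem a ha2)]
    · show D.zt j (D.sig i j (D.J a (D.g0 a))) = ρ.ζ (i a)
      rw [hs]
      exact h5 _ (Jne _ (hi.nmem a ha2))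
  · intro a ha1 ha2
    have hs : D.sig i j (D.iy i a) = D.J a.1 a.2 := by
      unfold CD.iy
      split_ifs with hg
      · have h6 : D.sig i j (i a.1) = D.J a.1 (D.g0 a.1) := h2.right a.1 ⟨ha1, ha2⟩
        rw [h6, hg]
      · apply h2.fix
        intro b hb
        constructor
        · intro e
          obtain ⟨e1, e2⟩ := D.J_inj a.1 ha2 b hb.2 _ _ e
          exact hg (by rw [e2, e1])
        · intro e
          exact hi.nmem b hb.2 (by rw [← e]; exact hJI a.1 ha2 a.2)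
    refine ⟨?_, ?_, ?_⟩
    · intro hU
      obtain ⟨hU1, hU2⟩ := (ILb.mem_Un D j _).1 hU
      unfold CD.iy at hU1 hU2
      split_ifs at hU1 hU2 with hg
      · exact hi.nmem a.1 ha2 hU1
      · exact hU2 a ha1 ha2 rfl
    · intro v
      rw [ILb.bet_apply, hs]
      unfold CD.lab
      split_ifs with hv
      · have h6 : D.tau j v (D.J a.1 a.2) = D.ix v a := (h1 v).left a ⟨ha1, ha2, hv⟩
        rw [h6]
        exact Equiv.apply_symm_apply _ _
      · have h6 : D.tau j v (D.J a.1 a.2) = D.J a.1 a.2 := by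
          apply (h1 v).fix
          intro b hb
          constructor
          · intro e
            obtain ⟨e1, e2⟩ := D.J_inj a.1 ha2 b.1 hb.2.1 _ _ e
            have e3 : a = b := Prod.ext e1 e2
            rw [e3] at hv
            exact hv hb.2.2
          · exact (h3 v b hb).2 a ha2
        rw [h6]
    · show D.zt j (D.sig i j (D.iy i a)) = (D.G a.1 a.2).c
      rw [hs]
      exact h4 a ha1 ha2
  · intro v x hx hxi
    obtain ⟨hx1, hx2⟩ := (ILb.mem_Un D j x).1 hx
    rw [ILb.bet_apply, sigUn x hx]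
    congr 1
    apply (h1 v).fix
    intro b hb
    exact ⟨fun e => hx2 b hb.1 hb.2.1 e.symm, fun e => hxi b hb e.symm⟩
  · intro x hx
    show D.zt j (D.sig i j x) = ρ.ζ x
    rw [sigUn x hx]
    exact h5 x ((ILb.mem_Un D j x).1 hx).2

end Pool.Agent.Work.MP_610017_lc.PP
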