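import Pool.Agent.Work.MP_610017_lc.GP.StmtsD

/-!
# Block GG, item Mb: positivity and the commutation rule (helper68)
-/

set_option autoImplicit false

namespace Pool.Agent.Work.MP_610017_lc.PP

namespace IMb

theorem comm {k n : ℕ} (ω : GW k n) (x y a b c d : ℕ) (h1 : hW ω x y a b)
    (h2 : uW ω x y a d) (h3 : uW ω (x + 1) y b c) : hW ω x (y + 1) d c := by
  obtain ⟨a1, a2, a3, a4, a5⟩ := h1
  obtain ⟨b1, b2, b3, b4, b5⟩ := h2
  obtain ⟨c1, c2, c3, c4, c5⟩ := h3
  refine ⟨a1, b2, b4, c4, ?_⟩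
  rw [← b5, Equiv.symm_apply_apply, ← c5, ← a5, Equiv.symm_apply_apply]

end IMb

theorem pr_Mb (h : G_MK) : G_Mb := by
  intro s ff D N hN n k hn hk
  subst hN
  subst hn
  subst hk
  refine ⟨?_, ?_, ?_⟩
  · rw [MGS_zero, nG, MGS_lt]
    exact Filter.Eventually.of_forall fun i => Nat.succ_pos _
  · rw [MGS_zero, kG, MGS_lt]
    filter_upwards [(s.sc_kk 1).filter_mono UU_le] with i hi
    have h2 := s.two_le i
    rw [pow_one] at hi
    show 0 < s.kk i
    omega
  · obtain ⟨ω, -, hw⟩ := h s ff D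
    intro x y a b c d
    induction x using MG.ind' with
    | h x =>
    induction y using MG.ind' with
    | h y =>
    induction a using MG.ind' with
    | h a =>
    induction b using MG.ind' with
    | h b =>
    induction c using MG.ind' with
    | h c =>
    induction d using MG.ind' with
    | h d =>
    intro _ _ _ _ _ _ h1 h2 h3
    rw [MGS_succ] at h3 ⊢
    have e1 := (hw x y a b).1.1 h1
    have e2 := (hw x y a d).2.1.1 h2
    have e3 := (hw (EL.succ x) y b c).2.1.1 h3
    refine (hw x (EL.succ y) d c).1.2 ?_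
    filter_upwards [e1, e2, e3] with i e1 e2 e3
    exact IMb.comm (ω i) _ _ _ _ _ _ e1 e2 e3

end Pool.Agent.Work.MP_610017_lc.PP
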